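import Pool.Agent.H.MP_c8cff9_gt.H93.Ordered

/-!
# Affine simplices in convex sets, singular chains
-/

set_option autoImplicit false

open scoped BigOperators

namespace Pool.Agent.H.MP_c8cff9_gt.H93

/-- The standard topological simplex. -/
abbrev Del (n : ℕ) : Type := stdSimplex ℝ (Fin (n + 1))

/-- Singular simplices. -/
abbrev Sing (n : ℕ) (X : Type) [TopologicalSpace X] : Type := C(Del n, X)

/-- Singular chains with integer coefficients. -/
abbrev Ch (n : ℕ) (X : Type) [TopologicalSpace X] : Type := Sing n X →₀ ℤ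

/-- The `i`-th face of the standard simplex. -/
noncomputable def del (n : ℕ) (i : Fin (n + 2)) : C(Del n, Del (n + 1)) :=
  ⟨stdSimplex.map i.succAbove, stdSimplex.continuous_map _⟩

/-- The singular boundary. -/
noncomputable def bd (n : ℕ) (X : Type) [TopologicalSpace X] : Ch (n + 1) X →ₗ[ℤ] Ch n X :=
  ∑ i : Fin (n + 2), ((-1 : ℤ) ^ (i : ℕ)) •
    Finsupp.lmapDomain ℤ ℤ (fun σ : Sing (n + 1) X => σ.comp (del n i))

/-- The map on singular chains induced by a continuous map. -/
noncomputable def push {X Y : Type} [TopologicalSpace X] [TopologicalSpace Y] (f : C(X, Y))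
    (n : ℕ) : Ch n X →ₗ[ℤ] Ch n Y :=
  Finsupp.lmapDomain ℤ ℤ (fun σ : Sing n X => f.comp σ)

section
variable {X Y Z : Type} [TopologicalSpace X] [TopologicalSpace Y] [TopologicalSpace Z]

lemma bd_single (n : ℕ) (σ : Sing (n + 1) X) :
    bd n X (Finsupp.single σ 1) =
      ∑ i : Fin (n + 2), ((-1 : ℤ) ^ (i : ℕ)) • Finsupp.single (σ.comp (del n i)) (1 : ℤ) := by
  simp [bd, LinearMap.sum_apply, Finsupp.lmapDomain_apply, Finsupp.mapDomain_single]

lemma push_single (f : C(X, Y)) (n : ℕ) (σ : Sing n X) :
    push f n (Finsupp.single σ 1) = Finsupp.single (f.comp σ) (1 : ℤ) := by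
  simp [push, Finsupp.lmapDomain_apply, Finsupp.mapDomain_single]

lemma push_bd (f : C(X, Y)) (n : ℕ) (c : Ch (n + 1) X) :
    push f n (bd n X c) = bd n Y (push f (n + 1) c) := by
  have : (push f n).comp (bd n X) = (bd n Y).comp (push f (n + 1)) := by
    refine oc_ext fun σ => ?_
    rw [LinearMap.comp_apply, LinearMap.comp_apply, bd_single, push_single, bd_single, map_sum]
    refine Finset.sum_congr rfl fun i _ => ?_
    rw [map_smul, push_single]
    rfl
  exact LinearMap.congr_fun this c

lemma push_push (f : C(X, Y)) (g : C(Y, Z)) (n : ℕ) (c : Ch n X) :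
    push g n (push f n c) = push (g.comp f) n c := by
  have : (push g n).comp (push f n) = push (g.comp f) n := by
    refine oc_ext fun σ => ?_
    rw [LinearMap.comp_apply, push_single, push_single, push_single]
    rfl
  exact LinearMap.congr_fun this c

lemma push_id (n : ℕ) (c : Ch n X) : push (ContinuousMap.id X) n c = c := by
  have : push (ContinuousMap.id X) n = LinearMap.id := by
    refine oc_ext fun σ => ?_
    rw [push_single]
    rfl
  exact LinearMap.congr_fun this c

end

section
variable {E : Type} [NormedAddCommGroup E] [NormedSpace ℝ E] {K : Set E} (hK : Convex ℝ K)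

/-- The affine simplex with given vertices in a convex set. -/
noncomputable def aff {n : ℕ} (v : Fin (n + 1) → K) : C(Del n, K) where
  toFun t := ⟨∑ i, (t i) • (v i : E),
    hK.sum_mem (fun i _ => stdSimplex.zero_le t i) (stdSimplex.sum_eq_one t)
      (fun i _ => (v i).2)⟩
  continuous_toFun := by
    refine Continuous.subtype_mk ?_ _
    refine continuous_finset_sum _ fun i _ => ?_
    exact Continuous.smul ((continuous_apply i).comp continuous_subtype_val) continuous_const

lemma aff_coe {n : ℕ} (v : Fin (n + 1) → K) (t : Del n) :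
    ((aff hK v t : K) : E) = ∑ i, (t i) • (v i : E) := rfl

lemma aff_face {n : ℕ} (v : Fin (n + 2) → K) (i : Fin (n + 2)) :
    (aff hK v).comp (del n i) = aff hK (v ∘ i.succAbove) := by
  ext t
  rw [ContinuousMap.comp_apply, aff_coe, aff_coe]
  have h1 : ∀ j, (del n i t) j = ∑ k with i.succAbove k = j, t k := by
    intro j
    change FunOnFinite.linearMap ℝ ℝ i.succAbove t j = _
    rw [FunOnFinite.linearMap_apply_apply]
  simp only [h1, Finset.sum_smul]
  rw [← Finset.sum_fiberwise Finset.univ i.succAbove (fun k => t k • ((v ∘ i.succAbove) k : E))]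
  refine Finset.sum_congr rfl fun j _ => Finset.sum_congr rfl fun k hk => ?_
  rw [Function.comp_apply, (Finset.mem_filter.1 hk).2]

end

/-- The vertices of the standard simplex. -/
noncomputable def vtx (n : ℕ) (i : Fin (n + 1)) : Del n := stdSimplex.vertex i

lemma convex_del (n : ℕ) : Convex ℝ (stdSimplex ℝ (Fin (n + 1)) : Set (Fin (n + 1) → ℝ)) :=
  convex_stdSimplex ℝ _

section
variable {E : Type} [NormedAddCommGroup E] [NormedSpace ℝ E] {K : Set E} (hK : Convex ℝ K)
variable {E' : Type} [NormedAddCommGroup E'] [NormedSpace ℝ E'] {K' : Set E'}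
  (hK' : Convex ℝ K')

lemma aff_vtx {n : ℕ} (v : Fin (n + 1) → K) (i : Fin (n + 1)) : aff hK v (vtx n i) = v i := by
  apply Subtype.ext
  rw [aff_coe, Finset.sum_eq_single i]
  · change (Pi.single i (1 : ℝ) : Fin (n + 1) → ℝ) i • (v i : E) = v i
    rw [Pi.single_eq_same, one_smul]
  · intro j _ hj
    change (Pi.single i (1 : ℝ) : Fin (n + 1) → ℝ) j • (v j : E) = 0
    rw [Pi.single_eq_of_ne hj, zero_smul]
  · intro h; exact absurd (Finset.mem_univ i) h

/-- Composition of affine simplices. -/
lemma aff_aff {n m : ℕ} (w : Fin (m + 1) → K) (u : Fin (n + 1) → Del m) :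
    (aff hK w).comp (aff (convex_del m) u) = aff hK (aff hK w ∘ u) := by
  ext t
  rw [ContinuousMap.comp_apply, aff_coe, aff_coe]
  have h1 : ∀ j, (aff (convex_del m) u t) j = ∑ i, t i * u i j := by
    intro j
    change (∑ i, (t i) • ((u i : Del m).1 : Fin (m + 1) → ℝ)) j = _
    rw [Finset.sum_apply]
    rfl
  simp only [h1, Finset.sum_smul]
  rw [Finset.sum_comm]
  refine Finset.sum_congr rfl fun i _ => ?_
  rw [Function.comp_apply, aff_coe, Finset.smul_sum]
  refine Finset.sum_congr rfl fun j _ => ?_
  rw [mul_smul]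

lemma aff_vertices (n : ℕ) : aff (convex_del n) (vtx n) = ContinuousMap.id _ := by
  ext t j
  change (∑ i, (t i) • ((vtx n i : Del n).1 : Fin (n + 1) → ℝ)) j = t j
  rw [Finset.sum_apply, Finset.sum_eq_single j]
  · change t j * (Pi.single j (1 : ℝ) : Fin (n + 1) → ℝ) j = t j
    rw [Pi.single_eq_same, mul_one]
  · intro i _ hi
    change t i * (Pi.single i (1 : ℝ) : Fin (n + 1) → ℝ) j = 0
    rw [Pi.single_eq_of_ne hi.symm, mul_zero]
  · intro h; exact absurd (Finset.mem_univ j) h

lemma del_eq_aff (n : ℕ) (i : Fin (n + 2)) :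
    del n i = aff (convex_del (n + 1)) (vtx (n + 1) ∘ i.succAbove) := by
  rw [← aff_face, aff_vertices]
  rfl

/-- barycenters -/
noncomputable def bary (n : ℕ) (v : Fin (n + 1) → K) : K := aff hK v stdSimplex.barycenter

lemma bary_aff {m : ℕ} (w : Fin (m + 1) → K) (n : ℕ) (u : Fin (n + 1) → Del m) :
    aff hK w (bary (convex_del m) n u) = bary hK n (aff hK w ∘ u) := by
  rw [bary, bary, ← aff_aff]
  rfl

/-- Realisation of ordered chains as singular chains. -/
noncomputable def real (n : ℕ) : OC K (n + 1) →ₗ[ℤ] Ch n K :=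
  Finsupp.lmapDomain ℤ ℤ (fun v : Fin (n + 1) → K => aff hK v)

lemma real_single (n : ℕ) (v : Fin (n + 1) → K) :
    real hK n (Finsupp.single v 1) = Finsupp.single (aff hK v) (1 : ℤ) := by
  simp [real, Finsupp.lmapDomain_apply, Finsupp.mapDomain_single]

lemma bd_real (n : ℕ) (c : OC K (n + 2)) :
    bd n K (real hK (n + 1) c) = real hK n (ocd K (n + 1) c) := by
  have : (bd n K).comp (real hK (n + 1)) = (real hK n).comp (ocd K (n + 1)) := by
    refine oc_ext fun v => ?_
    rw [LinearMap.comp_apply, LinearMap.comp_apply, real_single, bd_single, ocd_single, map_sum]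
    refine Finset.sum_congr rfl fun i _ => ?_
    rw [map_smul, real_single, aff_face]
  exact LinearMap.congr_fun this c

lemma push_aff_real {m : ℕ} (w : Fin (m + 1) → K) (n : ℕ) (c : OC (Del m) (n + 1)) :
    push (aff hK w) n (real (convex_del m) n c) = real hK n (omap (aff hK w) (n + 1) c) := by
  have : (push (aff hK w) n).comp (real (convex_del m) n) =
      (real hK n).comp (omap (aff hK w) (n + 1)) := by
    refine oc_ext fun v => ?_
    rw [LinearMap.comp_apply, LinearMap.comp_apply, real_single, push_single, omap_single,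
      real_single, aff_aff]
  exact LinearMap.congr_fun this c

end

end Pool.Agent.H.MP_c8cff9_gt.H93
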