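import Pool.Agent.H.MP_c8cff9_gt.H93.SuspSpace

/-!
# A thickened projective plane: algebra
-/

set_option autoImplicit false

open Topology

namespace Pool.Agent.H.MP_c8cff9_gt.H93

/-- inner product of triples -/
def ip (a b : ℝ × ℝ × ℝ) : ℝ := a.1 * b.1 + a.2.1 * b.2.1 + a.2.2 * b.2.2

lemma ip_comm (a b : ℝ × ℝ × ℝ) : ip a b = ip b a := by unfold ip; ring

lemma gram_pos (a b c : ℝ × ℝ × ℝ) (ha : ip a a = 1) (hb : ip b b = 1) (hc : ip c c = 1)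
    (h1 : 1 / 2 < ip a b ^ 2) (h2 : 1 / 2 < ip b c ^ 2) : 0 < ip a b * ip b c * ip a c := by
  have hdet : (a.1 * (b.2.1 * c.2.2 - b.2.2 * c.2.1) - a.2.1 * (b.1 * c.2.2 - b.2.2 * c.1) +
      a.2.2 * (b.1 * c.2.1 - b.2.1 * c.1)) ^ 2 =
      ip a a * ip b b * ip c c + 2 * (ip a b * ip b c * ip a c) - ip a b ^ 2 * ip c c -
        ip b c ^ 2 * ip a a - ip a c ^ 2 * ip b b := by
    unfold ip; ring
  rw [ha, hb, hc] at hdet
  have h3 := sq_nonneg (a.1 * (b.2.1 * c.2.2 - b.2.2 * c.2.1) -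
    a.2.1 * (b.1 * c.2.2 - b.2.2 * c.1) + a.2.2 * (b.1 * c.2.1 - b.2.1 * c.1))
  rw [hdet] at h3
  have h4 := sq_nonneg (ip a c)
  nlinarith

/-- sign of the inner product -/
noncomputable def eps (a b : ℝ × ℝ × ℝ) : ZMod 2 := if 0 < ip a b then 0 else 1

lemma eps_comm (a b : ℝ × ℝ × ℝ) : eps a b = eps b a := by unfold eps; rw [ip_comm]

lemma eps_cocycle (a b c : ℝ × ℝ × ℝ) (ha : ip a a = 1) (hb : ip b b = 1) (hc : ip c c = 1)
    (h1 : 1 / 2 < ip a b ^ 2) (h2 : 1 / 2 < ip b c ^ 2) : eps a b + eps b c + eps a c = 0 := by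
  have h := gram_pos a b c ha hb hc h1 h2
  unfold eps
  have e0 : (1 : ZMod 2) + 1 = 0 := by decide
  rcases lt_or_ge 0 (ip a b) with p1 | p1
  · rcases lt_or_ge 0 (ip b c) with p2 | p2
    · have p3 : 0 < ip a c := (pos_iff_pos_of_mul_pos h).1 (mul_pos p1 p2)
      rw [if_pos p1, if_pos p2, if_pos p3]
      rfl
    · have p2' : ip b c < 0 := by
        refine lt_of_le_of_ne p2 ?_
        rintro h0
        rw [h0] at h2
        norm_num at h2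
      have p3 : ¬ 0 < ip a c := by
        intro p3
        have := (pos_iff_pos_of_mul_pos h).2 p3
        nlinarith
      rw [if_pos p1, if_neg (not_lt.2 p2), if_neg p3]
      rfl
  · have p1' : ip a b < 0 := by
      refine lt_of_le_of_ne p1 ?_
      rintro h0
      rw [h0] at h1
      norm_num at h1
    rcases lt_or_ge 0 (ip b c) with p2 | p2
    · have p3 : ¬ 0 < ip a c := by
        intro p3
        have := (pos_iff_pos_of_mul_pos h).2 p3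
        nlinarith
      rw [if_neg (not_lt.2 p1), if_pos p2, if_neg p3]
      rfl
    · have p2' : ip b c < 0 := by
        refine lt_of_le_of_ne p2 ?_
        rintro h0
        rw [h0] at h2
        norm_num at h2
      have p3 : 0 < ip a c := (pos_iff_pos_of_mul_pos h).1 (mul_pos_of_neg_of_neg p1' p2')
      rw [if_neg (not_lt.2 p1), if_neg (not_lt.2 p2), if_pos p3]
      rfl

/-- closeness of the quadratic data gives closeness up to sign -/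
lemma ip_sq_of_close (a b : ℝ × ℝ × ℝ) (ha : ip a a = 1) (hb : ip b b = 1)
    (h0 : |(a.1 ^ 2 - a.2.1 ^ 2) - (b.1 ^ 2 - b.2.1 ^ 2)| ≤ 1 / 4)
    (h1 : |a.1 * a.2.1 - b.1 * b.2.1| ≤ 1 / 4)
    (h2 : |a.1 * a.2.2 - b.1 * b.2.2| ≤ 1 / 4)
    (h3 : |a.2.1 * a.2.2 - b.2.1 * b.2.2| ≤ 1 / 4) : 1 / 2 < ip a b ^ 2 := by
  obtain ⟨x, y, z⟩ := a
  obtain ⟨x', y', z'⟩ := b
  unfold ip at ha hb ⊢
  simp only at ha hb h0 h1 h2 h3 ⊢
  have s0 := sq_le_sq' (abs_le.1 h0).1 (abs_le.1 h0).2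
  have s1 := sq_le_sq' (abs_le.1 h1).1 (abs_le.1 h1).2
  have s2 := sq_le_sq' (abs_le.1 h2).1 (abs_le.1 h2).2
  have s3 := sq_le_sq' (abs_le.1 h3).1 (abs_le.1 h3).2
  -- the auxiliary quantity `ρ = x² + y²`
  have hρ : ((x ^ 2 + y ^ 2) - (x' ^ 2 + y' ^ 2)) ^ 2 ≤
      ((x ^ 2 - y ^ 2) - (x' ^ 2 - y' ^ 2)) ^ 2 + 4 * (x * y - x' * y') ^ 2 := by
    have : ((x ^ 2 - y ^ 2) - (x' ^ 2 - y' ^ 2)) ^ 2 + 4 * (x * y - x' * y') ^ 2 -
      ((x ^ 2 + y ^ 2) - (x' ^ 2 + y' ^ 2)) ^ 2 = 4 * (x * y' - y * x') ^ 2 := by ring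
    have h := sq_nonneg (x * y' - y * x')
    linarith
  have hz : z * z = 1 - (x ^ 2 + y ^ 2) := by linarith
  have hz' : z' * z' = 1 - (x' ^ 2 + y' ^ 2) := by linarith
  have key : (x * x' + y * y' + z * z') ^ 2 = 1 - (1 / 2) *
      (((x ^ 2 - x' ^ 2) ^ 2 + (y ^ 2 - y' ^ 2) ^ 2 + (z * z - z' * z') ^ 2) +
        2 * ((x * y - x' * y') ^ 2 + (x * z - x' * z') ^ 2 + (y * z - y' * z') ^ 2)) := by
    have e1 : (x * x + y * y + z * z) ^ 2 = 1 := by rw [ha]; norm_num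
    have e2 : (x' * x' + y' * y' + z' * z') ^ 2 = 1 := by rw [hb]; norm_num
    linear_combination (1 / 2) * e1 + (1 / 2) * e2
  rw [key, hz, hz']
  have e3 : (x ^ 2 - x' ^ 2) ^ 2 + (y ^ 2 - y' ^ 2) ^ 2 + ((1 - (x ^ 2 + y ^ 2)) -
      (1 - (x' ^ 2 + y' ^ 2))) ^ 2 = (3 / 2) * ((x ^ 2 + y ^ 2) - (x' ^ 2 + y' ^ 2)) ^ 2 +
        (1 / 2) * ((x ^ 2 - y ^ 2) - (x' ^ 2 - y' ^ 2)) ^ 2 := by ring
  rw [e3]
  linarith

/-- the target space -/
abbrev FF (k : ℕ) : Type := EuclideanSpace ℝ (Fin (k + 3))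

/-- index `0` -/
def i0 (k : ℕ) : Fin (k + 3) := ⟨0, by omega⟩
/-- index `1` -/
def i1 (k : ℕ) : Fin (k + 3) := ⟨1, by omega⟩
/-- index `2` -/
def i2 (k : ℕ) : Fin (k + 3) := ⟨2, by omega⟩

/-- The embedding of the projective plane. -/
noncomputable def VV (k : ℕ) (a : ℝ × ℝ × ℝ) : ℝ × FF k :=
  (a.1 ^ 2 - a.2.1 ^ 2 - 2, EuclideanSpace.single (i0 k) (a.1 * a.2.1) +
    EuclideanSpace.single (i1 k) (a.1 * a.2.2) + EuclideanSpace.single (i2 k) (a.2.1 * a.2.2))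

lemma VV_0 (k : ℕ) (a : ℝ × ℝ × ℝ) : (VV k a).2 (i0 k) = a.1 * a.2.1 := by
  simp [VV, i0, i1, i2]
lemma VV_1 (k : ℕ) (a : ℝ × ℝ × ℝ) : (VV k a).2 (i1 k) = a.1 * a.2.2 := by
  simp [VV, i0, i1, i2]
lemma VV_2 (k : ℕ) (a : ℝ × ℝ × ℝ) : (VV k a).2 (i2 k) = a.2.1 * a.2.2 := by
  simp [VV, i0, i1, i2]

lemma coord_le (k : ℕ) (p q : ℝ × FF k) (i : Fin (k + 3)) : |p.2 i - q.2 i| ≤ dist p q := by
  have h1 : |p.2 i - q.2 i| = ‖(p.2 - q.2) i‖ := by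
    rw [PiLp.sub_apply, Real.norm_eq_abs]
  rw [h1]
  refine (PiLp.norm_apply_le (p.2 - q.2) i).trans ?_
  rw [← dist_eq_norm]
  exact le_max_right _ _

lemma fst_le (k : ℕ) (p q : ℝ × FF k) : |p.1 - q.1| ≤ dist p q := by
  rw [← Real.dist_eq]
  exact le_max_left _ _

lemma ip_sq_of_dist (k : ℕ) (a b : ℝ × ℝ × ℝ) (ha : ip a a = 1) (hb : ip b b = 1)
    (h : dist (VV k a) (VV k b) ≤ 1 / 4) : 1 / 2 < ip a b ^ 2 := by
  refine ip_sq_of_close a b ha hb ?_ ?_ ?_ ?_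
  · have := (fst_le k (VV k a) (VV k b)).trans h
    simp only [VV] at this
    rw [show a.1 ^ 2 - a.2.1 ^ 2 - (b.1 ^ 2 - b.2.1 ^ 2) =
      a.1 ^ 2 - a.2.1 ^ 2 - 2 - (b.1 ^ 2 - b.2.1 ^ 2 - 2) by ring]
    exact this
  · rw [← VV_0 k a, ← VV_0 k b]
    exact (coord_le k _ _ _).trans h
  · rw [← VV_1 k a, ← VV_1 k b]
    exact (coord_le k _ _ _).trans h
  · rw [← VV_2 k a, ← VV_2 k b]
    exact (coord_le k _ _ _).trans h

/-- the thickened projective plane -/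
def TT2 (k : ℕ) : Set (ℝ × FF k) := {p | ∃ a, ip a a = 1 ∧ dist p (VV k a) < 1 / 16}

/-- the base open set -/
def GG (k : ℕ) : Set (ℝ × FF k) := {p | 0 < p.1 ∨ p ∈ TT2 k}

lemma isOpen_TT2 (k : ℕ) : IsOpen (TT2 k) := by
  have : TT2 k = ⋃ a ∈ {a : ℝ × ℝ × ℝ | ip a a = 1}, Metric.ball (VV k a) (1 / 16) := by
    ext p
    simp only [TT2, Set.mem_setOf_eq, Set.mem_iUnion, Metric.mem_ball, exists_prop]
  rw [this]
  exact isOpen_biUnion fun a _ => Metric.isOpen_ball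

lemma isOpen_GG (k : ℕ) : IsOpen (GG k) := by
  have : GG k = (Prod.fst ⁻¹' Set.Ioi 0) ∪ TT2 k := rfl
  rw [this]
  exact (isOpen_Ioi.preimage continuous_fst).union (isOpen_TT2 k)

lemma neg_of_mem_TT2 (k : ℕ) (p : ℝ × FF k) (hp : p ∈ TT2 k) : p.1 < 0 := by
  obtain ⟨a, ha, h⟩ := hp
  have h1 := (abs_lt.1 ((fst_le k p (VV k a)).trans_lt h)).2
  simp only [VV] at h1
  unfold ip at ha
  nlinarith [sq_nonneg a.2.1, sq_nonneg a.2.2]

/-- a choice of unit vector -/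
noncomputable def vch (k : ℕ) (p : ℝ × FF k) : ℝ × ℝ × ℝ := by
  classical
  exact if h : p ∈ TT2 k then Classical.choose h else (1, 0, 0)

lemma vch_unit (k : ℕ) (p : ℝ × FF k) : ip (vch k p) (vch k p) = 1 := by
  unfold vch
  split_ifs with h
  · exact (Classical.choose_spec h).1
  · simp [ip]

lemma vch_dist (k : ℕ) (p : ℝ × FF k) (hp : p ∈ TT2 k) : dist p (VV k (vch k p)) < 1 / 16 := by
  unfold vch
  rw [dif_pos hp]
  exact (Classical.choose_spec hp).2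

/-- the sign cocycle on pairs of points -/
noncomputable def ce (k : ℕ) (p q : ℝ × FF k) : ZMod 2 :=
  if p.1 < 0 then eps (vch k p) (vch k q) else 0

lemma vch_near (k : ℕ) (p q : ℝ × FF k) (hp : p ∈ TT2 k) (hq : q ∈ TT2 k)
    (h : dist p q ≤ 1 / 8) : 1 / 2 < ip (vch k p) (vch k q) ^ 2 := by
  refine ip_sq_of_dist k _ _ (vch_unit k p) (vch_unit k q) ?_
  have h1 := vch_dist k p hp
  have h2 := vch_dist k q hq
  have h3 := dist_triangle4 (VV k (vch k p)) p q (VV k (vch k q))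
  rw [dist_comm (VV k (vch k p)) p] at h3
  linarith

end Pool.Agent.H.MP_c8cff9_gt.H93
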