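import Pool.Agent.H.MP_c8cff9_gt.H93.Base1

/-!
# Torsion in the homology of the base
-/

set_option autoImplicit false

open Topology

namespace Pool.Agent.H.MP_c8cff9_gt.H93

section arcs

/-- the closed unit disc -/
abbrev DD : Set ℂ := Metric.closedBall (0 : ℂ) 1

instance : ContractibleSpace DD :=
  (convex_closedBall (0 : ℂ) 1).contractibleSpace ⟨0, by simp⟩

/-- the point `exp(i π s / 128)` of the disc -/
noncomputable def cpt (s : ℝ) : DD :=
  ⟨Complex.exp ((Real.pi * s / 128 : ℝ) * Complex.I), by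
    rw [mem_closedBall_zero_iff, Complex.norm_exp_ofReal_mul_I]⟩

lemma continuous_cpt : Continuous cpt := by
  unfold cpt
  exact Continuous.subtype_mk (by fun_prop) _

/-- the constant singular `0`-simplex -/
def pt {X : Type} [TopologicalSpace X] (x : X) : Sing 0 X := ContinuousMap.const _ x

/-- small arcs on the circle -/
noncomputable def arc (k : ℕ) : Sing 1 DD :=
  ⟨fun t => cpt (k + t 1), continuous_cpt.comp (by
    exact continuous_const.add ((continuous_apply (1 : Fin 2)).comp continuous_subtype_val))⟩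

lemma del0_apply (i : Fin 2) (t : Del 0) : del 0 i t = vtx 1 (i.succAbove 0) := by
  have ht : t = vtx 0 0 := by
    apply stdSimplex.ext
    ext j
    have hj : j = 0 := Fin.fin_one_eq_zero j
    subst hj
    have h1 := stdSimplex.sum_eq_one t
    rw [Fin.sum_univ_one] at h1
    change t 0 = (Pi.single 0 (1 : ℝ) : Fin 1 → ℝ) 0
    rw [h1, Pi.single_eq_same]
  rw [ht]
  exact stdSimplex.map_vertex _ _

lemma face_eq_pt {X : Type} [TopologicalSpace X] (σ : Sing 1 X) (i : Fin 2) :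
    σ.comp (del 0 i) = pt (σ (vtx 1 (i.succAbove 0))) := by
  ext t
  rw [ContinuousMap.comp_apply, del0_apply]
  rfl

lemma bd_one {X : Type} [TopologicalSpace X] (σ : Sing 1 X) :
    bd 0 X (Finsupp.single σ 1) = Finsupp.single (pt (σ (vtx 1 1))) (1 : ℤ) -
      Finsupp.single (pt (σ (vtx 1 0))) (1 : ℤ) := by
  rw [bd_single, Fin.sum_univ_two, face_eq_pt, face_eq_pt]
  have h0 : (0 : Fin 2).succAbove (0 : Fin 1) = 1 := by decide
  have h1 : (1 : Fin 2).succAbove (0 : Fin 1) = 0 := by decide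
  rw [h0, h1]
  simp [sub_eq_add_neg]

lemma arc_vtx (k : ℕ) (j : Fin 2) : arc k (vtx 1 j) = cpt (k + if j = 1 then 1 else 0) := by
  change cpt (k + (Pi.single j (1 : ℝ) : Fin 2 → ℝ) 1) = _
  congr 2
  by_cases h : j = 1
  · subst h; simp
  · have : j = 0 := by omega
    subst this; simp

/-- the chain of the first `M` arcs -/
noncomputable def arcs (M : ℕ) : Ch 1 DD := ∑ k ∈ Finset.range M, Finsupp.single (arc k) (1 : ℤ)

lemma bd_arcs (M : ℕ) : bd 0 DD (arcs M) = Finsupp.single (pt (cpt M)) (1 : ℤ) -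
    Finsupp.single (pt (cpt 0)) (1 : ℤ) := by
  unfold arcs
  rw [map_sum]
  have h : ∀ k ∈ Finset.range M, bd 0 DD (Finsupp.single (arc k) (1 : ℤ)) =
      Finsupp.single (pt (cpt ((k + 1 : ℕ) : ℝ))) (1 : ℤ) -
        Finsupp.single (pt (cpt (k : ℝ))) (1 : ℤ) := by
    intro k _
    rw [bd_one, arc_vtx, arc_vtx]
    simp
  rw [Finset.sum_congr rfl h,
    Finset.sum_range_sub (fun k : ℕ => (Finsupp.single (pt (cpt (k : ℝ))) (1 : ℤ) : Ch 0 DD))]
  simp

lemma cpt_add (s : ℝ) : (cpt (s + 128) : ℂ) = -(cpt s : ℂ) := by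
  change Complex.exp _ = - Complex.exp _
  have : ((Real.pi * (s + 128) / 128 : ℝ) : ℂ) * Complex.I =
      ((Real.pi * s / 128 : ℝ) : ℂ) * Complex.I + Real.pi * Complex.I := by
    push_cast; ring
  rw [this, Complex.exp_add, Complex.exp_pi_mul_I]
  ring

lemma cpt_256 : cpt 256 = cpt 0 := by
  apply Subtype.ext
  have h1 := cpt_add 128
  have h2 := cpt_add 0
  rw [zero_add] at h2
  norm_num at h1
  rw [h1, h2, neg_neg]

end arcs

section

variable (k : ℕ)

/-- unit vector of a disc point -/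
noncomputable def dv (z : ℂ) : ℝ × ℝ × ℝ := (z.re, z.im, √(1 - ‖z‖ ^ 2))

lemma dv_unit (z : DD) : ip (dv z) (dv z) = 1 := by
  have hz : ‖(z : ℂ)‖ ≤ 1 := by
    have := z.2
    rwa [mem_closedBall_zero_iff] at this
  have h1 : √(1 - ‖(z : ℂ)‖ ^ 2) * √(1 - ‖(z : ℂ)‖ ^ 2) = 1 - ‖(z : ℂ)‖ ^ 2 :=
    Real.mul_self_sqrt (by nlinarith [norm_nonneg (z : ℂ)])
  have h2 : ‖(z : ℂ)‖ ^ 2 = (z : ℂ).re ^ 2 + (z : ℂ).im ^ 2 := by
    rw [← Complex.normSq_eq_norm_sq, Complex.normSq_apply]; ring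
  unfold ip dv
  simp only
  rw [h1, h2]; ring

lemma mem_GG_of (a : ℝ × ℝ × ℝ) (ha : ip a a = 1) : VV k a ∈ GG k :=
  Or.inr ⟨a, ha, by rw [dist_self]; norm_num⟩

lemma continuous_VV : Continuous (VV k) := by
  unfold VV
  have hs : ∀ i : Fin (k + 3), Continuous fun x : ℝ => (EuclideanSpace.single i x : FF k) := by
    intro i
    have : (fun x : ℝ => (EuclideanSpace.single i x : FF k)) =
        fun x => x • (EuclideanSpace.single i (1 : ℝ) : FF k) := by
      ext x j
      simp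
    rw [this]
    exact continuous_id.smul continuous_const
  refine Continuous.prodMk (by fun_prop) ?_
  exact (((hs _).comp (by fun_prop)).add ((hs _).comp (by fun_prop))).add
    ((hs _).comp (by fun_prop))

/-- the map from the disc to the base -/
noncomputable def Ph : C(DD, GG k) :=
  ⟨fun z => ⟨VV k (dv z), mem_GG_of k _ (dv_unit z)⟩, by
    refine Continuous.subtype_mk ?_ _
    refine (continuous_VV k).comp ?_
    unfold dv
    have h1 : Continuous fun z : DD => (z : ℂ).re := Complex.continuous_re.comp (by fun_prop)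
    have h2 : Continuous fun z : DD => (z : ℂ).im := Complex.continuous_im.comp (by fun_prop)
    exact h1.prodMk (h2.prodMk (Real.continuous_sqrt.comp (by fun_prop)))⟩

lemma norm_cpt (s : ℝ) : ‖(cpt s : ℂ)‖ = 1 := Complex.norm_exp_ofReal_mul_I _

lemma cpt_re (s : ℝ) : (cpt s : ℂ).re = Real.cos (Real.pi * s / 128) :=
  Complex.exp_ofReal_mul_I_re _

lemma cpt_im (s : ℝ) : (cpt s : ℂ).im = Real.sin (Real.pi * s / 128) :=
  Complex.exp_ofReal_mul_I_im _

lemma dv_cpt (s : ℝ) : dv (cpt s) =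
    (Real.cos (Real.pi * s / 128), Real.sin (Real.pi * s / 128), 0) := by
  unfold dv
  rw [norm_cpt, cpt_re, cpt_im]
  norm_num

/-- antipodal identification -/
lemma Ph_antipodal (s : ℝ) : Ph k (cpt (s + 128)) = Ph k (cpt s) := by
  apply Subtype.ext
  change VV k (dv (cpt (s + 128))) = VV k (dv (cpt s))
  have h := cpt_add s
  have h1 : dv (cpt (s + 128)) = (-(cpt s : ℂ).re, -(cpt s : ℂ).im, 0) := by
    unfold dv
    rw [h, norm_neg, norm_cpt, Complex.neg_re, Complex.neg_im]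
    norm_num
  have h2 : dv (cpt s) = ((cpt s : ℂ).re, (cpt s : ℂ).im, 0) := by
    unfold dv
    rw [norm_cpt]
    norm_num
  rw [h1, h2]
  simp [VV]

lemma dist_Ph (s t : ℝ) : dist (Ph k (cpt s) : ℝ × FF k) (Ph k (cpt t)) ≤
    2 * (Real.pi * |s - t| / 128) := by
  have e : ∀ s, ((Ph k (cpt s) : GG k) : ℝ × FF k) =
      (Real.cos (2 * (Real.pi * s / 128)) - 2,
        EuclideanSpace.single (i0 k) (Real.sin (2 * (Real.pi * s / 128)) / 2)) := by
    intro s
    change VV k (dv (cpt s)) = _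
    rw [dv_cpt]
    unfold VV
    simp only [mul_zero]
    have h1 : Real.cos (2 * (Real.pi * s / 128)) =
        Real.cos (Real.pi * s / 128) ^ 2 - Real.sin (Real.pi * s / 128) ^ 2 := by
      rw [Real.cos_two_mul, Real.sin_sq]; ring
    have h2 : Real.sin (2 * (Real.pi * s / 128)) / 2 =
        Real.cos (Real.pi * s / 128) * Real.sin (Real.pi * s / 128) := by
      rw [Real.sin_two_mul]; ring
    have hz : ∀ i : Fin (k + 3), (EuclideanSpace.single i (0 : ℝ) : FF k) = 0 := by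
      intro i
      ext j
      simp
    rw [h1, h2, hz, hz, add_zero, add_zero]
  rw [e s, e t, Prod.dist_eq]
  have h3 : |2 * (Real.pi * s / 128) - 2 * (Real.pi * t / 128)| = 2 * (Real.pi * |s - t| / 128) := by
    rw [show 2 * (Real.pi * s / 128) - 2 * (Real.pi * t / 128) =
      (2 * Real.pi / 128) * (s - t) by ring, abs_mul, abs_of_pos (by positivity)]
    ring
  have h4 := Real.abs_cos_sub_cos_le (2 * (Real.pi * s / 128)) (2 * (Real.pi * t / 128))
  have h5 := Real.abs_sin_sub_sin_le (2 * (Real.pi * s / 128)) (2 * (Real.pi * t / 128))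
  rw [h3] at h4 h5
  have hpos : 0 ≤ 2 * (Real.pi * |s - t| / 128) := by positivity
  refine max_le ?_ ?_
  · rw [Real.dist_eq, sub_sub_sub_cancel_right]
    exact h4
  · rw [EuclideanSpace.dist_single_same, Real.dist_eq, ← sub_div, abs_div, abs_two]
    linarith

/-- the arcs in the base -/
lemma push_arc (j : ℕ) : push (Ph k) 1 (Finsupp.single (arc j) (1 : ℤ)) =
    Finsupp.single ((Ph k).comp (arc j)) (1 : ℤ) := push_single _ _ _

lemma Ph_arc_add (j : ℕ) : (Ph k).comp (arc (j + 128)) = (Ph k).comp (arc j) := by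
  ext1 t
  change Ph k (cpt (((j + 128 : ℕ) : ℝ) + t 1)) = Ph k (cpt (j + t 1))
  have : (((j + 128 : ℕ) : ℝ) + t 1) = (j + t 1) + 128 := by push_cast; ring
  rw [this, Ph_antipodal]

/-- the torsion cycle -/
noncomputable def zz : Ch 1 (GG k) := push (Ph k) 1 (arcs 128)

lemma bd_zz : bd 0 (GG k) (zz k) = 0 := by
  unfold zz
  rw [← push_bd, bd_arcs, map_sub, push_single, push_single]
  have : (Ph k).comp (pt (cpt ((128 : ℕ) : ℝ))) = (Ph k).comp (pt (cpt 0)) := by
    ext1 t
    change Ph k (cpt ((128 : ℕ) : ℝ)) = Ph k (cpt 0)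
    have h := Ph_antipodal k 0
    rw [zero_add] at h
    exact_mod_cast h
  rw [this, sub_self]

lemma two_zz : ∃ y, bd 1 (GG k) y = (2 : ℤ) • zz k := by
  have h1 : Acyc 0 DD := acyc_of_contractible 0
  obtain ⟨y, hy⟩ := h1 (arcs 256) (by
    rw [bd_arcs]
    have : cpt ((256 : ℕ) : ℝ) = cpt 0 := by exact_mod_cast cpt_256
    rw [this, sub_self])
  refine ⟨push (Ph k) 2 y, ?_⟩
  rw [← push_bd, hy]
  have h2 : arcs 256 = arcs 128 + ∑ j ∈ Finset.range 128, Finsupp.single (arc (j + 128)) (1 : ℤ) := by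
    unfold arcs
    rw [show (256 : ℕ) = 128 + 128 by norm_num, Finset.sum_range_add]
    congr 1
  have h3 : push (Ph k) 1 (∑ j ∈ Finset.range 128, Finsupp.single (arc (j + 128)) (1 : ℤ)) =
      zz k := by
    unfold zz arcs
    rw [map_sum, map_sum]
    refine Finset.sum_congr rfl fun j _ => ?_
    rw [push_arc, push_arc, Ph_arc_add]
  rw [h2, map_add, h3, two_smul]
  rfl

/-- the cover of the base -/
def cov : Set (Set (GG k)) :=
  insert {p | 0 < p.1.1} {u | ∃ a : ℝ × ℝ × ℝ, ip a a = 1 ∧ u = {p | dist p.1 (VV k a) < 1 / 16}}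

lemma cov_open : ∀ u ∈ cov k, IsOpen u := by
  rintro u (rfl | ⟨a, -, rfl⟩)
  · exact isOpen_lt continuous_const (by fun_prop)
  · exact isOpen_lt (by fun_prop) continuous_const

lemma cov_univ : ⋃₀ cov k = Set.univ := by
  refine Set.eq_univ_of_forall fun p => ?_
  rcases p.2 with h | ⟨a, ha, h⟩
  · exact ⟨_, Set.mem_insert _ _, h⟩
  · exact ⟨_, Set.mem_insert_of_mem _ ⟨a, ha, rfl⟩, h⟩

/-- the cochain -/
noncomputable def coch (σ : Sing 1 (GG k)) : ZMod 2 := ce k (σ (vtx 1 0)).1 (σ (vtx 1 1)).1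

/-- evaluation of chains -/
noncomputable def ev : Ch 1 (GG k) →ₗ[ℤ] ZMod 2 := Finsupp.linearCombination ℤ (coch k)

lemma ev_single (σ : Sing 1 (GG k)) : ev k (Finsupp.single σ 1) = coch k σ := by
  unfold ev
  rw [Finsupp.linearCombination_single, one_smul]

lemma ev_bd_small (y : Ch 2 (GG k)) (hy : y ∈ Sm 2 (cov k)) : ev k (bd 1 (GG k) y) = 0 := by
  have h : ((ev k).comp (bd 1 (GG k))) y ∈ (⊥ : Submodule ℤ (ZMod 2)) := by
    refine map_supported ((ev k).comp (bd 1 (GG k))) _ _ ?_ y hy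
    intro τ hτ
    rw [Submodule.mem_bot, LinearMap.comp_apply, bd_single, map_sum, Fin.sum_univ_three]
    simp only [map_smul, ev_single]
    have hv : ∀ (i : Fin 3) (j : Fin 2), (τ.comp (del 1 i)) (vtx 1 j) = τ (vtx 2 (i.succAbove j)) := by
      intro i j
      rw [ContinuousMap.comp_apply]
      congr 1
      exact stdSimplex.map_vertex _ _
    simp only [coch, hv]
    have s00 : (0 : Fin 3).succAbove (0 : Fin 2) = 1 := by decide
    have s01 : (0 : Fin 3).succAbove (1 : Fin 2) = 2 := by decide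
    have s10 : (1 : Fin 3).succAbove (0 : Fin 2) = 0 := by decide
    have s11 : (1 : Fin 3).succAbove (1 : Fin 2) = 2 := by decide
    have s20 : (2 : Fin 3).succAbove (0 : Fin 2) = 0 := by decide
    have s21 : (2 : Fin 3).succAbove (1 : Fin 2) = 1 := by decide
    rw [s00, s01, s10, s11, s20, s21]
    generalize vtx 2 0 = v0
    generalize vtx 2 1 = v1
    generalize vtx 2 2 = v2
    obtain ⟨u, hu, hs⟩ := hτ
    rcases hu with rfl | ⟨a, ha, rfl⟩
    · have h0 : ¬ (τ v0).1.1 < 0 := not_lt.2 (le_of_lt (hs v0))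
      have h1 : ¬ (τ v1).1.1 < 0 := not_lt.2 (le_of_lt (hs v1))
      unfold ce
      rw [if_neg h0, if_neg h0, if_neg h1]
      simp
    · have hd : ∀ v, dist (τ v).1 (VV k a) < 1 / 16 := hs
      have hT : ∀ v, (τ v).1 ∈ TT2 k := fun v => ⟨a, ha, hd v⟩
      have hn : ∀ v, (τ v).1.1 < 0 := fun v => neg_of_mem_TT2 k _ (hT v)
      have hc : ∀ v w, dist (τ v).1 (τ w).1 ≤ 1 / 8 := by
        intro v w
        have := dist_triangle_right (τ v).1 (τ w).1 (VV k a)
        have h1 := hd v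
        have h2 := hd w
        linarith
      unfold ce
      rw [if_pos (hn v0), if_pos (hn v0), if_pos (hn v1)]
      have := eps_cocycle (vch k (τ v0).1) (vch k (τ v1).1) (vch k (τ v2).1) (vch_unit k _)
        (vch_unit k _) (vch_unit k _) (vch_near k _ _ (hT v0) (hT v1) (hc v0 v1))
        (vch_near k _ _ (hT v1) (hT v2) (hc v1 v2))
      have e2 : (1 : ZMod 2) + 1 = 0 := by decide
      simp only [Fin.val_zero, pow_zero, one_smul, Fin.val_one, pow_one, neg_smul, Fin.val_two,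
        even_two, Even.neg_pow, one_pow]
      have e3 : ∀ x : ZMod 2, -x = x := by decide
      rw [e3]
      rw [← this]
      ring
  exact h

lemma zz_small : zz k ∈ Sm 1 (cov k) := by
  unfold zz arcs
  rw [map_sum]
  refine Submodule.sum_mem _ fun j _ => ?_
  rw [push_arc]
  refine Finsupp.single_mem_supported ℤ 1 ?_
  refine ⟨_, Set.mem_insert_of_mem _ ⟨dv (cpt j), dv_unit _, rfl⟩, fun t => ?_⟩
  change dist (Ph k (cpt (j + t 1)) : ℝ × FF k) (Ph k (cpt j)) < 1 / 16
  refine (dist_Ph k _ _).trans_lt ?_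
  have h1 : |(j + t 1 : ℝ) - j| ≤ 1 := by
    rw [add_sub_cancel_left, abs_of_nonneg (stdSimplex.zero_le t 1)]
    exact stdSimplex.le_one t 1
  have h2 := Real.pi_lt_d2
  have h3 := Real.pi_pos
  have h4 : Real.pi * |(j + t 1 : ℝ) - j| ≤ Real.pi * 1 :=
    mul_le_mul_of_nonneg_left h1 h3.le
  linarith

/-- comparison sign at the `j`-th point -/
noncomputable def eta (j : ℕ) : ZMod 2 := eps (vch k (Ph k (cpt j))) (dv (cpt j))

lemma mem_TT2_Ph (z : DD) : (Ph k z : ℝ × FF k) ∈ TT2 k :=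
  ⟨dv z, dv_unit z, by
    change dist (VV k (dv z)) (VV k (dv z)) < 1 / 16
    rw [dist_self]; norm_num⟩

lemma coch_arc (j : ℕ) : coch k ((Ph k).comp (arc j)) = eta k (j + 1) - eta k j := by
  have hv : ∀ i : Fin 2, ((Ph k).comp (arc j)) (vtx 1 i) =
      Ph k (cpt (j + if i = 1 then 1 else 0)) := by
    intro i
    rw [ContinuousMap.comp_apply, arc_vtx]
  unfold coch
  rw [hv, hv]
  simp only [zero_ne_one, if_false, add_zero, if_true]
  unfold ce
  rw [if_pos (neg_of_mem_TT2 k _ (mem_TT2_Ph k _))]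
  unfold eta
  have hcast : ((j + 1 : ℕ) : ℝ) = (j : ℝ) + 1 := by push_cast; ring
  rw [hcast]
  set p := cpt (j : ℝ) with hp
  set q := cpt ((j : ℝ) + 1) with hq
  have hd : dist (Ph k p : ℝ × FF k) (Ph k q) ≤ 1 / 16 := by
    refine (dist_Ph k _ _).trans ?_
    have h1 : |(j : ℝ) - (j + 1)| = 1 := by
      rw [show (j : ℝ) - (j + 1) = -1 by ring, abs_neg, abs_one]
    rw [h1]
    have h2 := Real.pi_lt_d2
    linarith
  have hup := dv_unit p
  have huq := dv_unit q
  have hyp := vch_unit k (Ph k p)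
  have hyq := vch_unit k (Ph k q)
  have hPp : (Ph k p : ℝ × FF k) = VV k (dv p) := rfl
  have hPq : (Ph k q : ℝ × FF k) = VV k (dv q) := rfl
  have d1 := vch_dist k _ (mem_TT2_Ph k p)
  have d2 := vch_dist k _ (mem_TT2_Ph k q)
  -- the pairs of nearby vectors
  have n1 : 1 / 2 < ip (vch k (Ph k p)) (dv p) ^ 2 := by
    refine ip_sq_of_dist k _ _ hyp hup ?_
    rw [dist_comm, ← hPp]
    linarith
  have n2 : 1 / 2 < ip (dv p) (dv q) ^ 2 := by
    refine ip_sq_of_dist k _ _ hup huq ?_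
    rw [← hPp, ← hPq]
    linarith
  have n3 : 1 / 2 < ip (vch k (Ph k p)) (dv q) ^ 2 := by
    refine ip_sq_of_dist k _ _ hyp huq ?_
    rw [← hPq]
    have := dist_triangle (VV k (vch k (Ph k p))) (Ph k p : ℝ × FF k) (Ph k q)
    rw [dist_comm (VV k (vch k (Ph k p))) (Ph k p : ℝ × FF k)] at this
    linarith
  have n4 : 1 / 2 < ip (dv q) (vch k (Ph k q)) ^ 2 := by
    refine ip_sq_of_dist k _ _ huq hyq ?_
    rw [← hPq]
    linarith
  have c1 := eps_cocycle _ _ _ hyp hup huq n1 n2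
  have c2 := eps_cocycle _ _ _ hyp huq hyq n3 n4
  -- consecutive points are on the same side
  have hpos : eps (dv p) (dv q) = 0 := by
    unfold eps
    rw [if_pos]
    rw [hp, hq, dv_cpt, dv_cpt]
    unfold ip
    simp only [mul_zero, add_zero]
    have h1 : Real.cos (Real.pi * j / 128) * Real.cos (Real.pi * (j + 1) / 128) +
        Real.sin (Real.pi * j / 128) * Real.sin (Real.pi * (j + 1) / 128) =
        Real.cos (Real.pi / 128) := by
      rw [← Real.cos_sub, ← Real.cos_neg]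
      congr 1
      ring
    rw [h1]
    refine Real.cos_pos_of_mem_Ioo ⟨?_, ?_⟩
    · have := Real.pi_pos; linarith
    · have := Real.pi_pos; linarith
  rw [hpos, add_zero] at c1
  have e3 : ∀ x y z w : ZMod 2, x + y = 0 → y + z + w = 0 → w = z - x := by decide
  rw [eps_comm (dv q)] at c2
  exact e3 _ _ _ _ c1 c2

lemma ev_zz : ev k (zz k) = 1 := by
  unfold zz arcs
  rw [map_sum, map_sum]
  have h : ∀ j ∈ Finset.range 128, ev k (push (Ph k) 1 (Finsupp.single (arc j) (1 : ℤ))) =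
      eta k (j + 1) - eta k j := by
    intro j _
    rw [push_arc, ev_single, coch_arc]
  rw [Finset.sum_congr rfl h, Finset.sum_range_sub (eta k)]
  unfold eta
  have h1 : Ph k (cpt ((128 : ℕ) : ℝ)) = Ph k (cpt ((0 : ℕ) : ℝ)) := by
    have h := Ph_antipodal k 0
    rw [zero_add] at h
    exact_mod_cast h
  have h2 : dv (cpt ((128 : ℕ) : ℝ)) = (-1, 0, 0) := by
    rw [dv_cpt]
    have : Real.pi * ((128 : ℕ) : ℝ) / 128 = Real.pi := by
      push_cast
      field_simp
    rw [this, Real.cos_pi, Real.sin_pi]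
  have h3 : dv (cpt ((0 : ℕ) : ℝ)) = (1, 0, 0) := by
    rw [dv_cpt]
    simp
  have n1 : 1 / 2 < ip (vch k (Ph k (cpt ((0 : ℕ) : ℝ)))) (dv (cpt ((0 : ℕ) : ℝ))) ^ 2 := by
    refine ip_sq_of_dist k _ _ (vch_unit k _) (dv_unit _) ?_
    have := vch_dist k _ (mem_TT2_Ph k (cpt ((0 : ℕ) : ℝ)))
    have hPp : (Ph k (cpt ((0 : ℕ) : ℝ)) : ℝ × FF k) = VV k (dv (cpt ((0 : ℕ) : ℝ))) := rfl
    rw [dist_comm, ← hPp]
    linarith
  rw [h1, h2]
  rw [h3] at n1 ⊢
  generalize vch k (Ph k (cpt ((0 : ℕ) : ℝ))) = v at n1 ⊢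
  unfold eps ip at *
  simp only [mul_zero, add_zero, mul_one, mul_neg] at n1 ⊢
  rcases lt_trichotomy v.1 0 with h | h | h
  · rw [if_pos (by linarith), if_neg (by linarith)]
    decide
  · rw [h] at n1
    norm_num at n1
  · rw [if_neg (by linarith), if_pos h]
    decide

/-- The base has two-torsion in its first homology group. -/
theorem hasTors_GG : HasTors 0 (GG k) := by
  refine ⟨zz k, bd_zz k, two_zz k, ?_⟩
  rintro ⟨y, hy⟩
  obtain ⟨y', hs, hy'⟩ := small_of_boundary (cov k) (cov_open k) (cov_univ k) 0 (zz k) (zz_small k)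
    (bd_zz k) y hy
  have h1 := ev_bd_small k y' hs
  rw [hy', ev_zz] at h1
  exact one_ne_zero h1

end

end Pool.Agent.H.MP_c8cff9_gt.H93
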