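import Pool.Agent.H.MP_c8cff9_gt.H93.Susp

/-!
# Comparison with Mathlib's singular homology
-/

set_option autoImplicit false

open CategoryTheory Limits AlgebraicTopology Simplicial

namespace Pool.Agent.H.MP_c8cff9_gt.H93

noncomputable abbrev SC (X : Type) [TopologicalSpace X] : ChainComplex (ModuleCat.{0} ℤ) ℕ :=
  (TopCat.toSSet.obj (TopCat.of X)).chainComplex (ModuleCat.of ℤ ℤ)

variable {X Y : Type} [TopologicalSpace X] [TopologicalSpace Y]

noncomputable def sx (n : ℕ) (σ : Sing n X) : (TopCat.toSSet.obj (TopCat.of X)) _⦋n⦌ :=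
  (TopCat.toSSetObjEquiv (TopCat.of X) (.op ⦋n⦌)).symm σ

noncomputable def xs (n : ℕ) (x : (TopCat.toSSet.obj (TopCat.of X)) _⦋n⦌) : Sing n X :=
  (TopCat.toSSetObjEquiv (TopCat.of X) (.op ⦋n⦌)) x

lemma xs_sx (n : ℕ) (σ : Sing n X) : xs n (sx n σ) = σ := Equiv.apply_symm_apply _ _
lemma sx_xs (n : ℕ) (x : (TopCat.toSSet.obj (TopCat.of X)) _⦋n⦌) : sx n (xs n x) = x :=
  Equiv.symm_apply_apply _ _

lemma sx_face (n : ℕ) (i : Fin (n+2)) (σ : Sing (n+1) X) :
    (TopCat.toSSet.obj (TopCat.of X)).δ i (sx (n+1) σ) = sx n (σ.comp (del n i)) := rfl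

noncomputable def iot (n : ℕ) (σ : Sing n X) : ModuleCat.of ℤ ℤ ⟶ (SC X).X n :=
  SSet.ιChainComplex (X := TopCat.toSSet.obj (TopCat.of X)) (R := ModuleCat.of ℤ ℤ)
    (sx n σ)

lemma hom_ext' {n : ℕ} {T : ModuleCat.{0} ℤ} {f g : (SC X).X n ⟶ T}
    (h : ∀ (σ : Sing n X), iot n σ ≫ f = iot n σ ≫ g) : f = g := by
  refine SSet.chainComplex_hom_ext fun x => ?_
  have := h (xs n x)
  rw [iot, sx_xs] at this
  exact this

lemma iot_d (n : ℕ) (σ : Sing (n + 1) X) : iot (n + 1) σ ≫ (SC X).d (n + 1) n =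
    ∑ i : Fin (n + 2), (-1) ^ i.val • iot n (σ.comp (del n i)) :=
  SSet.ιChainComplex_d (X := TopCat.toSSet.obj (TopCat.of X))
    (R := ModuleCat.of ℤ ℤ) (sx (n + 1) σ)

/-- my chains as an object -/
noncomputable abbrev MO (n : ℕ) (X : Type) [TopologicalSpace X] : ModuleCat.{0} ℤ :=
  ModuleCat.of ℤ (Ch n X)

noncomputable def jot (n : ℕ) (σ : Sing n X) : ModuleCat.of ℤ ℤ ⟶ MO n X :=
  ModuleCat.ofHom (LinearMap.toSpanSingleton ℤ _ (Finsupp.single σ (1 : ℤ)))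

lemma hom_ext'' {n : ℕ} {T : ModuleCat.{0} ℤ} {f g : MO n X ⟶ T}
    (h : ∀ (σ : Sing n X), jot n σ ≫ f = jot n σ ≫ g) : f = g := by
  refine ModuleCat.hom_ext (Finsupp.lhom_ext' fun σ => LinearMap.ext_ring ?_)
  have := congrArg (fun f => f.hom (1 : ℤ)) (h σ)
  simp only [jot, ModuleCat.hom_comp, LinearMap.comp_apply, ModuleCat.hom_ofHom,
    LinearMap.toSpanSingleton_apply, one_smul] at this
  exact this

noncomputable def fromSC (n : ℕ) : (SC X).X n ⟶ MO n X :=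
  Cofan.IsColimit.desc
    ((TopCat.toSSet.obj (TopCat.of X)).isColimitChainComplexXCofan (ModuleCat.of ℤ ℤ) n)
    (fun x => jot n (xs n x))

lemma iot_fromSC (n : ℕ) (σ : Sing n X) : iot n σ ≫ fromSC n = jot n σ := by
  have : iot n σ ≫ fromSC n = jot n (xs n (sx n σ)) := Cofan.IsColimit.fac _ _ _
  rw [this, xs_sx]

noncomputable def toSC (n : ℕ) : MO n X ⟶ (SC X).X n :=
  ModuleCat.ofHom (Finsupp.linearCombination ℤ (fun σ => (iot n σ).hom (1 : ℤ)))

lemma jot_toSC (n : ℕ) (σ : Sing n X) : jot n σ ≫ toSC n = iot n σ := by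
  refine ModuleCat.hom_ext (LinearMap.ext_ring ?_)
  change Finsupp.linearCombination ℤ (fun σ => (iot n σ).hom (1 : ℤ))
    ((1 : ℤ) • Finsupp.single σ (1 : ℤ)) = (iot n σ).hom (1 : ℤ)
  rw [one_smul]
  refine (Finsupp.linearCombination_single ℤ (1 : ℤ) σ).trans ?_
  exact @one_smul ℤ _ _ (@DistribMulAction.toMulAction ℤ _ _ _
    (@Module.toDistribMulAction ℤ _ _ _ _)) _

lemma to_from (n : ℕ) : toSC n ≫ fromSC n = 𝟙 (MO n X) := by
  refine hom_ext'' fun σ => ?_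
  rw [← Category.assoc, jot_toSC, iot_fromSC, Category.comp_id]

lemma from_to (n : ℕ) : fromSC n ≫ toSC n = 𝟙 ((SC X).X n) := by
  refine hom_ext' fun σ => ?_
  rw [← Category.assoc, iot_fromSC, jot_toSC, Category.comp_id]

lemma jot_bd (n : ℕ) (σ : Sing (n + 1) X) : jot (n + 1) σ ≫ ModuleCat.ofHom (bd n X) =
    ∑ i : Fin (n + 2), (-1) ^ i.val • jot n (σ.comp (del n i)) := by
  refine ModuleCat.hom_ext (LinearMap.ext_ring ?_)
  simp only [jot, ModuleCat.hom_comp, LinearMap.comp_apply, ModuleCat.hom_ofHom,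
    LinearMap.toSpanSingleton_apply, one_smul, ModuleCat.hom_sum, LinearMap.sum_apply, bd_single]
  refine Finset.sum_congr rfl fun i _ => ?_
  rw [ModuleCat.hom_zsmul, LinearMap.smul_apply]
  simp

lemma toSC_d (n : ℕ) : toSC (n + 1) ≫ (SC X).d (n + 1) n = ModuleCat.ofHom (bd n X) ≫ toSC n := by
  refine hom_ext'' fun σ => ?_
  rw [← Category.assoc, jot_toSC, iot_d, ← Category.assoc, jot_bd, Preadditive.sum_comp]
  refine Finset.sum_congr rfl fun i _ => ?_
  rw [Linear.smul_comp, jot_toSC]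


lemma to_from_apply (n : ℕ) (c : Ch n X) : (fromSC n).hom ((toSC n).hom c) = c :=
  congrArg (fun f => f.hom c) (to_from (X := X) n)

lemma from_to_apply (n : ℕ) (c : (SC X).X n) : (toSC n).hom ((fromSC n).hom c) = c :=
  congrArg (fun f => f.hom c) (from_to (X := X) n)

lemma toSC_bd (n : ℕ) (c : Ch (n + 1) X) :
    ((SC X).d (n + 1) n).hom ((toSC (n + 1)).hom c) = (toSC n).hom (bd n X c) :=
  congrArg (fun f => f.hom c) (toSC_d (X := X) n)

/-- torsion in homology from chains -/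
lemma tors_homology {R : Type} [Ring R] (K : ChainComplex (ModuleCat.{0} R) ℕ) (n : ℕ)
    (z : K.X (n + 1))
    (hz : (K.d (n + 1) n).hom z = 0) (h2 : ∃ y, (K.d (n + 2) (n + 1)).hom y = z + z)
    (hn : ¬ ∃ y, (K.d (n + 2) (n + 1)).hom y = z) :
    ∃ a : K.homology (n + 1), a ≠ 0 ∧ a + a = 0 := by
  have e : K.homology (n + 1) ≅ (K.sc' (n + 2) (n + 1) n).moduleCatLeftHomologyData.H :=
    ShortComplex.homologyMapIso (K.isoSc' (n + 2) (n + 1) n (by simp) (by simp)) ≪≫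
      (K.sc' (n + 2) (n + 1) n).moduleCatHomologyIso
  let a' : (K.sc' (n + 2) (n + 1) n).moduleCatLeftHomologyData.H :=
    (LinearMap.range (K.sc' (n + 2) (n + 1) n).moduleCatToCycles).mkQ ⟨z, hz⟩
  have ha' : a' ≠ 0 := by
    intro h
    have h1 : (⟨z, hz⟩ : LinearMap.ker (K.sc' (n + 2) (n + 1) n).g.hom) ∈
        LinearMap.range (K.sc' (n + 2) (n + 1) n).moduleCatToCycles := by
      rw [← Submodule.Quotient.mk_eq_zero]
      exact h
    obtain ⟨y, hy⟩ := h1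
    exact hn ⟨y, congrArg Subtype.val hy⟩
  have ha2 : a' + a' = 0 := by
    obtain ⟨y, hy⟩ := h2
    refine (Submodule.Quotient.mk_eq_zero
      (LinearMap.range (K.sc' (n + 2) (n + 1) n).moduleCatToCycles)
      (x := ⟨z, hz⟩ + ⟨z, hz⟩)).2 ⟨y, Subtype.ext ?_⟩
    exact hy
  refine ⟨e.inv.hom a', ?_, ?_⟩
  · intro h
    apply ha'
    have := congrArg e.hom.hom h
    rw [map_zero] at this
    rw [← this]
    exact (congrArg (fun f => f.hom a') e.inv_hom_id).symm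
  · rw [← map_add, ha2, map_zero]

lemma acyc_of_isZero (K : ChainComplex (ModuleCat.{0} ℤ) ℕ) (n : ℕ)
    (h : IsZero (K.homology (n + 1))) (z : K.X (n + 1)) (hz : (K.d (n + 1) n).hom z = 0) :
    ∃ y, (K.d (n + 2) (n + 1)).hom y = z := by
  have h1 := (HomologicalComplex.exactAt_iff_isZero_homology K (n + 1)).2 h
  rw [HomologicalComplex.exactAt_iff' K (n + 2) (n + 1) n (by simp) (by simp)] at h1
  exact (ShortComplex.moduleCat_exact_iff _).1 h1 z hz

/-- Torsion in the singular homology of Mathlib. -/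
theorem HasTors.homology {n : ℕ} (h : HasTors n X) :
    ∃ a : ((singularHomologyFunctor (ModuleCat.{0} ℤ) (n + 1)).obj (ModuleCat.of ℤ ℤ)).obj
      (TopCat.of X), a ≠ 0 ∧ a + a = 0 := by
  obtain ⟨z, hz, ⟨y, hy⟩, hn⟩ := h
  refine tors_homology (SC X) n ((toSC (n + 1)).hom z) ?_ ⟨(toSC (n + 2)).hom y, ?_⟩ ?_
  · rw [toSC_bd, hz, map_zero]
  · rw [toSC_bd, hy, two_smul, map_add]
  · rintro ⟨w, hw⟩
    refine hn ⟨(fromSC (n + 2)).hom w, ?_⟩
    have h1 := toSC_bd (n + 1) ((fromSC (n + 2)).hom w)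
    rw [from_to_apply, hw] at h1
    rw [← to_from_apply (n + 1) (bd (n + 1) X ((fromSC (n + 2)).hom w)), ← h1, to_from_apply]

theorem acyc_of_contractible [ContractibleSpace X] (n : ℕ) : Acyc n X := by
  have hZ : IsZero ((SC X).homology (n + 1)) := by
    obtain ⟨x, ⟨H⟩⟩ := id_nullhomotopic X
    let p : TopCat.of X ⟶ TopCat.of PUnit.{1} := TopCat.ofHom (ContinuousMap.const X PUnit.unit)
    let q : TopCat.of PUnit.{1} ⟶ TopCat.of X := TopCat.ofHom (ContinuousMap.const _ x)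
    let H' : TopCat.Homotopy (𝟙 (TopCat.of X)) (p ≫ q) := H
    have h1 := TopCat.Homotopy.congr_homologyMap_singularChainComplexFunctor
      (C := ModuleCat.{0} ℤ) H' (ModuleCat.of ℤ ℤ) (n + 1)
    rw [CategoryTheory.Functor.map_id, HomologicalComplex.homologyMap_id,
      CategoryTheory.Functor.map_comp, HomologicalComplex.homologyMap_comp] at h1
    have h2 : IsZero (((singularHomologyFunctor (ModuleCat.{0} ℤ) (n + 1)).obj
        (ModuleCat.of ℤ ℤ)).obj (TopCat.of PUnit.{1})) :=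
      isZero_singularHomologyFunctor_of_totallyDisconnectedSpace _ (n + 1) _ _ (by simp)
    rw [IsZero.iff_id_eq_zero]
    refine h1.trans ?_
    have h3 : HomologicalComplex.homologyMap (((singularChainComplexFunctor (ModuleCat.{0} ℤ)).obj
      (ModuleCat.of ℤ ℤ)).map p) (n + 1) = 0 := h2.eq_of_tgt _ _
    exact (congrArg (fun f => f ≫ _) h3).trans zero_comp
  intro z hz
  obtain ⟨y, hy⟩ := acyc_of_isZero (SC X) n hZ ((toSC (n + 1)).hom z) (by
    rw [toSC_bd, hz, map_zero])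
  refine ⟨(fromSC (n + 2)).hom y, ?_⟩
  have h1 := toSC_bd (n + 1) ((fromSC (n + 2)).hom y)
  rw [from_to_apply, hy] at h1
  rw [← to_from_apply (n + 1) (bd (n + 1) X ((fromSC (n + 2)).hom y)), ← h1, to_from_apply]

end Pool.Agent.H.MP_c8cff9_gt.H93
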