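import Pool.Agent.H.MP_c8cff9_gt.H93.FlowDef

/-!
# The chart and the vector field on `ℝ × ℝ × ℂ × F`
-/

set_option autoImplicit false

open Complex

namespace Pool.Agent.H.MP_c8cff9_gt.H93

/-- a square root -/
noncomputable def csq (z : ℂ) : ℂ := Complex.exp (Complex.log z / 2)

lemma csq_sq (z : ℂ) (hz : z ≠ 0) : csq z ^ 2 = z := by
  rw [csq, ← Complex.exp_nat_mul]
  rw [show ((2 : ℕ) : ℂ) * (Complex.log z / 2) = Complex.log z by push_cast; ring]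
  exact Complex.exp_log hz

lemma csq_re_pos (z : ℂ) (hz : z ∈ slitPlane) : 0 < (csq z).re := by
  rw [csq, Complex.exp_re]
  refine mul_pos (Real.exp_pos _) (Real.cos_pos_of_mem_Ioo ⟨?_, ?_⟩)
  · have := Complex.neg_pi_lt_log_im z
    simp only [div_ofNat_im]
    linarith
  · have h1 : (Complex.log z).im < Real.pi := by
      rw [Complex.log_im]
      exact lt_of_le_of_ne (Complex.arg_le_pi z) (Complex.mem_slitPlane_iff_arg.1 hz).1
    simp only [div_ofNat_im]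
    linarith

/-- uniqueness of the square root with positive real part -/
lemma csq_eq (z u : ℂ) (hz : z ≠ 0) (hz' : z ∈ slitPlane) (hu : u ^ 2 = z) (hu' : 0 < u.re) :
    csq z = u := by
  have h1 : csq z ^ 2 = u ^ 2 := by rw [csq_sq z hz, hu]
  rcases sq_eq_sq_iff_eq_or_eq_neg.1 h1 with h | h
  · exact h
  · exfalso
    have := csq_re_pos z hz'
    rw [h, neg_re] at this
    linarith

lemma hasDerivAt_csq (z : ℂ) (hz : z ∈ slitPlane) : HasDerivAt csq (1 / (2 * csq z)) z := by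
  have h1 := ((Complex.hasDerivAt_log hz).div_const 2).cexp
  refine h1.congr_deriv ?_
  have h0 : z ≠ 0 := Complex.slitPlane_ne_zero hz
  have h2 := csq_sq z h0
  have h3 : csq z ≠ 0 := by
    intro h
    rw [h] at h2
    exact h0 (by rw [← h2]; norm_num)
  change csq z * (z⁻¹ / 2) = 1 / (2 * csq z)
  field_simp
  exact h2

section

variable {F : Type} [NormedAddCommGroup F] [NormedSpace ℝ F] (d : Dat F)

/-- The point `x + i e^y` of the upper half plane. -/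
noncomputable def xi (x y : ℝ) : ℂ := ⟨x, Real.exp y⟩

/-- The chart `ℝ × ℝ × ℂ × F → U`. -/
noncomputable def Dat.ch (p : ℝ × ℝ × ℂ × F) : ℂ × ℂ × F :=
  ((d.C p.2.2.1 p.2.2.2 : ℂ) + xi p.1 p.2.1 ^ 2, p.2.2.1, p.2.2.2)

/-- The inverse upper-half-plane coordinate. -/
noncomputable def Dat.rt (q : ℂ × ℂ × F) : ℂ := I * csq ((d.C q.2.1 q.2.2 : ℂ) - q.1)

/-- The inverse chart. -/
noncomputable def Dat.uch (q : ℂ × ℂ × F) : ℝ × ℝ × ℂ × F :=
  ((d.rt q).re, Real.log (d.rt q).im, q.2.1, q.2.2)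

lemma neg_sq_mem_slitPlane (v : ℂ) (hv : 0 < v.im) : -v ^ 2 ∈ slitPlane := by
  rw [Complex.mem_slitPlane_iff]
  rw [pow_two, neg_re, neg_im, mul_re, mul_im]
  by_cases h : v.re = 0
  · left
    rw [h]
    nlinarith
  · right
    intro h2
    have : v.re * v.im = 0 := by linarith
    rcases mul_eq_zero.1 this with h3 | h3
    · exact h h3
    · exact hv.ne' h3

lemma Dat.ch_mem (p : ℝ × ℝ × ℂ × F) : d.ch p ∈ d.U := by
  rintro ⟨h1, h2⟩
  simp only [Dat.ch] at h1 h2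
  have hv : 0 < (xi p.1 p.2.1).im := Real.exp_pos _
  have h3 := neg_sq_mem_slitPlane _ hv
  rw [Complex.mem_slitPlane_iff] at h3
  rw [add_im, ofReal_im, zero_add] at h1
  rw [add_re, ofReal_re] at h2
  rcases h3 with h3 | h3
  · rw [neg_re] at h3
    linarith
  · rw [neg_im, h1, neg_zero] at h3
    exact h3 rfl

lemma Dat.sub_mem_slit (q : ℂ × ℂ × F) (hq : q ∈ d.U) :
    ((d.C q.2.1 q.2.2 : ℂ) - q.1) ∈ slitPlane := by
  rw [Complex.mem_slitPlane_iff]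
  by_contra h
  push Not at h
  rw [sub_re, sub_im, ofReal_re, ofReal_im] at h
  refine hq ⟨by linarith [h.2], by linarith [h.1]⟩

lemma Dat.rt_im_pos (q : ℂ × ℂ × F) (hq : q ∈ d.U) : 0 < (d.rt q).im := by
  have := csq_re_pos _ (d.sub_mem_slit q hq)
  simpa [Dat.rt] using this

lemma Dat.rt_sq (q : ℂ × ℂ × F) (hq : q ∈ d.U) :
    (d.rt q) ^ 2 = q.1 - (d.C q.2.1 q.2.2 : ℂ) := by
  rw [Dat.rt, mul_pow, csq_sq _ (Complex.slitPlane_ne_zero (d.sub_mem_slit q hq)), Complex.I_sq]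
  ring

lemma Dat.xi_uch (q : ℂ × ℂ × F) (hq : q ∈ d.U) : xi (d.uch q).1 (d.uch q).2.1 = d.rt q := by
  simp only [xi, Dat.uch]
  rw [Real.exp_log (d.rt_im_pos q hq)]

lemma Dat.ch_uch (q : ℂ × ℂ × F) (hq : q ∈ d.U) : d.ch (d.uch q) = q := by
  have h := d.xi_uch q hq
  rw [Dat.ch, h, d.rt_sq q hq]
  simp [Dat.uch]

lemma Dat.rt_ch (p : ℝ × ℝ × ℂ × F) : d.rt (d.ch p) = xi p.1 p.2.1 := by
  have hv : 0 < (xi p.1 p.2.1).im := Real.exp_pos _
  have h1 := neg_sq_mem_slitPlane _ hv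
  have h2 : ((d.C (d.ch p).2.1 (d.ch p).2.2 : ℂ) - (d.ch p).1) = -(xi p.1 p.2.1) ^ 2 := by
    simp [Dat.ch]
  rw [Dat.rt, h2, csq_eq _ (-I * xi p.1 p.2.1) (Complex.slitPlane_ne_zero h1) h1]
  · rw [← mul_assoc, mul_neg, Complex.I_mul_I]; ring
  · rw [mul_pow, neg_sq, Complex.I_sq]; ring
  · simpa using hv

lemma Dat.uch_ch (p : ℝ × ℝ × ℂ × F) : d.uch (d.ch p) = p := by
  rw [Dat.uch, d.rt_ch p]
  simp [xi, Dat.ch]

lemma Dat.continuous_ch : Continuous d.ch := by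
  unfold Dat.ch
  have hC : Continuous fun x : ℝ × ℝ × ℂ × F => d.C x.2.2.1 x.2.2.2 :=
    d.continuous_C.comp (by fun_prop)
  have hx : Continuous fun x : ℝ × ℝ × ℂ × F => xi x.1 x.2.1 := by
    have : (fun x : ℝ × ℝ × ℂ × F => xi x.1 x.2.1) =
        fun x => (x.1 : ℂ) + (Real.exp x.2.1 : ℂ) * I := by
      ext x
      apply Complex.ext
      · simp [xi]
      · simp only [xi, add_im, ofReal_im, mul_im, ofReal_re, I_im, I_re]
        ring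
    rw [this]
    fun_prop
  exact ((Complex.continuous_ofReal.comp hC).add (hx.pow 2)).prodMk (by fun_prop)

lemma Dat.continuousAt_rt (q : ℂ × ℂ × F) (hq : q ∈ d.U) : ContinuousAt d.rt q := by
  unfold Dat.rt
  have hC : Continuous fun x : ℂ × ℂ × F => ((d.C x.2.1 x.2.2 : ℂ) - x.1) :=
    (Complex.continuous_ofReal.comp (d.continuous_C.comp (by fun_prop))).sub continuous_fst
  have h1 : ContinuousAt csq ((d.C q.2.1 q.2.2 : ℂ) - q.1) :=
    (hasDerivAt_csq _ (d.sub_mem_slit q hq)).continuousAt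
  exact continuousAt_const.mul (ContinuousAt.comp (f := fun x : ℂ × ℂ × F =>
    ((d.C x.2.1 x.2.2 : ℂ) - x.1)) (g := csq) h1 hC.continuousAt)

lemma Dat.continuousAt_uch (q : ℂ × ℂ × F) (hq : q ∈ d.U) : ContinuousAt d.uch q := by
  unfold Dat.uch
  have h1 := d.continuousAt_rt q hq
  refine (Complex.continuous_re.continuousAt.comp h1).prodMk (ContinuousAt.prodMk ?_ ?_)
  · exact (Complex.continuous_im.continuousAt.comp h1).log (d.rt_im_pos q hq).ne'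
  · exact (by fun_prop : Continuous fun q : ℂ × ℂ × F => (q.2.1, q.2.2)).continuousAt

/-- The flow on `ℝ × ℝ × ℂ × F`. -/
noncomputable def Dat.ph (t : ℝ) (p : ℝ × ℝ × ℂ × F) : ℝ × ℝ × ℂ × F := d.uch (d.T t (d.ch p))

lemma Dat.ch_ph (t : ℝ) (p : ℝ × ℝ × ℂ × F) : d.ch (d.ph t p) = d.T t (d.ch p) :=
  d.ch_uch _ (d.T_mem t _ (d.ch_mem p))

lemma Dat.ph_zero (p : ℝ × ℝ × ℂ × F) : d.ph 0 p = p := by
  rw [Dat.ph, d.T_zero, d.uch_ch]

lemma Dat.ph_add (s t : ℝ) (p : ℝ × ℝ × ℂ × F) : d.ph (s + t) p = d.ph s (d.ph t p) := by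
  rw [Dat.ph, d.T_add s t _ (d.ch_mem p), ← d.ch_ph t p]
  rfl

lemma Dat.continuous_ph : Continuous fun x : ℝ × (ℝ × ℝ × ℂ × F) => d.ph x.1 x.2 := by
  rw [continuous_iff_continuousAt]
  rintro ⟨t, p⟩
  have h1 : ContinuousAt (fun x : ℝ × (ℝ × ℝ × ℂ × F) => d.T x.1 (d.ch x.2)) (t, p) := by
    refine ContinuousAt.comp (f := fun x : ℝ × (ℝ × ℝ × ℂ × F) => (x.1, d.ch x.2))
      (g := fun x : ℝ × ℂ × ℂ × F => d.T x.1 x.2) (d.continuousAt_T t _ (d.ch_mem p)) ?_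
    exact (continuous_fst.prodMk (d.continuous_ch.comp continuous_snd)).continuousAt
  exact ContinuousAt.comp (f := fun x : ℝ × (ℝ × ℝ × ℂ × F) => d.T x.1 (d.ch x.2))
      (g := d.uch) (d.continuousAt_uch _ (d.T_mem t _ (d.ch_mem p))) h1

/-- The vector field on `ℝ × ℝ × ℂ × F`. -/
noncomputable def Dat.vf (p : ℝ × ℝ × ℂ × F) : ℝ × ℝ × ℂ × F :=
  let z : ℂ := (d.ch p).1
  let f : ℝ := aF z (d.C p.2.2.1 p.2.2.2) - z.re
  let v : ℂ := I * (f : ℂ) * z / (2 * xi p.1 p.2.1)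
  (v.re, Real.exp (-p.2.1) * v.im, I * (f : ℂ) * p.2.2.1, 0)

lemma Dat.hasDerivAt_ph_zero (p : ℝ × ℝ × ℂ × F) :
    HasDerivAt (fun t => d.ph t p) (d.vf p) 0 := by
  have hm := d.ch_mem p
  set q := d.ch p with hq
  set C : ℝ := d.C q.2.1 q.2.2 with hC
  have hCt : ∀ t, d.C (d.T t q).2.1 (d.T t q).2.2 = C := fun t => d.C_T t q hm
  have hE := hasDerivAt_EE_zero q.1 C (d.C_nonneg _ _) hm
  -- derivative of the root coordinate
  have hxi : 0 < (xi p.1 p.2.1).im := Real.exp_pos _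
  have hxi0 : xi p.1 p.2.1 ≠ 0 := by
    intro h
    rw [h] at hxi
    simp at hxi
  have hrt0 : d.rt q = xi p.1 p.2.1 := d.rt_ch p
  have hcs : csq ((C : ℂ) - q.1) = -I * xi p.1 p.2.1 := by
    have : I * csq ((C : ℂ) - q.1) = xi p.1 p.2.1 := hrt0
    rw [← this, ← mul_assoc, neg_mul, Complex.I_mul_I]
    ring
  have hr : HasDerivAt (fun t => d.rt (d.T t q))
      (I * ((aF q.1 C - q.1.re : ℝ) : ℂ) * q.1 / (2 * xi p.1 p.2.1)) 0 := by
    have h1 : (fun t => d.rt (d.T t q)) = fun t => I * csq ((C : ℂ) - EE t q.1 C * q.1) := by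
      ext t
      rw [Dat.rt, hCt t]
      rfl
    rw [h1]
    have h2 : HasDerivAt (fun t => (C : ℂ) - EE t q.1 C * q.1)
        (-(I * ((aF q.1 C - q.1.re : ℝ) : ℂ) * q.1)) 0 := (hE.mul_const q.1).const_sub _
    have h3 : HasDerivAt csq (1 / (2 * csq ((C : ℂ) - EE 0 q.1 C * q.1)))
        ((C : ℂ) - EE 0 q.1 C * q.1) := by
      refine hasDerivAt_csq _ ?_
      rw [EE_zero, one_mul]
      exact d.sub_mem_slit q hm
    have h4 := HasDerivAt.comp (0 : ℝ) h3 h2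
    refine (h4.const_mul I).congr_deriv ?_
    rw [EE_zero, one_mul, hcs]
    field_simp
  have hTz : d.T 0 q = q := d.T_zero q
  have hre : HasDerivAt (fun t => (d.rt (d.T t q)).re)
      (I * ((aF q.1 C - q.1.re : ℝ) : ℂ) * q.1 / (2 * xi p.1 p.2.1)).re 0 :=
    (Complex.reCLM.hasFDerivAt.comp_hasDerivAt (0 : ℝ) hr)
  have him : HasDerivAt (fun t => (d.rt (d.T t q)).im)
      (I * ((aF q.1 C - q.1.re : ℝ) : ℂ) * q.1 / (2 * xi p.1 p.2.1)).im 0 :=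
    (Complex.imCLM.hasFDerivAt.comp_hasDerivAt (0 : ℝ) hr)
  have hlog := him.log (by rw [hTz, hrt0]; exact hxi.ne')
  have hw : HasDerivAt (fun t => EE t q.1 C * q.2.1)
      (I * ((aF q.1 C - q.1.re : ℝ) : ℂ) * q.2.1) 0 := hE.mul_const q.2.1
  have hg : HasDerivAt (fun _ : ℝ => q.2.2) 0 0 := hasDerivAt_const _ _
  have hall := hre.prodMk (hlog.prodMk (hw.prodMk hg))
  refine hall.congr_deriv ?_
  rw [hTz, hrt0]
  have hxim : (xi p.1 p.2.1).im = Real.exp p.2.1 := rfl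
  simp only [Dat.vf]
  refine Prod.ext rfl (Prod.ext ?_ rfl)
  rw [hxim, Real.exp_neg]
  simp only [div_eq_mul_inv]
  rw [mul_comm]
  rfl

/-- The flow integrates the vector field. -/
lemma Dat.hasDerivAt_ph (p : ℝ × ℝ × ℂ × F) (t : ℝ) :
    HasDerivAt (fun t => d.ph t p) (d.vf (d.ph t p)) t := by
  have h1 := d.hasDerivAt_ph_zero (d.ph t p)
  have h2 : HasDerivAt (fun s : ℝ => s - t) 1 t := (hasDerivAt_id t).sub_const t
  have h3 := HasDerivAt.scomp_of_eq (x := t) (h := fun s : ℝ => s - t) h1 h2 (by simp)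
  rw [one_smul] at h3
  have h4 : ((fun s => d.ph s (d.ph t p)) ∘ fun s : ℝ => s - t) = fun s => d.ph s p := by
    ext1 s
    simp only [Function.comp]
    rw [← d.ph_add, sub_add_cancel]
  rw [h4] at h3
  exact h3

lemma contDiffAt_aF (z : ℂ) (C : ℝ) (hC : 0 ≤ C) (h : ¬ (z.im = 0 ∧ C ≤ z.re)) :
    ContDiffAt ℝ (⊤ : ℕ∞) (fun p : ℂ × ℝ => aF p.1 p.2) (z, C) := by
  unfold aF
  refine ContDiffAt.sqrt ?_ ?_
  · have h1 : ContDiff ℝ (⊤ : ℕ∞) fun p : ℂ × ℝ => ‖p.1‖ ^ 2 := contDiff_fst.norm_sq ℝ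
    have h2 : ContDiff ℝ (⊤ : ℕ∞) fun p : ℂ × ℝ => expNegInvGlue (p.2 ^ 2 - ‖p.1‖ ^ 2) :=
      expNegInvGlue.contDiff.comp ((contDiff_snd.pow 2).sub h1)
    exact (h1.add h2).contDiffAt
  · intro h0
    have h1 : aF z C = 0 := by rw [aF, h0, Real.sqrt_zero]
    have h2 := speed_pos z C hC h
    rw [h1, zero_sub, neg_pos] at h2
    have h3 := aF_sq z C
    rw [h1] at h3
    have h4 := expNegInvGlue.nonneg (C ^ 2 - ‖z‖ ^ 2)
    rw [norm_sq_re_im] at h3 h4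
    nlinarith [sq_nonneg z.im]

lemma Dat.contDiff_C : ContDiff ℝ (⊤ : ℕ∞) fun p : ℂ × F => d.C p.1 p.2 := by
  unfold Dat.C
  have h1 : ContDiff ℝ (⊤ : ℕ∞) fun p : ℂ × F => ‖p.1‖ ^ 2 := contDiff_fst.norm_sq ℝ
  exact d.smooth.comp (h1.neg.prodMk contDiff_snd)

lemma contDiff_xi : ContDiff ℝ (⊤ : ℕ∞) fun x : ℝ × ℝ => xi x.1 x.2 := by
  have : (fun x : ℝ × ℝ => xi x.1 x.2) = fun x => (x.1 : ℂ) + (Real.exp x.2 : ℂ) * I := by
    ext x
    apply Complex.ext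
    · simp [xi]
    · simp only [xi, add_im, ofReal_im, mul_im, ofReal_re, I_im, I_re]
      ring
  rw [this]
  have h1 : ContDiff ℝ (⊤ : ℕ∞) fun x : ℝ × ℝ => (x.1 : ℂ) :=
    Complex.ofRealCLM.contDiff.comp contDiff_fst
  have h2 : ContDiff ℝ (⊤ : ℕ∞) fun x : ℝ × ℝ => (Real.exp x.2 : ℂ) :=
    Complex.ofRealCLM.contDiff.comp (Real.contDiff_exp.comp contDiff_snd)
  exact h1.add (h2.mul contDiff_const)

/-- The vector field is smooth. -/
lemma Dat.contDiff_vf : ContDiff ℝ (⊤ : ℕ∞) d.vf := by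
  have hC : ContDiff ℝ (⊤ : ℕ∞) fun p : ℝ × ℝ × ℂ × F => d.C p.2.2.1 p.2.2.2 :=
    d.contDiff_C.comp (g := fun p : ℂ × F => d.C p.1 p.2)
      (f := fun p : ℝ × ℝ × ℂ × F => (p.2.2.1, p.2.2.2)) (by fun_prop)
  have hx : ContDiff ℝ (⊤ : ℕ∞) fun p : ℝ × ℝ × ℂ × F => xi p.1 p.2.1 :=
    contDiff_xi.comp (f := fun p : ℝ × ℝ × ℂ × F => (p.1, p.2.1)) (by fun_prop)
  have hz : ContDiff ℝ (⊤ : ℕ∞) fun p : ℝ × ℝ × ℂ × F => (d.ch p).1 := by
    unfold Dat.ch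
    exact (Complex.ofRealCLM.contDiff.comp hC).add (hx.pow 2)
  have ha : ContDiff ℝ (⊤ : ℕ∞) fun p : ℝ × ℝ × ℂ × F => aF (d.ch p).1 (d.C p.2.2.1 p.2.2.2) := by
    rw [contDiff_iff_contDiffAt]
    intro p
    have h1 := contDiffAt_aF (d.ch p).1 (d.C p.2.2.1 p.2.2.2) (d.C_nonneg _ _) (d.ch_mem p)
    exact ContDiffAt.comp (f := fun p : ℝ × ℝ × ℂ × F => ((d.ch p).1, d.C p.2.2.1 p.2.2.2))
      (g := fun p : ℂ × ℝ => aF p.1 p.2) p h1 (hz.prodMk hC).contDiffAt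
  have hf : ContDiff ℝ (⊤ : ℕ∞) fun p : ℝ × ℝ × ℂ × F =>
      aF (d.ch p).1 (d.C p.2.2.1 p.2.2.2) - (d.ch p).1.re :=
    ha.sub (Complex.reCLM.contDiff.comp hz)
  have hf' : ContDiff ℝ (⊤ : ℕ∞) fun p : ℝ × ℝ × ℂ × F =>
      ((aF (d.ch p).1 (d.C p.2.2.1 p.2.2.2) - (d.ch p).1.re : ℝ) : ℂ) :=
    Complex.ofRealCLM.contDiff.comp hf
  have hxi0 : ∀ p : ℝ × ℝ × ℂ × F, 2 * xi p.1 p.2.1 ≠ 0 := by
    intro p h
    have h1 : xi p.1 p.2.1 = 0 := by simpa using h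
    have h2 : (0 : ℝ) < (xi p.1 p.2.1).im := Real.exp_pos _
    rw [h1] at h2
    simp at h2
  have hv : ContDiff ℝ (⊤ : ℕ∞) fun p : ℝ × ℝ × ℂ × F =>
      I * ((aF (d.ch p).1 (d.C p.2.2.1 p.2.2.2) - (d.ch p).1.re : ℝ) : ℂ) * (d.ch p).1 /
        (2 * xi p.1 p.2.1) := by
    simp only [div_eq_mul_inv]
    exact ((contDiff_const.mul hf').mul hz).mul ((contDiff_const.mul hx).inv hxi0)
  have he : ContDiff ℝ (⊤ : ℕ∞) fun p : ℝ × ℝ × ℂ × F => Real.exp (-p.2.1) := by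
    fun_prop
  have hw : ContDiff ℝ (⊤ : ℕ∞) fun p : ℝ × ℝ × ℂ × F => p.2.2.1 := by fun_prop
  exact (Complex.reCLM.contDiff.comp hv).prodMk ((he.mul (Complex.imCLM.contDiff.comp hv)).prodMk
    (((contDiff_const.mul hf').mul hw).prodMk contDiff_const))

end

end Pool.Agent.H.MP_c8cff9_gt.H93
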