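import Mathlib

/-!
# Flows, orbit spaces and integral homology: the vocabulary of the statement
-/

set_option autoImplicit false

open CategoryTheory

namespace Pool.Agent.H.MP_c8cff9_gt.H93

/-- The equivalence relation whose classes are the orbits of the flow `φ`. -/
def orbitSetoid {X : Type} [TopologicalSpace X] (φ : Flow ℝ X) : Setoid X where
  r x y := ∃ t : ℝ, φ t x = y
  iseqv :=
    { refl := fun x => ⟨0, φ.map_zero_apply x⟩
      symm := by
        rintro x y ⟨t, rfl⟩
        exact ⟨-t, by rw [← φ.map_add, neg_add_cancel, φ.map_zero_apply]⟩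
      trans := by
        rintro x y z ⟨t, rfl⟩ ⟨s, rfl⟩
        exact ⟨s + t, φ.map_add s t x⟩ }

/-- The orbit space of a flow, with the quotient topology. -/
abbrev OrbitSpace {X : Type} [TopologicalSpace X] (φ : Flow ℝ X) : Type :=
  Quotient (orbitSetoid φ)

/-- `φ` is the flow of the smooth vector field `V` (which is therefore complete). -/
def IsFlowOf {E : Type} [NormedAddCommGroup E] [NormedSpace ℝ E] (V : E → E) (φ : Flow ℝ E) :
    Prop :=
  ContDiff ℝ (⊤ : ℕ∞) V ∧ ∀ (t : ℝ) (x : E), HasDerivAt (fun s => φ s x) (V (φ t x)) t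

/-- Euclidean `n`-space. -/
abbrev Rn (n : ℕ) : Type := EuclideanSpace ℝ (Fin n)

/-- `X` is a Hausdorff, second countable `n`-manifold. -/
def IsManifoldOfDim (n : ℕ) (X : Type) [TopologicalSpace X] : Prop :=
  T2Space X ∧ SecondCountableTopology X ∧ Nonempty (ChartedSpace (Rn n) X)

/-- The derivative of `f` is onto at every point. -/
def IsSubm {m n : ℕ} (f : Rn m → Rn n) : Prop :=
  ∀ x, Function.Surjective (fderiv ℝ f x)

/-- The orbit space of `φ` is an open subset of `ℝ^n` such that the quotient map is a smooth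
submersion. -/
def IsSmoothQuotient {m : ℕ} (n : ℕ) (φ : Flow ℝ (Rn m)) : Prop :=
  ∃ j : OrbitSpace φ → Rn n, Topology.IsOpenEmbedding j ∧
    ContDiff ℝ (⊤ : ℕ∞) (fun x : Rn m => j (Quotient.mk _ x)) ∧
    IsSubm (fun x : Rn m => j (Quotient.mk _ x))

/-- The integral singular homology group `H_k(X; ℤ)`. -/
noncomputable abbrev IntHomology (k : ℕ) (X : Type) [TopologicalSpace X] : ModuleCat.{0} ℤ :=
  ((AlgebraicTopology.singularHomologyFunctor (ModuleCat.{0} ℤ) k).obj (ModuleCat.of ℤ ℤ)).obj
    (TopCat.of X)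

/-- `H_k(X; ℤ)` contains a nonzero element `a` with `a + a = 0`. -/
def HasTwoTorsion (k : ℕ) (X : Type) [TopologicalSpace X] : Prop :=
  ∃ a : IntHomology k X, a ≠ 0 ∧ a + a = 0

end Pool.Agent.H.MP_c8cff9_gt.H93
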