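import Pool.Agent.H.MP_c8cff9_gt.H93.Orbit

/-!
# The projection is a smooth submersion
-/

set_option autoImplicit false

open Complex Filter Topology

namespace Pool.Agent.H.MP_c8cff9_gt.H93

section

variable {F : Type} [NormedAddCommGroup F] [NormedSpace ℝ F] (d : Dat F)

lemma differentiable_conj' : Differentiable ℝ (fun z : ℂ => (starRingEnd ℂ) z) :=
  Complex.conjCLE.differentiable

lemma differentiableAt_rho (y : ℂ × ℝ × F) (hy : rho y ≠ 0) :
    DifferentiableAt ℝ (rho (F := F)) y := by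
  unfold rho
  refine DifferentiableAt.sqrt ?_ ?_
  · have h1 : Differentiable ℝ fun y : ℂ × ℝ × F => ‖y.1‖ ^ 2 :=
      (contDiff_fst.norm_sq ℝ (n := 1)).differentiable (by norm_num)
    exact ((by fun_prop : Differentiable ℝ fun y : ℂ × ℝ × F => y.2.1 ^ 2).add
      (h1.const_mul 4)) y
  · intro h
    apply hy
    unfold rho
    rw [h, Real.sqrt_zero]

lemma differentiableAt_sec1 (u : ℂ) (hu : ‖u‖ = 1) (y : ℂ × ℝ × F) (hy : 0 < rho y + y.2.1) :
    DifferentiableAt ℝ (sec1 (F := F) u) y := by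
  have hρ0 : rho y ≠ 0 := by
    intro h
    have := abs_le_rho y
    rw [h] at this hy
    have h2 := le_abs_self y.2.1
    linarith
  have hr : 0 < √((rho y + y.2.1) / 2) := Real.sqrt_pos.2 (by linarith)
  have hrc : ((√((rho y + y.2.1) / 2) : ℝ) : ℂ) ≠ 0 := by exact_mod_cast hr.ne'
  have hu0 : u ≠ 0 := by rintro rfl; simp at hu
  have hcu : (starRingEnd ℂ) u ≠ 0 := by simpa using hu0
  have hs : DifferentiableAt ℝ (fun y : ℂ × ℝ × F => y.2.1) y := by fun_prop
  have h0 : DifferentiableAt ℝ (fun y : ℂ × ℝ × F => √((rho y + y.2.1) / 2)) y := by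
    have h00 : DifferentiableAt ℝ (fun y : ℂ × ℝ × F => (rho y + y.2.1) / 2) y := by
      simp only [div_eq_mul_inv]
      exact ((differentiableAt_rho y hρ0).add hs).mul_const _
    exact h00.sqrt (by linarith)
  have h1 : DifferentiableAt ℝ (fun y : ℂ × ℝ × F => ((√((rho y + y.2.1) / 2) : ℝ) : ℂ)) y :=
    (Complex.ofRealCLM.differentiableAt (x := √((rho y + y.2.1) / 2))).comp y h0
  have h2 : DifferentiableAt ℝ (fun y : ℂ × ℝ × F => (starRingEnd ℂ) y.1) y :=
    (differentiable_conj'.comp differentiable_fst) y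
  unfold sec1
  simp only [div_eq_mul_inv _ (_ * (starRingEnd ℂ) u)]
  have h3 : DifferentiableAt ℝ (fun y : ℂ × ℝ × F =>
      (((√((rho y + y.2.1) / 2) : ℝ) : ℂ) * (starRingEnd ℂ) u)⁻¹) y :=
    (h1.mul_const _).inv (mul_ne_zero hrc hcu)
  exact (h1.mul_const _).prodMk ((h2.mul h3).prodMk (by fun_prop))

lemma differentiableAt_sec2 (u : ℂ) (hu : ‖u‖ = 1) (y : ℂ × ℝ × F) (hy : 0 < rho y - y.2.1) :
    DifferentiableAt ℝ (sec2 (F := F) u) y := by
  have hρ0 : rho y ≠ 0 := by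
    intro h
    have := abs_le_rho y
    rw [h] at this hy
    have h2 := neg_abs_le y.2.1
    linarith
  have hr : 0 < √((rho y - y.2.1) / 2) := Real.sqrt_pos.2 (by linarith)
  have hrc : ((√((rho y - y.2.1) / 2) : ℝ) : ℂ) ≠ 0 := by exact_mod_cast hr.ne'
  have hu0 : u ≠ 0 := by rintro rfl; simp at hu
  have hcu : (starRingEnd ℂ) u ≠ 0 := by simpa using hu0
  have hs : DifferentiableAt ℝ (fun y : ℂ × ℝ × F => y.2.1) y := by fun_prop
  have h0 : DifferentiableAt ℝ (fun y : ℂ × ℝ × F => √((rho y - y.2.1) / 2)) y := by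
    have h00 : DifferentiableAt ℝ (fun y : ℂ × ℝ × F => (rho y - y.2.1) / 2) y := by
      simp only [div_eq_mul_inv]
      exact ((differentiableAt_rho y hρ0).sub hs).mul_const _
    exact h00.sqrt (by linarith)
  have h1 : DifferentiableAt ℝ (fun y : ℂ × ℝ × F => ((√((rho y - y.2.1) / 2) : ℝ) : ℂ)) y :=
    (Complex.ofRealCLM.differentiableAt (x := √((rho y - y.2.1) / 2))).comp y h0
  unfold sec2
  simp only [div_eq_mul_inv _ (_ * (starRingEnd ℂ) u)]
  have h3 : DifferentiableAt ℝ (fun y : ℂ × ℝ × F =>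
      (((√((rho y - y.2.1) / 2) : ℝ) : ℂ) * (starRingEnd ℂ) u)⁻¹) y :=
    (h1.mul_const _).inv (mul_ne_zero hrc hcu)
  exact (differentiableAt_fst.mul h3).prodMk ((h1.mul_const _).prodMk (by fun_prop))

lemma Dat.differentiableAt_rt (q : ℂ × ℂ × F) (hq : q ∈ d.U) : DifferentiableAt ℝ d.rt q := by
  unfold Dat.rt
  have hC : Differentiable ℝ fun x : ℂ × ℂ × F => d.C x.2.1 x.2.2 :=
    (d.contDiff_C.comp (g := fun p : ℂ × F => d.C p.1 p.2)
      (f := fun p : ℂ × ℂ × F => (p.2.1, p.2.2)) (by fun_prop)).differentiable (by norm_num)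
  have hC' : DifferentiableAt ℝ (fun x : ℂ × ℂ × F => ((d.C x.2.1 x.2.2 : ℂ) - x.1)) q :=
    ((Complex.ofRealCLM.differentiable.comp hC).sub differentiable_fst) q
  have h1 : DifferentiableAt ℝ csq ((d.C q.2.1 q.2.2 : ℂ) - q.1) :=
    (hasDerivAt_csq _ (d.sub_mem_slit q hq)).differentiableAt.restrictScalars ℝ
  have h2 : DifferentiableAt ℝ (fun x : ℂ × ℂ × F => csq ((d.C x.2.1 x.2.2 : ℂ) - x.1)) q :=
    DifferentiableAt.comp (f := fun x : ℂ × ℂ × F => ((d.C x.2.1 x.2.2 : ℂ) - x.1)) (g := csq)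
      q h1 hC'
  exact h2.const_mul I

lemma Dat.differentiableAt_uch (q : ℂ × ℂ × F) (hq : q ∈ d.U) : DifferentiableAt ℝ d.uch q := by
  unfold Dat.uch
  have h1 := d.differentiableAt_rt q hq
  have hre : DifferentiableAt ℝ (fun q => (d.rt q).re) q :=
    (Complex.reCLM.differentiableAt (x := d.rt q)).comp q h1
  have him : DifferentiableAt ℝ (fun q => (d.rt q).im) q :=
    (Complex.imCLM.differentiableAt (x := d.rt q)).comp q h1
  exact hre.prodMk ((him.log (d.rt_im_pos q hq).ne').prodMk (by fun_prop))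

lemma contDiff_hopf : ContDiff ℝ (⊤ : ℕ∞) (hopf F) := by
  unfold hopf
  have h1 : ContDiff ℝ (⊤ : ℕ∞) fun p : ℂ × ℂ × F => (starRingEnd ℂ) p.2.1 :=
    Complex.conjCLE.contDiff.comp (by fun_prop)
  have h2 : ContDiff ℝ (⊤ : ℕ∞) fun p : ℂ × ℂ × F => ‖p.1‖ ^ 2 := contDiff_fst.norm_sq ℝ
  have h3 : ContDiff ℝ (⊤ : ℕ∞) fun p : ℂ × ℂ × F => ‖p.2.1‖ ^ 2 :=
    (contDiff_snd.fst).norm_sq ℝ
  exact (contDiff_fst.mul h1).prodMk ((h2.sub h3).prodMk (by fun_prop))

lemma Dat.contDiff_ch : ContDiff ℝ (⊤ : ℕ∞) d.ch := by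
  have hC : ContDiff ℝ (⊤ : ℕ∞) fun p : ℝ × ℝ × ℂ × F => d.C p.2.2.1 p.2.2.2 :=
    d.contDiff_C.comp (g := fun p : ℂ × F => d.C p.1 p.2)
      (f := fun p : ℝ × ℝ × ℂ × F => (p.2.2.1, p.2.2.2)) (by fun_prop)
  have hx : ContDiff ℝ (⊤ : ℕ∞) fun p : ℝ × ℝ × ℂ × F => xi p.1 p.2.1 :=
    contDiff_xi.comp (f := fun p : ℝ × ℝ × ℂ × F => (p.1, p.2.1)) (by fun_prop)
  unfold Dat.ch
  exact ((Complex.ofRealCLM.contDiff.comp hC).add (hx.pow 2)).prodMk (by fun_prop)

lemma Dat.contDiff_pr : ContDiff ℝ (⊤ : ℕ∞) d.pr := contDiff_hopf.comp d.contDiff_ch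

/-- The projection is a submersion. -/
lemma Dat.surjective_fderiv_pr (p : ℝ × ℝ × ℂ × F) : Function.Surjective (fderiv ℝ d.pr p) := by
  have hm := d.ch_mem p
  set q := d.ch p with hq
  have hpq : d.pr p = hopf F q := rfl
  have main : ∀ σ : ℂ × ℝ × F → ℂ × ℂ × F, DifferentiableAt ℝ σ (hopf F q) → σ (hopf F q) = q →
      (∀ᶠ y in 𝓝 (hopf F q), hopf F (σ y) = y) → Function.Surjective (fderiv ℝ d.pr p) := by
    intro σ h1 h2 h3
    have h5 : DifferentiableAt ℝ (fun y => d.uch (σ y)) (hopf F q) := by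
      refine DifferentiableAt.comp (f := σ) (g := d.uch) _ ?_ h1
      rw [h2]
      exact d.differentiableAt_uch q hm
    have h6 : d.uch (σ (hopf F q)) = p := by rw [h2, hq]; exact d.uch_ch p
    have h7 : ∀ᶠ y in 𝓝 (hopf F q), d.pr (d.uch (σ y)) = y := by
      have h4 : ∀ᶠ y in 𝓝 (hopf F q), σ y ∈ d.U := by
        refine h1.continuousAt.eventually_mem (d.isOpen_U.mem_nhds ?_)
        rw [h2]; exact hm
      filter_upwards [h3, h4] with y h5 h6
      rw [Dat.pr, d.ch_uch _ h6, h5]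
    have h8 : DifferentiableAt ℝ d.pr (d.uch (σ (hopf F q))) :=
      (d.contDiff_pr.differentiable (by norm_num)) _
    have h9 : fderiv ℝ (d.pr ∘ fun y => d.uch (σ y)) (hopf F q) =
        (fderiv ℝ d.pr (d.uch (σ (hopf F q)))).comp (fderiv ℝ (fun y => d.uch (σ y)) (hopf F q)) :=
      fderiv_comp _ h8 h5
    have h10 : fderiv ℝ (d.pr ∘ fun y => d.uch (σ y)) (hopf F q) =
        ContinuousLinearMap.id ℝ (ℂ × ℝ × F) := by
      have : (d.pr ∘ fun y => d.uch (σ y)) =ᶠ[𝓝 (hopf F q)] id := h7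
      rw [this.fderiv_eq, fderiv_id]
    rw [h6] at h9
    intro y
    refine ⟨fderiv ℝ (fun y => d.uch (σ y)) (hopf F q) y, ?_⟩
    have h11 := congrArg (fun f => f y) (h9.symm.trans h10)
    exact h11
  rcases d.ne_zero_of_mem q hm with h | h
  · have hu := norm_div_norm_self q.1 h
    have hpos : 0 < rho (hopf F q) + (hopf F q).2.1 := by
      rw [rho_hopf]
      have : 0 < ‖q.1‖ := norm_pos_iff.2 h
      simp only [hopf]
      nlinarith
    refine main (sec1 (q.1 / ‖q.1‖)) (differentiableAt_sec1 _ hu _ hpos) (sec1_hopf q h) ?_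
    have h1 : ∀ᶠ y in 𝓝 (hopf F q), 0 < rho y + y.2.1 :=
      (continuous_rho.add (by fun_prop)).continuousAt.eventually_const_lt hpos
    filter_upwards [h1] with y hy
    exact hopf_sec1 _ hu y hy
  · have hu := norm_div_norm_self q.2.1 h
    have hpos : 0 < rho (hopf F q) - (hopf F q).2.1 := by
      rw [rho_hopf]
      have : 0 < ‖q.2.1‖ := norm_pos_iff.2 h
      simp only [hopf]
      nlinarith
    refine main (sec2 (q.2.1 / ‖q.2.1‖)) (differentiableAt_sec2 _ hu _ hpos) (sec2_hopf q h) ?_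
    have h1 : ∀ᶠ y in 𝓝 (hopf F q), 0 < rho y - y.2.1 :=
      (continuous_rho.sub (by fun_prop)).continuousAt.eventually_const_lt hpos
    filter_upwards [h1] with y hy
    exact hopf_sec2 _ hu y hy

end

end Pool.Agent.H.MP_c8cff9_gt.H93
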