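import Pool.Agent.H.MP_c8cff9_gt.H93.Defs
import Pool.Agent.H.MP_c8cff9_gt.H93.Subm
import Pool.Agent.H.MP_c8cff9_gt.H93.Base2

/-!
# The flow on Euclidean space and its quotient
-/

set_option autoImplicit false

open Topology

namespace Pool.Agent.H.MP_c8cff9_gt.H93

/-- The data attached to the thickened projective plane. -/
lemma exists_dat (k : ℕ) : ∃ d : Dat (FF k), Function.support d.c = GG k := by
  obtain ⟨c, hs, hc, hr⟩ := (isOpen_GG k).exists_contDiff_support_eq (n := ⊤)
  have hpos : ∀ s g, 0 < s → c (s, g) ≠ 0 := by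
    intro s g h
    have : (s, g) ∈ Function.support c := by rw [hs]; exact Or.inl h
    exact this
  have hzero : ∀ g, c (0, g) = 0 := by
    intro g
    by_contra h
    have h1 : ((0 : ℝ), g) ∈ Function.support c := h
    rw [hs] at h1
    rcases h1 with h1 | h1
    · exact lt_irrefl _ h1
    · exact lt_irrefl _ (neg_of_mem_TT2 k _ h1)
  exact ⟨⟨c, hc, fun p => (hr ⟨p, rfl⟩).1, hzero, hpos⟩, hs⟩

/-- The double suspension sits inside the orbit space. -/
lemma hasTors_O (k : ℕ) (d : Dat (FF k)) (hd : Function.support d.c = GG k) :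
    HasTors 2 d.O := by
  have h1 := hasTors_Su (GG k) (isOpen_GG k) 0 (hasTors_GG k)
  have h2 := hasTors_Su (Su (GG k)) (isOpen_Su (GG k) (isOpen_GG k)) 1 h1
  have hc : ∀ p, d.c p ≠ 0 ↔ p ∈ GG k := by
    intro p
    rw [← hd]
    rfl
  have m1 : ∀ x : Su (Su (GG k)),
      ((⟨x.1.1, x.1.2.1⟩ : ℂ), x.1.2.2.1, x.1.2.2.2) ∈ d.O := by
    intro x
    rcases x.2 with h | h | h
    · left
      intro h0
      exact h (congrArg Complex.re h0)
    · left
      intro h0
      exact h (congrArg Complex.im h0)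
    · right
      exact (hc _).2 h
  have m2 : ∀ y : d.O, (y.1.1.re, y.1.1.im, y.1.2) ∈ Su (Su (GG k)) := by
    intro y
    rcases y.2 with h | h
    · by_cases h1 : y.1.1.re = 0
      · right
        left
        intro h2
        exact h (Complex.ext h1 h2)
      · left
        exact h1
    · right
      right
      exact (hc _).1 h
  refine h2.of_retract ⟨fun x => ⟨_, m1 x⟩, ?_⟩ ⟨fun y => ⟨_, m2 y⟩, ?_⟩ ?_
  · refine Continuous.subtype_mk ?_ _
    refine Continuous.prodMk ?_ (by fun_prop)
    exact Complex.equivRealProdCLM.symm.continuous.comp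
      (by fun_prop : Continuous fun x : Su (Su (GG k)) => (x.1.1, x.1.2.1))
  · refine Continuous.subtype_mk ?_ _
    exact (Complex.continuous_re.comp (by fun_prop)).prodMk
      ((Complex.continuous_im.comp (by fun_prop)).prodMk (by fun_prop))
  · apply ContinuousMap.ext
    intro x
    rfl

/-- The transported flow map. -/
noncomputable def epf {F E : Type} [NormedAddCommGroup F] [NormedSpace ℝ F]
    [NormedAddCommGroup E] [NormedSpace ℝ E] (d : Dat F) (L : E ≃L[ℝ] (ℝ × ℝ × ℂ × F))
    (t : ℝ) (x : E) : E := L.symm (d.ph t (L x))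

section
variable {F E : Type} [NormedAddCommGroup F] [NormedSpace ℝ F]
    [NormedAddCommGroup E] [NormedSpace ℝ E] (d : Dat F) (L : E ≃L[ℝ] (ℝ × ℝ × ℂ × F))

lemma L_epf (t : ℝ) (x : E) : L (epf d L t x) = d.ph t (L x) := by
  rw [epf, ContinuousLinearEquiv.apply_symm_apply]

lemma epf_add (s t : ℝ) (x : E) : epf d L (s + t) x = epf d L s (epf d L t x) := by
  rw [epf, d.ph_add, ← L_epf]
  rfl

lemma epf_zero (x : E) : epf d L 0 x = x := by
  rw [epf, d.ph_zero, ContinuousLinearEquiv.symm_apply_apply]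

lemma continuous_epf : Continuous (Function.uncurry (epf d L)) := by
  have h0 : Continuous fun x : ℝ × E => (x.1, L x.2) :=
    continuous_fst.prodMk (L.continuous.comp continuous_snd)
  have h : Continuous ((fun x : ℝ × (ℝ × ℝ × ℂ × F) => d.ph x.1 x.2) ∘
      fun x : ℝ × E => (x.1, L x.2)) := Continuous.comp d.continuous_ph h0
  have h2 : Continuous (L.symm ∘ ((fun x : ℝ × (ℝ × ℝ × ℂ × F) => d.ph x.1 x.2) ∘
      fun x : ℝ × E => (x.1, L x.2))) := Continuous.comp L.symm.continuous h
  exact h2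

/-- The flow transported to Euclidean space. -/
noncomputable def eflow : Flow ℝ E where
  toFun := epf d L
  cont' := continuous_epf d L
  map_add' := epf_add d L
  map_zero' := epf_zero d L

end

/-- The vector field transported to Euclidean space. -/
noncomputable def evf {F E : Type} [NormedAddCommGroup F] [NormedSpace ℝ F]
    [NormedAddCommGroup E] [NormedSpace ℝ E] (d : Dat F) (L : E ≃L[ℝ] (ℝ × ℝ × ℂ × F)) (x : E) :
    E := L.symm (d.vf (L x))

section
variable {F E E' : Type} [NormedAddCommGroup F] [NormedSpace ℝ F]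
    [NormedAddCommGroup E] [NormedSpace ℝ E] [NormedAddCommGroup E'] [NormedSpace ℝ E']
    (d : Dat F) (L : E ≃L[ℝ] (ℝ × ℝ × ℂ × F)) (M : (ℂ × ℝ × F) ≃L[ℝ] E')

lemma isFlowOf : IsFlowOf (evf d L) (eflow d L) := by
  refine ⟨?_, ?_⟩
  · exact L.symm.contDiff.comp (d.contDiff_vf.comp L.contDiff)
  · intro t x
    have h := d.hasDerivAt_ph (L x) t
    have h2 := (L.symm : (ℝ × ℝ × ℂ × F) →L[ℝ] E).hasFDerivAt.comp_hasDerivAt t h
    refine h2.congr_deriv ?_
    change _ = L.symm (d.vf (L (epf d L t x)))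
    rw [L_epf]
    rfl

/-- The coordinate on the orbit space. -/
noncomputable def jmap : OrbitSpace (eflow d L) → E' :=
  Quotient.lift (fun x => M (d.pr (L x))) (by
    rintro x y ⟨t, rfl⟩
    change M (d.pr (L x)) = M (d.pr (L (epf d L t x)))
    rw [L_epf, d.pr_ph])

lemma jmap_mk (x : E) : jmap d L M (Quotient.mk _ x) = M (d.pr (L x)) := rfl

lemma isOpenEmbedding_jmap : IsOpenEmbedding (jmap d L M) := by
  have hop : IsOpenMap fun x => M (d.pr (L x)) :=
    M.toHomeomorph.isOpenMap.comp (d.isOpenMap_pr.comp L.toHomeomorph.isOpenMap)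
  have hcont : Continuous fun x => M (d.pr (L x)) :=
    M.continuous.comp (d.continuous_pr.comp L.continuous)
  refine IsOpenEmbedding.of_continuous_injective_isOpenMap ?_ ?_ ?_
  · exact hcont.quotient_lift _
  · intro a b
    induction a using Quotient.inductionOn with
    | h x =>
      induction b using Quotient.inductionOn with
      | h y =>
        intro h
        rw [jmap_mk, jmap_mk] at h
        obtain ⟨t, ht⟩ := d.exists_ph_eq (L x) (L y) (M.injective h)
        refine Quotient.sound ⟨t, ?_⟩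
        change L.symm (d.ph t (L x)) = y
        rw [ht, ContinuousLinearEquiv.symm_apply_apply]
  · intro W hW
    have h1 : jmap d L M '' W = (fun x => M (d.pr (L x))) '' (Quotient.mk _ ⁻¹' W) := by
      ext y
      constructor
      · rintro ⟨a, ha, rfl⟩
        induction a using Quotient.inductionOn with
        | h x => exact ⟨x, ha, rfl⟩
      · rintro ⟨x, hx, rfl⟩
        exact ⟨_, hx, rfl⟩
    rw [h1]
    exact hop _ (hW.preimage continuous_quotient_mk')

lemma contDiff_jmap : ContDiff ℝ (⊤ : ℕ∞) fun x => jmap d L M (Quotient.mk _ x) :=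
  M.contDiff.comp (d.contDiff_pr.comp L.contDiff)

lemma surjective_jmap (x : E) :
    Function.Surjective (fderiv ℝ (fun x => jmap d L M (Quotient.mk _ x)) x) := by
  have h1 : (fun x => jmap d L M (Quotient.mk _ x)) = M ∘ (d.pr ∘ L) := rfl
  have h2 : DifferentiableAt ℝ (d.pr ∘ L) x :=
    ((d.contDiff_pr.differentiable (by norm_num)).comp L.differentiable) x
  rw [h1, ContinuousLinearEquiv.comp_fderiv, ContinuousLinearEquiv.comp_right_fderiv]
  intro y
  obtain ⟨v, hv⟩ := d.surjective_fderiv_pr (L x) (M.symm y)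
  refine ⟨L.symm v, ?_⟩
  change M (fderiv ℝ d.pr (L x) (L (L.symm v))) = y
  rw [ContinuousLinearEquiv.apply_symm_apply, hv, ContinuousLinearEquiv.apply_symm_apply]

/-- The torsion of the orbit space. -/
lemma hasTors_orbit {k : ℕ} (d : Dat (FF k)) (hd : Function.support d.c = GG k)
    (L : E ≃L[ℝ] (ℝ × ℝ × ℂ × FF k)) : HasTors 2 (OrbitSpace (eflow d L)) := by
  have hj := isOpenEmbedding_jmap d L (ContinuousLinearEquiv.refl ℝ (ℂ × ℝ × FF k))
  have hrange : Set.range (jmap d L (ContinuousLinearEquiv.refl ℝ (ℂ × ℝ × FF k))) = d.O := by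
    ext y
    constructor
    · rintro ⟨a, rfl⟩
      induction a using Quotient.inductionOn with
      | h x => exact d.pr_mem (L x)
    · intro hy
      obtain ⟨p, hp⟩ := d.exists_pr y hy
      refine ⟨Quotient.mk _ (L.symm p), ?_⟩
      rw [jmap_mk, ContinuousLinearEquiv.apply_symm_apply, hp]
      rfl
  let e : OrbitSpace (eflow d L) ≃ₜ d.O :=
    hj.isEmbedding.toHomeomorph.trans (Homeomorph.setCongr hrange)
  refine (hasTors_O k d hd).of_retract ⟨e.symm, e.symm.continuous⟩ ⟨e, e.continuous⟩ ?_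
  ext1 y
  exact e.apply_symm_apply y

end

/-- The main construction. -/
theorem main (n : ℕ) (hn : 6 ≤ n) :
    ∃ (V : Rn (n + 1) → Rn (n + 1)) (φ : Flow ℝ (Rn (n + 1))),
      IsFlowOf V φ ∧ IsManifoldOfDim n (OrbitSpace φ) ∧ IsSmoothQuotient n φ ∧
        HasTwoTorsion 3 (OrbitSpace φ) := by
  obtain ⟨k, rfl⟩ : ∃ k, n = k + 6 := ⟨n - 6, by omega⟩
  obtain ⟨d, hd⟩ := exists_dat k
  let L : EuclideanSpace ℝ (Fin (k + 6 + 1)) ≃L[ℝ] (ℝ × ℝ × ℂ × FF k) :=
    ContinuousLinearEquiv.ofFinrankEq (by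
      simp only [Module.finrank_prod, finrank_euclideanSpace_fin, Module.finrank_self,
        Complex.finrank_real_complex]
      omega)
  let M : (ℂ × ℝ × FF k) ≃L[ℝ] EuclideanSpace ℝ (Fin (k + 6)) :=
    ContinuousLinearEquiv.ofFinrankEq (by
      simp only [Module.finrank_prod, finrank_euclideanSpace_fin, Module.finrank_self,
        Complex.finrank_real_complex]
      omega)
  have hj := isOpenEmbedding_jmap d L M
  have hne : Nonempty (OrbitSpace (eflow d L)) := ⟨Quotient.mk _ 0⟩
  exact ⟨evf d L, eflow d L, isFlowOf d L, ⟨hj.isEmbedding.t2Space,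
    hj.isEmbedding.secondCountableTopology, ⟨hj.singletonChartedSpace⟩⟩,
    ⟨jmap d L M, hj, contDiff_jmap d L M, surjective_jmap d L M⟩, (hasTors_orbit d hd L).homology⟩

end Pool.Agent.H.MP_c8cff9_gt.H93
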