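import Mathlib

/-!
# The explicit Möbius-type flow on the circle
-/

set_option autoImplicit false

open Complex

namespace Pool.Agent.H.MP_c8cff9_gt.H93

/-- `cos (ω t / 2)` -/
noncomputable def kc (ω t : ℝ) : ℝ := Real.cos (ω * t / 2)

/-- `sin (ω t / 2) / (ω / 2)`, equal to `t` for `ω = 0` -/
noncomputable def ks (ω t : ℝ) : ℝ := t * Real.sinc (ω * t / 2)

lemma ks_mul (ω t : ℝ) : ω / 2 * ks ω t = Real.sin (ω * t / 2) := by
  unfold ks
  by_cases h : ω * t / 2 = 0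
  · rw [h, Real.sinc_zero, Real.sin_zero]
    linarith
  · rw [Real.sinc_of_ne_zero h]
    have h2 : ω / 2 * (t * (Real.sin (ω * t / 2) / (ω * t / 2))) =
        (ω * t / 2) * (Real.sin (ω * t / 2) / (ω * t / 2)) := by ring
    rw [h2, mul_div_cancel₀ _ h]

lemma ks_zero_left (t : ℝ) : ks 0 t = t := by simp [ks]

lemma ks_of_ne {ω : ℝ} (hω : ω ≠ 0) (t : ℝ) : ks ω t = 2 / ω * Real.sin (ω * t / 2) := by
  rw [← ks_mul]
  field_simp

lemma ks_zero_right (ω : ℝ) : ks ω 0 = 0 := by simp [ks]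
lemma kc_zero_right (ω : ℝ) : kc ω 0 = 1 := by simp [kc]
lemma kc_zero_left (t : ℝ) : kc 0 t = 1 := by simp [kc]

lemma kc_ks (ω t : ℝ) : kc ω t ^ 2 + ω ^ 2 / 4 * ks ω t ^ 2 = 1 := by
  have := ks_mul ω t
  have h2 : ω ^ 2 / 4 * ks ω t ^ 2 = (ω / 2 * ks ω t) ^ 2 := by ring
  rw [h2, this, kc]
  have := Real.sin_sq_add_cos_sq (ω * t / 2)
  linarith

lemma kc_add (ω s t : ℝ) : kc ω (s + t) = kc ω s * kc ω t - ω ^ 2 / 4 * ks ω s * ks ω t := by
  have h1 := ks_mul ω s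
  have h2 := ks_mul ω t
  have h3 : ω ^ 2 / 4 * ks ω s * ks ω t = (ω / 2 * ks ω s) * (ω / 2 * ks ω t) := by ring
  rw [h3, h1, h2, kc, kc, kc, ← Real.cos_add]
  congr 1
  ring

lemma ks_add (ω s t : ℝ) : ks ω (s + t) = ks ω s * kc ω t + kc ω s * ks ω t := by
  rcases eq_or_ne ω 0 with rfl | hω
  · simp [ks_zero_left, kc_zero_left]
  · rw [ks_of_ne hω, ks_of_ne hω, ks_of_ne hω, kc, kc]
    have : ω * (s + t) / 2 = ω * s / 2 + ω * t / 2 := by ring
    rw [this, Real.sin_add]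
    ring

lemma hasDerivAt_kc (ω t : ℝ) : HasDerivAt (kc ω) (-(ω ^ 2 / 4) * ks ω t) t := by
  have h1 : HasDerivAt (fun t : ℝ => ω * t / 2) (ω / 2) t := by
    have := ((hasDerivAt_id t).const_mul ω).div_const 2
    simpa using this
  have h2 := h1.cos
  have h3 : -Real.sin (ω * t / 2) * (ω / 2) = -(ω ^ 2 / 4) * ks ω t := by
    rw [← ks_mul]; ring
  rw [h3] at h2
  exact h2

lemma hasDerivAt_ks (ω t : ℝ) : HasDerivAt (ks ω) (kc ω t) t := by
  rcases eq_or_ne ω 0 with rfl | hω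
  · have : ks 0 = id := by ext t; rw [ks_zero_left]; rfl
    rw [this, kc_zero_left]
    exact hasDerivAt_id t
  · have h0 : ks ω = fun t => 2 / ω * Real.sin (ω * t / 2) := by
      ext t; exact ks_of_ne hω t
    rw [h0]
    have h1 : HasDerivAt (fun t : ℝ => ω * t / 2) (ω / 2) t := by
      have := ((hasDerivAt_id t).const_mul ω).div_const 2
      simpa using this
    have h2 := (h1.sin).const_mul (2 / ω)
    have h3 : 2 / ω * (Real.cos (ω * t / 2) * (ω / 2)) = kc ω t := by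
      rw [kc]; field_simp
    rw [h3] at h2
    exact h2

lemma continuous_kc : Continuous fun p : ℝ × ℝ => kc p.1 p.2 := by
  unfold kc
  fun_prop

lemma continuous_ks : Continuous fun p : ℝ × ℝ => ks p.1 p.2 := by
  unfold ks
  exact continuous_snd.mul (Real.continuous_sinc.comp
    ((continuous_fst.mul continuous_snd).div_const 2))

/-- The denominator of the flow. -/
noncomputable def dd (t a ω : ℝ) (z : ℂ) : ℂ :=
  (kc ω t : ℂ) - (I / 2) * (ks ω t : ℂ) * ((a : ℂ) - z)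

lemma dd_re (t a ω : ℝ) (z : ℂ) : (dd t a ω z).re = kc ω t - ks ω t * z.im / 2 := by
  simp [dd]
  ring

lemma dd_im (t a ω : ℝ) (z : ℂ) : (dd t a ω z).im = - ks ω t * (a - z.re) / 2 := by
  simp [dd]
  ring

lemma dd_zero (a ω : ℝ) (z : ℂ) : dd 0 a ω z = 1 := by
  simp [dd, kc_zero_right, ks_zero_right]

lemma dd_ne_zero (t a ω : ℝ) (z : ℂ) (hf : a - z.re ≠ 0) : dd t a ω z ≠ 0 := by
  intro h
  have h1 := dd_re t a ω z
  have h2 := dd_im t a ω z
  rw [h] at h1 h2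
  simp only [zero_re, zero_im] at h1 h2
  have h3 : ks ω t = 0 := by
    have : ks ω t * (a - z.re) = 0 := by linarith
    exact (mul_eq_zero.1 this).resolve_right hf
  have h4 := kc_ks ω t
  rw [h3] at h1 h4
  have : kc ω t = 0 := by linarith
  rw [this] at h4
  norm_num at h4

/-- The multiplier of the flow. -/
noncomputable def ee (t a ω : ℝ) (z : ℂ) : ℂ :=
  (starRingEnd ℂ) (dd t a ω z) / dd t a ω z

lemma ee_zero (a ω : ℝ) (z : ℂ) : ee 0 a ω z = 1 := by
  simp [ee, dd_zero]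

lemma norm_ee (t a ω : ℝ) (z : ℂ) (hf : a - z.re ≠ 0) : ‖ee t a ω z‖ = 1 := by
  rw [ee, norm_div, Complex.norm_conj, div_self]
  exact norm_ne_zero_iff.2 (dd_ne_zero t a ω z hf)

lemma ee_mul_dd (t a ω : ℝ) (z : ℂ) (hf : a - z.re ≠ 0) :
    ee t a ω z * dd t a ω z = (starRingEnd ℂ) (dd t a ω z) := by
  rw [ee, div_mul_cancel₀]
  exact dd_ne_zero t a ω z hf

/-- the key identity -/
lemma dd_key (t a ω : ℝ) (z : ℂ) (hω : ω ^ 2 = a ^ 2 - ‖z‖ ^ 2) :
    (a : ℂ) * dd t a ω z - z * (starRingEnd ℂ) (dd t a ω z) =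
      ((a : ℂ) - z) * (kc ω t : ℂ) - (I / 2) * (ks ω t : ℂ) * ((ω ^ 2 : ℝ) : ℂ) := by
  have hz : ‖z‖ ^ 2 = z.re ^ 2 + z.im ^ 2 := by
    rw [← Complex.normSq_eq_norm_sq, Complex.normSq_apply]; ring
  rw [hω, hz]
  apply Complex.ext
  · simp only [sub_re, mul_re, ofReal_re, ofReal_im, dd_re, dd_im, conj_re, conj_im, sub_im,
      mul_im, div_ofNat_re, div_ofNat_im, I_re, I_im]
    ring
  · simp only [sub_re, mul_re, ofReal_re, ofReal_im, dd_re, dd_im, conj_re, conj_im, sub_im,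
      mul_im, div_ofNat_re, div_ofNat_im, I_re, I_im]
    ring

/-- cocycle -/
lemma dd_add (s t a ω : ℝ) (z : ℂ) (hω : ω ^ 2 = a ^ 2 - ‖z‖ ^ 2) (hf : a - z.re ≠ 0) :
    dd (s + t) a ω z = dd s a ω (ee t a ω z * z) * dd t a ω z := by
  have h1 : dd s a ω (ee t a ω z * z) * dd t a ω z =
      (kc ω s : ℂ) * dd t a ω z - (I / 2) * (ks ω s : ℂ) *
        ((a : ℂ) * dd t a ω z - z * (starRingEnd ℂ) (dd t a ω z)) := by
    rw [← ee_mul_dd t a ω z hf]
    conv_lhs => rw [dd]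
    ring
  rw [h1, dd_key t a ω z hω, dd, dd, kc_add, ks_add]
  push_cast
  ring_nf
  rw [Complex.I_sq]
  ring

lemma ee_add (s t a ω : ℝ) (z : ℂ) (hω : ω ^ 2 = a ^ 2 - ‖z‖ ^ 2) (hf : a - z.re ≠ 0) :
    ee (s + t) a ω z = ee s a ω (ee t a ω z * z) * ee t a ω z := by
  rw [ee, dd_add s t a ω z hω hf, map_mul, ee, ee]
  rw [mul_div_mul_comm]

/-- positivity of the speed is preserved -/
lemma speed_ne (t a ω : ℝ) (z : ℂ) (hω : ω ^ 2 = a ^ 2 - ‖z‖ ^ 2) (hf : a - z.re ≠ 0) :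
    a - (ee t a ω z * z).re ≠ 0 := by
  intro h
  have h0 := dd_ne_zero t a ω z hf
  -- `(a - Re (E z)) |D|^2 = a - Re z`
  have key : (a - (ee t a ω z * z).re) * normSq (dd t a ω z) = a - z.re := by
    have h1 : (ee t a ω z * z).re * normSq (dd t a ω z) =
        (z * (starRingEnd ℂ) (dd t a ω z) ^ 2).re := by
      have : ((normSq (dd t a ω z) : ℝ) : ℂ) =
          (starRingEnd ℂ) (dd t a ω z) * dd t a ω z := by
        rw [mul_comm, Complex.mul_conj]
      have h2 : ee t a ω z * z * ((normSq (dd t a ω z) : ℝ) : ℂ) =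
          z * (starRingEnd ℂ) (dd t a ω z) ^ 2 := by
        rw [this]
        have := ee_mul_dd t a ω z hf
        calc ee t a ω z * z * ((starRingEnd ℂ) (dd t a ω z) * dd t a ω z)
            = (ee t a ω z * dd t a ω z) * z * (starRingEnd ℂ) (dd t a ω z) := by ring
          _ = _ := by rw [this]; ring
      rw [← h2, mul_comm _ ((normSq (dd t a ω z) : ℝ) : ℂ), Complex.re_ofReal_mul]
      ring
    rw [sub_mul, h1, Complex.normSq_apply]
    have hz : ‖z‖ ^ 2 = z.re ^ 2 + z.im ^ 2 := by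
      rw [← Complex.normSq_eq_norm_sq, Complex.normSq_apply]; ring
    rw [hz] at hω
    have h4 := kc_ks ω t
    simp only [pow_two, mul_re, mul_im, conj_re, conj_im, dd_re, dd_im]
    have e : ω ^ 2 * (ks ω t) ^ 2 = 4 - 4 * kc ω t ^ 2 := by linarith
    have e2 : (a ^ 2 - (z.re ^ 2 + z.im ^ 2)) * (ks ω t) ^ 2 = 4 - 4 * kc ω t ^ 2 := by
      rw [← hω]; exact e
    linear_combination ((a - z.re) / 4) * e2
  rw [h, zero_mul] at key
  exact hf key.symm

/-- the speed after time `t` -/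
lemma hasDerivAt_dd (t a ω : ℝ) (z : ℂ) (hω : ω ^ 2 = a ^ 2 - ‖z‖ ^ 2) :
    HasDerivAt (fun t => dd t a ω z)
      (-(I / 2) * ((a : ℂ) * dd t a ω z - z * (starRingEnd ℂ) (dd t a ω z))) t := by
  rw [dd_key t a ω z hω]
  have h1 := (hasDerivAt_kc ω t).ofReal_comp
  have h2 := (hasDerivAt_ks ω t).ofReal_comp
  have h3 := h1.sub ((h2.const_mul (I / 2)).mul_const ((a : ℂ) - z))
  refine h3.congr_deriv ?_
  push_cast
  ring_nf
  rw [Complex.I_sq]
  ring

lemma hasDerivAt_ee (t a ω : ℝ) (z : ℂ) (hω : ω ^ 2 = a ^ 2 - ‖z‖ ^ 2) (hf : a - z.re ≠ 0) :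
    HasDerivAt (fun t => ee t a ω z)
      (I * ((a - (ee t a ω z * z).re : ℝ) : ℂ) * ee t a ω z) t := by
  have h0 := dd_ne_zero t a ω z hf
  have h1 := hasDerivAt_dd t a ω z hω
  have h2 := h1.star
  have h3 := h2.div h1 h0
  have hn := norm_ee t a ω z hf
  have hE : (starRingEnd ℂ) (dd t a ω z) = ee t a ω z * dd t a ω z :=
    (ee_mul_dd t a ω z hf).symm
  have hcE : (starRingEnd ℂ) (ee t a ω z) * ee t a ω z = 1 := by
    rw [← Complex.normSq_eq_conj_mul_self, Complex.normSq_eq_norm_sq, hn]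
    norm_num
  have hre : ((a - (ee t a ω z * z).re : ℝ) : ℂ) = (a : ℂ) -
      ((starRingEnd ℂ) (ee t a ω z) * (starRingEnd ℂ) z + ee t a ω z * z) / 2 := by
    rw [ofReal_sub, Complex.re_eq_add_conj, map_mul]
    ring
  refine h3.congr_deriv ?_
  have e1 : star (-(I / 2) * ((a : ℂ) * dd t a ω z - z * (starRingEnd ℂ) (dd t a ω z))) =
      (I / 2) * ((a : ℂ) * (starRingEnd ℂ) (dd t a ω z) - (starRingEnd ℂ) z * dd t a ω z) := by
    change (starRingEnd ℂ) _ = _
    rw [map_mul, map_neg, map_div₀, Complex.conj_I, map_sub, map_mul, map_mul, Complex.conj_ofReal,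
      Complex.conj_conj, map_ofNat]
    ring
  have e2 : star (dd t a ω z) = ee t a ω z * dd t a ω z := hE
  rw [e1, e2, hE, hre]
  field_simp
  linear_combination (starRingEnd ℂ) z * hcE

/-- transitivity -/
lemma exists_ee_eq (a ω : ℝ) (z p : ℂ) (hω0 : 0 ≤ ω) (hω : ω ^ 2 = a ^ 2 - ‖z‖ ^ 2)
    (hf : 0 < a - z.re) (hp : ‖p‖ = 1) (hf' : 0 < a - (p * z).re) :
    ∃ t, ee t a ω z = p := by
  -- a square root of `p`
  obtain ⟨e, he⟩ : ∃ e : ℂ, e ^ 2 = p := IsAlgClosed.exists_pow_nat_eq p two_pos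
  have hen : normSq e = 1 := by
    have : ‖e‖ ^ 2 = 1 := by rw [← norm_pow, he, hp]
    rw [Complex.normSq_eq_norm_sq, this]
  -- it suffices that `e * dd` is real
  have suff : ∀ t, (e * dd t a ω z).im = 0 → ee t a ω z = p := by
    intro t ht
    have h0 := dd_ne_zero t a ω z hf.ne'
    have hc : (starRingEnd ℂ) (e * dd t a ω z) = e * dd t a ω z := Complex.conj_eq_iff_im.2 ht
    rw [ee, div_eq_iff h0, ← he]
    rw [map_mul] at hc
    have hce : (starRingEnd ℂ) e * e = 1 := by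
      rw [← Complex.normSq_eq_conj_mul_self, hen, ofReal_one]
    calc (starRingEnd ℂ) (dd t a ω z)
        = ((starRingEnd ℂ) e * e) * (starRingEnd ℂ) (dd t a ω z) := by rw [hce, one_mul]
      _ = e * ((starRingEnd ℂ) e * (starRingEnd ℂ) (dd t a ω z)) := by ring
      _ = e ^ 2 * dd t a ω z := by rw [hc]; ring
  set A : ℝ := e.im with hA
  set B : ℝ := e.re * (a - z.re) + e.im * z.im with hB
  have him : ∀ t, (e * dd t a ω z).im = A * kc ω t - ks ω t * B / 2 := by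
    intro t
    rw [Complex.mul_im, dd_re, dd_im, hA, hB]
    ring
  have hn1 : e.re ^ 2 + e.im ^ 2 = 1 := by
    rw [Complex.normSq_apply] at hen
    linarith
  have hz : ‖z‖ ^ 2 = z.re ^ 2 + z.im ^ 2 := by
    rw [← Complex.normSq_eq_norm_sq, Complex.normSq_apply]; ring
  rw [hz] at hω
  have hprod : (a - z.re) * (a - (p * z).re) = B ^ 2 + A ^ 2 * ω ^ 2 := by
    have : (p * z).re = (e.re ^ 2 - e.im ^ 2) * z.re - 2 * e.re * e.im * z.im := by
      rw [← he, pow_two, Complex.mul_re, Complex.mul_re, Complex.mul_im]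
      ring
    rw [this, hω, hA, hB]
    have h1 : e.re ^ 2 = 1 - e.im ^ 2 := by linarith
    linear_combination (-(a - z.re) * (a - z.re) - a * (a - z.re) + (a - z.re) * (a - z.re)) * hn1
  have hpos : 0 < B ^ 2 + A ^ 2 * ω ^ 2 := by
    rw [← hprod]; exact mul_pos hf hf'
  rcases hω0.eq_or_lt with h0 | h0
  · -- parabolic case
    rw [← h0] at hpos
    have hB0 : B ≠ 0 := by
      intro h
      rw [h] at hpos
      norm_num at hpos
    refine ⟨2 * A / B, suff _ ?_⟩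
    rw [him, ← h0, kc_zero_left, ks_zero_left]
    field_simp
    ring
  · -- elliptic case
    have hne : (⟨B / ω, A⟩ : ℂ) ≠ 0 := by
      intro h
      have h1 := congrArg Complex.re h
      have h2 := congrArg Complex.im h
      simp only [zero_re, zero_im] at h1 h2
      have h3 : B = 0 := by
        rcases div_eq_zero_iff.1 h1 with h | h
        · exact h
        · exact absurd h h0.ne'
      rw [h2, h3] at hpos
      norm_num at hpos
    set ζ : ℂ := ⟨B / ω, A⟩ with hζ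
    refine ⟨2 * Complex.arg ζ / ω, suff _ ?_⟩
    rw [him, ks_of_ne h0.ne', kc]
    have h1 : ω * (2 * Complex.arg ζ / ω) / 2 = Complex.arg ζ := by field_simp
    rw [h1]
    have hc : ‖ζ‖ * Real.cos (Complex.arg ζ) = B / ω := Complex.norm_mul_cos_arg ζ
    have hs : ‖ζ‖ * Real.sin (Complex.arg ζ) = A := Complex.norm_mul_sin_arg ζ
    have h2 : A * Real.cos (Complex.arg ζ) - 2 / ω * Real.sin (Complex.arg ζ) * B / 2 =
        A * Real.cos (Complex.arg ζ) - (B / ω) * Real.sin (Complex.arg ζ) := by ring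
    rw [h2, ← hc, ← hs]
    ring

end Pool.Agent.H.MP_c8cff9_gt.H93
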