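import Pool.Agent.H.MP_c8cff9_gt.H93.FlowAlg

/-!
# The rotation flow on `U ⊆ ℂ × ℂ × F`
-/

set_option autoImplicit false

open Complex

namespace Pool.Agent.H.MP_c8cff9_gt.H93

/-- `√(|z|² + h(C² - |z|²))` -/
noncomputable def aF (z : ℂ) (C : ℝ) : ℝ := √(‖z‖ ^ 2 + expNegInvGlue (C ^ 2 - ‖z‖ ^ 2))

/-- `√h(C² - |z|²)` -/
noncomputable def wF (z : ℂ) (C : ℝ) : ℝ := √(expNegInvGlue (C ^ 2 - ‖z‖ ^ 2))

lemma wF_nonneg (z : ℂ) (C : ℝ) : 0 ≤ wF z C := Real.sqrt_nonneg _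

lemma aF_nonneg (z : ℂ) (C : ℝ) : 0 ≤ aF z C := Real.sqrt_nonneg _

lemma aF_sq (z : ℂ) (C : ℝ) : aF z C ^ 2 = ‖z‖ ^ 2 + expNegInvGlue (C ^ 2 - ‖z‖ ^ 2) :=
  Real.sq_sqrt (add_nonneg (sq_nonneg _) (expNegInvGlue.nonneg _))

lemma wF_sq' (z : ℂ) (C : ℝ) : wF z C ^ 2 = expNegInvGlue (C ^ 2 - ‖z‖ ^ 2) :=
  Real.sq_sqrt (expNegInvGlue.nonneg _)

lemma wF_sq (z : ℂ) (C : ℝ) : wF z C ^ 2 = aF z C ^ 2 - ‖z‖ ^ 2 := by
  rw [aF_sq, wF_sq']; ring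

lemma norm_sq_re_im (z : ℂ) : ‖z‖ ^ 2 = z.re ^ 2 + z.im ^ 2 := by
  rw [← Complex.normSq_eq_norm_sq, Complex.normSq_apply]; ring

lemma speed_nonneg (z : ℂ) (C : ℝ) : 0 ≤ aF z C - z.re := by
  have h1 := aF_sq z C
  have h2 := expNegInvGlue.nonneg (C ^ 2 - ‖z‖ ^ 2)
  have h3 := aF_nonneg z C
  rw [sub_nonneg]
  refine le_trans (Complex.re_le_norm z) ?_
  refine le_of_sq_le_sq₀' ?_ h3
  rw [h1]
  linarith
where
  le_of_sq_le_sq₀' {x y : ℝ} (h : x ^ 2 ≤ y ^ 2) (hy : 0 ≤ y) : x ≤ y := by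
    nlinarith [abs_le_of_sq_le_sq' h hy]

lemma speed_eq_zero_iff (z : ℂ) (C : ℝ) (hC : 0 ≤ C) :
    aF z C - z.re = 0 ↔ (z.im = 0 ∧ C ≤ z.re) := by
  have h1 := aF_sq z C
  have h3 := aF_nonneg z C
  have h2 := expNegInvGlue.nonneg (C ^ 2 - ‖z‖ ^ 2)
  have hn := norm_sq_re_im z
  constructor
  · intro h
    have ha : aF z C = z.re := by linarith
    rw [ha] at h1 h3
    rw [hn] at h1
    have him : z.im ^ 2 = 0 := by
      have := sq_nonneg z.im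
      rw [hn] at h2
      linarith
    have him' : z.im = 0 := by
      exact pow_eq_zero_iff two_ne_zero |>.1 him
    refine ⟨him', ?_⟩
    have h4 : expNegInvGlue (C ^ 2 - ‖z‖ ^ 2) = 0 := by
      rw [hn]; rw [him] at h1 ⊢; linarith
    rw [expNegInvGlue.zero_iff_nonpos, hn, him] at h4
    nlinarith
  · rintro ⟨him, hre⟩
    have hz : expNegInvGlue (C ^ 2 - ‖z‖ ^ 2) = 0 := by
      rw [expNegInvGlue.zero_iff_nonpos, hn, him]
      nlinarith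
    rw [hz, hn, him] at h1
    have : aF z C = z.re := by
      have h0 : 0 ≤ z.re := hC.trans hre
      have h5 : aF z C ^ 2 = z.re ^ 2 := by rw [h1]; ring
      exact (sq_eq_sq₀ h3 h0).1 h5
    linarith

lemma speed_pos (z : ℂ) (C : ℝ) (hC : 0 ≤ C) (h : ¬ (z.im = 0 ∧ C ≤ z.re)) :
    0 < aF z C - z.re :=
  lt_of_le_of_ne (speed_nonneg z C) fun h' => h ((speed_eq_zero_iff z C hC).1 h'.symm)

/-- The multiplier. -/
noncomputable def EE (t : ℝ) (z : ℂ) (C : ℝ) : ℂ := ee t (aF z C) (wF z C) z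

lemma EE_zero (z : ℂ) (C : ℝ) : EE 0 z C = 1 := ee_zero _ _ _

section
variable (z : ℂ) (C : ℝ) (hC : 0 ≤ C) (h : ¬ (z.im = 0 ∧ C ≤ z.re))
include hC h

lemma norm_EE (t : ℝ) : ‖EE t z C‖ = 1 := norm_ee _ _ _ _ (speed_pos z C hC h).ne'

lemma norm_EE_mul (t : ℝ) (w : ℂ) : ‖EE t z C * w‖ = ‖w‖ := by
  rw [norm_mul, norm_EE z C hC h, one_mul]

lemma EE_mem (t : ℝ) : ¬ ((EE t z C * z).im = 0 ∧ C ≤ (EE t z C * z).re) := by
  rw [← speed_eq_zero_iff _ C hC, aF, norm_EE_mul z C hC h]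
  exact speed_ne t (aF z C) (wF z C) z (wF_sq z C) (speed_pos z C hC h).ne'

lemma EE_add (s t : ℝ) : EE (s + t) z C = EE s (EE t z C * z) C * EE t z C := by
  have h1 : aF (EE t z C * z) C = aF z C := by rw [aF, aF, norm_EE_mul z C hC h]
  have h2 : wF (EE t z C * z) C = wF z C := by rw [wF, wF, norm_EE_mul z C hC h]
  have := ee_add s t (aF z C) (wF z C) z (wF_sq z C) (speed_pos z C hC h).ne'
  rw [EE, this]
  conv_rhs => rw [EE, h1, h2]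
  rfl

lemma hasDerivAt_EE_zero :
    HasDerivAt (fun t => EE t z C) (I * ((aF z C - z.re : ℝ) : ℂ)) 0 := by
  have := hasDerivAt_ee 0 (aF z C) (wF z C) z (wF_sq z C) (speed_pos z C hC h).ne'
  rw [ee_zero, one_mul, mul_one] at this
  exact this

lemma exists_EE_eq (p : ℂ) (hp : ‖p‖ = 1) (h' : ¬ ((p * z).im = 0 ∧ C ≤ (p * z).re)) :
    ∃ t, EE t z C = p := by
  refine exists_ee_eq (aF z C) (wF z C) z p (wF_nonneg z C) (wF_sq z C) (speed_pos z C hC h) hp ?_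
  have := speed_pos (p * z) C hC h'
  rwa [aF, norm_mul, hp, one_mul] at this

end

lemma continuous_aF : Continuous fun p : ℂ × ℝ => aF p.1 p.2 := by
  unfold aF
  have h : Continuous expNegInvGlue := (expNegInvGlue.contDiff (n := 0)).continuous
  exact Real.continuous_sqrt.comp ((by fun_prop : Continuous fun p : ℂ × ℝ => ‖p.1‖ ^ 2).add
    (h.comp (by fun_prop)))

lemma continuous_wF : Continuous fun p : ℂ × ℝ => wF p.1 p.2 := by
  unfold wF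
  have h : Continuous expNegInvGlue := (expNegInvGlue.contDiff (n := 0)).continuous
  exact Real.continuous_sqrt.comp (h.comp (by fun_prop))

lemma continuous_dd : Continuous fun p : ℝ × ℂ × ℝ => dd p.1 (aF p.2.1 p.2.2) (wF p.2.1 p.2.2) p.2.1 := by
  unfold dd
  have ha : Continuous fun p : ℝ × ℂ × ℝ => aF p.2.1 p.2.2 := continuous_aF.comp continuous_snd
  have hw : Continuous fun p : ℝ × ℂ × ℝ => wF p.2.1 p.2.2 := continuous_wF.comp continuous_snd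
  have hc : Continuous fun p : ℝ × ℂ × ℝ => kc (wF p.2.1 p.2.2) p.1 :=
    continuous_kc.comp (hw.prodMk continuous_fst)
  have hs : Continuous fun p : ℝ × ℂ × ℝ => ks (wF p.2.1 p.2.2) p.1 :=
    continuous_ks.comp (hw.prodMk continuous_fst)
  fun_prop

lemma continuousAt_EE (t : ℝ) (z : ℂ) (C : ℝ) (hC : 0 ≤ C) (h : ¬ (z.im = 0 ∧ C ≤ z.re)) :
    ContinuousAt (fun p : ℝ × ℂ × ℝ => EE p.1 p.2.1 p.2.2) (t, z, C) := by
  have h1 := continuous_dd.continuousAt (x := (t, z, C))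
  have h2 := (Complex.continuous_conj.comp continuous_dd).continuousAt (x := (t, z, C))
  exact h2.div h1 (dd_ne_zero _ _ _ _ (speed_pos z C hC h).ne')

section total

variable {F : Type} [NormedAddCommGroup F] [NormedSpace ℝ F]

/-- Data for the construction. -/
structure Dat (F : Type) [NormedAddCommGroup F] [NormedSpace ℝ F] where
  /-- the defining function -/
  c : ℝ × F → ℝ
  smooth : ContDiff ℝ (⊤ : ℕ∞) c
  nonneg : ∀ p, 0 ≤ c p
  zero : ∀ g, c (0, g) = 0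
  pos : ∀ s g, 0 < s → c (s, g) ≠ 0

variable (d : Dat F)

/-- The cut function. -/
noncomputable def Dat.C (w : ℂ) (g : F) : ℝ := d.c (-‖w‖ ^ 2, g)

lemma Dat.C_nonneg (w : ℂ) (g : F) : 0 ≤ d.C w g := d.nonneg _

/-- The total space. -/
def Dat.U : Set (ℂ × ℂ × F) := {p | ¬ (p.1.im = 0 ∧ d.C p.2.1 p.2.2 ≤ p.1.re)}

/-- The flow. -/
noncomputable def Dat.T (t : ℝ) (p : ℂ × ℂ × F) : ℂ × ℂ × F :=
  (EE t p.1 (d.C p.2.1 p.2.2) * p.1, EE t p.1 (d.C p.2.1 p.2.2) * p.2.1, p.2.2)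

lemma Dat.C_T (t : ℝ) (p : ℂ × ℂ × F) (hp : p ∈ d.U) :
    d.C (d.T t p).2.1 (d.T t p).2.2 = d.C p.2.1 p.2.2 := by
  simp only [Dat.T]
  rw [Dat.C, norm_EE_mul p.1 _ (d.C_nonneg _ _) hp]
  rfl

lemma Dat.T_mem (t : ℝ) (p : ℂ × ℂ × F) (hp : p ∈ d.U) : d.T t p ∈ d.U := by
  change ¬ _
  rw [d.C_T t p hp]
  exact EE_mem p.1 _ (d.C_nonneg _ _) hp t

lemma Dat.T_zero (p : ℂ × ℂ × F) : d.T 0 p = p := by
  simp [Dat.T, EE_zero]

lemma Dat.T_add (s t : ℝ) (p : ℂ × ℂ × F) (hp : p ∈ d.U) :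
    d.T (s + t) p = d.T s (d.T t p) := by
  have h1 := EE_add p.1 _ (d.C_nonneg p.2.1 p.2.2) hp s t
  have h2 := d.C_T t p hp
  conv_rhs => rw [Dat.T, h2]
  simp only [Dat.T]
  rw [h1, mul_assoc, mul_assoc]

lemma Dat.continuous_C : Continuous fun p : ℂ × F => d.C p.1 p.2 := by
  unfold Dat.C
  exact d.smooth.continuous.comp (by fun_prop)

lemma Dat.continuousAt_T (t : ℝ) (p : ℂ × ℂ × F) (hp : p ∈ d.U) :
    ContinuousAt (fun x : ℝ × ℂ × ℂ × F => d.T x.1 x.2) (t, p) := by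
  have hC : Continuous fun x : ℝ × ℂ × ℂ × F => d.C x.2.2.1 x.2.2.2 :=
    d.continuous_C.comp (by fun_prop)
  have h1 : ContinuousAt (fun x : ℝ × ℂ × ℂ × F => EE x.1 x.2.1 (d.C x.2.2.1 x.2.2.2)) (t, p) := by
    have h2 := continuousAt_EE t p.1 (d.C p.2.1 p.2.2) (d.C_nonneg _ _) hp
    have h3 : ContinuousAt (fun x : ℝ × ℂ × ℂ × F => (x.1, x.2.1, d.C x.2.2.1 x.2.2.2)) (t, p) :=
      (continuous_fst.prodMk ((by fun_prop : Continuous fun x : ℝ × ℂ × ℂ × F => x.2.1).prodMk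
        hC)).continuousAt
    exact ContinuousAt.comp (f := fun x : ℝ × ℂ × ℂ × F => (x.1, x.2.1, d.C x.2.2.1 x.2.2.2))
      (g := fun p : ℝ × ℂ × ℝ => EE p.1 p.2.1 p.2.2) h2 h3
  unfold Dat.T
  exact (h1.mul (by fun_prop)).prodMk ((h1.mul (by fun_prop)).prodMk (by fun_prop))

end total

end Pool.Agent.H.MP_c8cff9_gt.H93
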