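import Pool.Agent.H.MP_c8cff9_gt.H93.Chart

/-!
# The orbit space via the Hopf map
-/

set_option autoImplicit false

open Complex Filter Topology

namespace Pool.Agent.H.MP_c8cff9_gt.H93

lemma nhds_le_of_section {X Y : Type} [TopologicalSpace X] [TopologicalSpace Y] {f : X → Y} {x : X}
    (σ : Y → X) (hσ : ContinuousAt σ (f x)) (h1 : σ (f x) = x)
    (h2 : ∀ᶠ y in 𝓝 (f x), f (σ y) = y) : 𝓝 (f x) ≤ map f (𝓝 x) := by
  have h3 : map (fun y => f (σ y)) (𝓝 (f x)) = 𝓝 (f x) := by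
    have : map (fun y => f (σ y)) (𝓝 (f x)) = map id (𝓝 (f x)) := Filter.map_congr h2
    rw [this, Filter.map_id]
  rw [← h3]
  have h4 : map (fun y => f (σ y)) (𝓝 (f x)) = map f (map σ (𝓝 (f x))) := (Filter.map_map).symm
  rw [h4]
  refine Filter.map_mono ?_
  have h5 : map σ (𝓝 (f x)) ≤ 𝓝 (σ (f x)) := hσ
  rwa [h1] at h5

section

variable {F : Type} [NormedAddCommGroup F] [NormedSpace ℝ F] (d : Dat F)

/-- The Hopf map. -/
noncomputable def hopf (F : Type) (p : ℂ × ℂ × F) : ℂ × ℝ × F :=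
  (p.1 * (starRingEnd ℂ) p.2.1, ‖p.1‖ ^ 2 - ‖p.2.1‖ ^ 2, p.2.2)

lemma continuous_hopf : Continuous (hopf F) := by
  unfold hopf
  have : Continuous fun p : ℂ × ℂ × F => (starRingEnd ℂ) p.2.1 :=
    Complex.continuous_conj.comp (by fun_prop)
  exact (continuous_fst.mul this).prodMk (by fun_prop)

/-- `√(s² + 4|q|²)` -/
noncomputable def rho (y : ℂ × ℝ × F) : ℝ := √(y.2.1 ^ 2 + 4 * ‖y.1‖ ^ 2)

lemma continuous_rho : Continuous (rho (F := F)) := by unfold rho; fun_prop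

lemma rho_sq (y : ℂ × ℝ × F) : rho y ^ 2 = y.2.1 ^ 2 + 4 * ‖y.1‖ ^ 2 :=
  Real.sq_sqrt (by positivity)

lemma abs_le_rho (y : ℂ × ℝ × F) : |y.2.1| ≤ rho y := by
  refine Real.abs_le_sqrt ?_
  have := sq_nonneg ‖y.1‖
  linarith

lemma rho_hopf (p : ℂ × ℂ × F) : rho (hopf F p) = ‖p.1‖ ^ 2 + ‖p.2.1‖ ^ 2 := by
  unfold rho hopf
  simp only [norm_mul, Complex.norm_conj]
  rw [show (‖p.1‖ ^ 2 - ‖p.2.1‖ ^ 2) ^ 2 + 4 * (‖p.1‖ * ‖p.2.1‖) ^ 2 =
    (‖p.1‖ ^ 2 + ‖p.2.1‖ ^ 2) ^ 2 by ring]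
  exact Real.sqrt_sq (by positivity)

/-- section around points with `z ≠ 0` -/
noncomputable def sec1 (u : ℂ) (y : ℂ × ℝ × F) : ℂ × ℂ × F :=
  (((√((rho y + y.2.1) / 2) : ℝ) : ℂ) * u,
    (starRingEnd ℂ) y.1 / (((√((rho y + y.2.1) / 2) : ℝ) : ℂ) * (starRingEnd ℂ) u), y.2.2)

/-- section around points with `w ≠ 0` -/
noncomputable def sec2 (u : ℂ) (y : ℂ × ℝ × F) : ℂ × ℂ × F :=
  (y.1 / (((√((rho y - y.2.1) / 2) : ℝ) : ℂ) * (starRingEnd ℂ) u),
    ((√((rho y - y.2.1) / 2) : ℝ) : ℂ) * u, y.2.2)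

lemma hopf_sec1 (u : ℂ) (hu : ‖u‖ = 1) (y : ℂ × ℝ × F) (hy : 0 < rho y + y.2.1) :
    hopf F (sec1 u y) = y := by
  have hr : 0 < √((rho y + y.2.1) / 2) := Real.sqrt_pos.2 (by linarith)
  have hr2 : √((rho y + y.2.1) / 2) ^ 2 = (rho y + y.2.1) / 2 := Real.sq_sqrt (by linarith)
  set r := √((rho y + y.2.1) / 2) with hrdef
  have hu0 : u ≠ 0 := by rintro rfl; simp at hu
  have hrc : (r : ℂ) ≠ 0 := by exact_mod_cast hr.ne'
  unfold hopf sec1
  rw [← hrdef]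
  refine Prod.ext ?_ (Prod.ext ?_ rfl)
  · simp only
    rw [map_div₀, map_mul, Complex.conj_conj, Complex.conj_conj, Complex.conj_ofReal]
    field_simp
  · simp only
    rw [norm_mul, norm_div, norm_mul, Complex.norm_conj, Complex.norm_conj, hu,
      Complex.norm_of_nonneg hr.le, mul_one, div_pow, hr2]
    have h3 := rho_sq y
    have h4 : rho y + y.2.1 ≠ 0 := hy.ne'
    field_simp
    linarith

lemma hopf_sec2 (u : ℂ) (hu : ‖u‖ = 1) (y : ℂ × ℝ × F) (hy : 0 < rho y - y.2.1) :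
    hopf F (sec2 u y) = y := by
  have hr : 0 < √((rho y - y.2.1) / 2) := Real.sqrt_pos.2 (by linarith)
  have hr2 : √((rho y - y.2.1) / 2) ^ 2 = (rho y - y.2.1) / 2 := Real.sq_sqrt (by linarith)
  set r := √((rho y - y.2.1) / 2) with hrdef
  have hu0 : u ≠ 0 := by rintro rfl; simp at hu
  have hrc : (r : ℂ) ≠ 0 := by exact_mod_cast hr.ne'
  have hcu : (starRingEnd ℂ) u ≠ 0 := by simpa using hu0
  unfold hopf sec2
  rw [← hrdef]
  refine Prod.ext ?_ (Prod.ext ?_ rfl)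
  · simp only
    rw [map_mul, Complex.conj_ofReal]
    field_simp
  · simp only
    rw [norm_mul, norm_div, norm_mul, Complex.norm_conj, hu,
      Complex.norm_of_nonneg hr.le, mul_one, div_pow, hr2]
    have h3 := rho_sq y
    have h4 : rho y - y.2.1 ≠ 0 := hy.ne'
    field_simp
    linarith

lemma sec1_hopf (p : ℂ × ℂ × F) (hp : p.1 ≠ 0) : sec1 (p.1 / ‖p.1‖) (hopf F p) = p := by
  have hn : (‖p.1‖ : ℂ) ≠ 0 := by simpa using hp
  have h1 : √((rho (hopf F p) + (hopf F p).2.1) / 2) = ‖p.1‖ := by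
    rw [rho_hopf]
    have : (‖p.1‖ ^ 2 + ‖p.2.1‖ ^ 2 + (hopf F p).2.1) / 2 = ‖p.1‖ ^ 2 := by
      simp only [hopf]; ring
    rw [this, Real.sqrt_sq (norm_nonneg _)]
  unfold sec1
  rw [h1]
  refine Prod.ext ?_ (Prod.ext ?_ rfl)
  · simp only
    field_simp
  · simp only [hopf]
    rw [map_mul, Complex.conj_conj, map_div₀, Complex.conj_ofReal]
    have : (starRingEnd ℂ) p.1 ≠ 0 := by simpa using hp
    field_simp

lemma sec2_hopf (p : ℂ × ℂ × F) (hp : p.2.1 ≠ 0) : sec2 (p.2.1 / ‖p.2.1‖) (hopf F p) = p := by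
  have hn : (‖p.2.1‖ : ℂ) ≠ 0 := by simpa using hp
  have h1 : √((rho (hopf F p) - (hopf F p).2.1) / 2) = ‖p.2.1‖ := by
    rw [rho_hopf]
    have : (‖p.1‖ ^ 2 + ‖p.2.1‖ ^ 2 - (hopf F p).2.1) / 2 = ‖p.2.1‖ ^ 2 := by
      simp only [hopf]; ring
    rw [this, Real.sqrt_sq (norm_nonneg _)]
  unfold sec2
  rw [h1]
  have hc : (starRingEnd ℂ) p.2.1 ≠ 0 := by simpa using hp
  refine Prod.ext ?_ (Prod.ext ?_ rfl)
  · simp only [hopf]
    rw [map_div₀, Complex.conj_ofReal]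
    field_simp
  · simp only
    field_simp

lemma continuousAt_sec1 (u : ℂ) (hu : ‖u‖ = 1) (y : ℂ × ℝ × F) (hy : 0 < rho y + y.2.1) :
    ContinuousAt (sec1 (F := F) u) y := by
  have hr : 0 < √((rho y + y.2.1) / 2) := Real.sqrt_pos.2 (by linarith)
  have hrc : ((√((rho y + y.2.1) / 2) : ℝ) : ℂ) ≠ 0 := by exact_mod_cast hr.ne'
  have hu0 : u ≠ 0 := by rintro rfl; simp at hu
  have hcu : (starRingEnd ℂ) u ≠ 0 := by simpa using hu0
  have h1 : Continuous fun y : ℂ × ℝ × F => ((√((rho y + y.2.1) / 2) : ℝ) : ℂ) :=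
    Complex.continuous_ofReal.comp (Real.continuous_sqrt.comp
      ((continuous_rho.add (by fun_prop)).div_const 2))
  have h2 : Continuous fun y : ℂ × ℝ × F => (starRingEnd ℂ) y.1 :=
    Complex.continuous_conj.comp continuous_fst
  unfold sec1
  exact (h1.mul continuous_const).continuousAt.prodMk ((h2.continuousAt.div
    (h1.mul continuous_const).continuousAt (mul_ne_zero hrc hcu)).prodMk (by fun_prop))

lemma continuousAt_sec2 (u : ℂ) (hu : ‖u‖ = 1) (y : ℂ × ℝ × F) (hy : 0 < rho y - y.2.1) :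
    ContinuousAt (sec2 (F := F) u) y := by
  have hr : 0 < √((rho y - y.2.1) / 2) := Real.sqrt_pos.2 (by linarith)
  have hrc : ((√((rho y - y.2.1) / 2) : ℝ) : ℂ) ≠ 0 := by exact_mod_cast hr.ne'
  have hu0 : u ≠ 0 := by rintro rfl; simp at hu
  have hcu : (starRingEnd ℂ) u ≠ 0 := by simpa using hu0
  have h1 : Continuous fun y : ℂ × ℝ × F => ((√((rho y - y.2.1) / 2) : ℝ) : ℂ) :=
    Complex.continuous_ofReal.comp (Real.continuous_sqrt.comp
      ((continuous_rho.sub (by fun_prop)).div_const 2))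
  unfold sec2
  exact (continuous_fst.continuousAt.div
    (h1.mul continuous_const).continuousAt (mul_ne_zero hrc hcu)).prodMk
      ((h1.mul continuous_const).continuousAt.prodMk (by fun_prop))

lemma norm_div_norm_self (z : ℂ) (hz : z ≠ 0) : ‖z / (‖z‖ : ℂ)‖ = 1 := by
  rw [norm_div, Complex.norm_real, norm_norm, div_self (norm_ne_zero_iff.2 hz)]

lemma Dat.isOpen_U : IsOpen d.U := by
  have h1 : d.U = ({p | p.1.im = 0} ∩ {p | d.C p.2.1 p.2.2 ≤ p.1.re})ᶜ := rfl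
  rw [h1, isOpen_compl_iff]
  refine IsClosed.inter (isClosed_eq ?_ continuous_const) (isClosed_le ?_ ?_)
  · exact Complex.continuous_im.comp continuous_fst
  · exact d.continuous_C.comp (by fun_prop)
  · exact Complex.continuous_re.comp continuous_fst

lemma Dat.ne_zero_of_mem (p : ℂ × ℂ × F) (hp : p ∈ d.U) : p.1 ≠ 0 ∨ p.2.1 ≠ 0 := by
  by_contra h
  push Not at h
  refine hp ⟨by rw [h.1]; rfl, ?_⟩
  rw [h.1, h.2, Dat.C]
  have : -‖(0 : ℂ)‖ ^ 2 = 0 := by simp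
  rw [this, d.zero]
  rfl

/-- The projection. -/
noncomputable def Dat.pr (p : ℝ × ℝ × ℂ × F) : ℂ × ℝ × F := hopf F (d.ch p)

lemma Dat.continuous_pr : Continuous d.pr := continuous_hopf.comp d.continuous_ch

lemma Dat.isOpenMap_pr : IsOpenMap d.pr := by
  rw [isOpenMap_iff_nhds_le]
  intro p
  have hm := d.ch_mem p
  set q := d.ch p with hq
  have hpq : d.pr p = hopf F q := rfl
  -- general argument from a section
  have main : ∀ σ : ℂ × ℝ × F → ℂ × ℂ × F, ContinuousAt σ (hopf F q) → σ (hopf F q) = q →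
      (∀ᶠ y in 𝓝 (hopf F q), hopf F (σ y) = y) → 𝓝 (d.pr p) ≤ map d.pr (𝓝 p) := by
    intro σ h1 h2 h3
    refine nhds_le_of_section (fun y => d.uch (σ y)) ?_ ?_ ?_
    · rw [hpq]
      refine ContinuousAt.comp (f := σ) (g := d.uch) ?_ h1
      rw [h2]
      exact d.continuousAt_uch q hm
    · rw [hpq, h2, hq]
      exact d.uch_ch p
    · rw [hpq]
      have h4 : ∀ᶠ y in 𝓝 (hopf F q), σ y ∈ d.U := by
        refine h1.eventually_mem (d.isOpen_U.mem_nhds ?_)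
        rw [h2]; exact hm
      filter_upwards [h3, h4] with y h5 h6
      rw [Dat.pr, d.ch_uch _ h6, h5]
  rcases d.ne_zero_of_mem q hm with h | h
  · have hu := norm_div_norm_self q.1 h
    have hpos : 0 < rho (hopf F q) + (hopf F q).2.1 := by
      rw [rho_hopf]
      have : 0 < ‖q.1‖ := norm_pos_iff.2 h
      simp only [hopf]
      nlinarith
    refine main (sec1 (q.1 / ‖q.1‖)) (continuousAt_sec1 _ hu _ hpos) (sec1_hopf q h) ?_
    have h1 : ∀ᶠ y in 𝓝 (hopf F q), 0 < rho y + y.2.1 :=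
      (continuous_rho.add (by fun_prop)).continuousAt.eventually_const_lt hpos
    filter_upwards [h1] with y hy
    exact hopf_sec1 _ hu y hy
  · have hu := norm_div_norm_self q.2.1 h
    have hpos : 0 < rho (hopf F q) - (hopf F q).2.1 := by
      rw [rho_hopf]
      have : 0 < ‖q.2.1‖ := norm_pos_iff.2 h
      simp only [hopf]
      nlinarith
    refine main (sec2 (q.2.1 / ‖q.2.1‖)) (continuousAt_sec2 _ hu _ hpos) (sec2_hopf q h) ?_
    have h1 : ∀ᶠ y in 𝓝 (hopf F q), 0 < rho y - y.2.1 :=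
      (continuous_rho.sub (by fun_prop)).continuousAt.eventually_const_lt hpos
    filter_upwards [h1] with y hy
    exact hopf_sec2 _ hu y hy

lemma Dat.pr_ph (t : ℝ) (p : ℝ × ℝ × ℂ × F) : d.pr (d.ph t p) = d.pr p := by
  have hm := d.ch_mem p
  rw [Dat.pr, d.ch_ph, Dat.pr]
  set q := d.ch p with hq
  have hE := norm_EE q.1 _ (d.C_nonneg q.2.1 q.2.2) hm t
  have hE2 : EE t q.1 (d.C q.2.1 q.2.2) * (starRingEnd ℂ) (EE t q.1 (d.C q.2.1 q.2.2)) = 1 := by
    rw [Complex.mul_conj, Complex.normSq_eq_norm_sq, hE]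
    norm_num
  unfold hopf Dat.T
  refine Prod.ext ?_ (Prod.ext ?_ rfl)
  · simp only
    rw [map_mul]
    linear_combination (q.1 * (starRingEnd ℂ) q.2.1) * hE2
  · simp only
    rw [norm_mul, norm_mul, hE, one_mul, one_mul]

lemma hopf_eq (p q : ℂ × ℂ × F) (h : hopf F p = hopf F q) (hp : p.1 ≠ 0 ∨ p.2.1 ≠ 0) :
    ∃ u : ℂ, ‖u‖ = 1 ∧ q = (u * p.1, u * p.2.1, p.2.2) := by
  have h1 : p.1 * (starRingEnd ℂ) p.2.1 = q.1 * (starRingEnd ℂ) q.2.1 := congrArg Prod.fst h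
  have h2 : ‖p.1‖ ^ 2 - ‖p.2.1‖ ^ 2 = ‖q.1‖ ^ 2 - ‖q.2.1‖ ^ 2 :=
    congrArg (fun x => x.2.1) h
  have h3 : p.2.2 = q.2.2 := congrArg (fun x => x.2.2) h
  have h4 : ‖p.1‖ ^ 2 + ‖p.2.1‖ ^ 2 = ‖q.1‖ ^ 2 + ‖q.2.1‖ ^ 2 := by
    rw [← rho_hopf, ← rho_hopf, h]
  have h5 : ‖p.1‖ = ‖q.1‖ := by
    have : ‖p.1‖ ^ 2 = ‖q.1‖ ^ 2 := by linarith
    exact (sq_eq_sq₀ (norm_nonneg _) (norm_nonneg _)).1 this
  have h6 : ‖p.2.1‖ = ‖q.2.1‖ := by
    have : ‖p.2.1‖ ^ 2 = ‖q.2.1‖ ^ 2 := by linarith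
    exact (sq_eq_sq₀ (norm_nonneg _) (norm_nonneg _)).1 this
  by_cases hz : p.1 = 0
  · have hw : p.2.1 ≠ 0 := by
      rcases hp with hp | hp
      · exact absurd hz hp
      · exact hp
    have hz' : q.1 = 0 := by
      rw [← norm_eq_zero, ← h5, hz, norm_zero]
    refine ⟨q.2.1 / p.2.1, ?_, ?_⟩
    · rw [norm_div, h6, div_self]
      rw [← h6]; exact norm_ne_zero_iff.2 hw
    · refine Prod.ext ?_ (Prod.ext ?_ h3.symm)
      · simp only; rw [hz, hz', mul_zero]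
      · simp only; field_simp
  · have hq1 : q.1 ≠ 0 := by
      intro h0
      apply hz
      rw [← norm_eq_zero, h5, h0, norm_zero]
    have hcp : (starRingEnd ℂ) p.1 ≠ 0 := by simpa using hz
    have hcq : (starRingEnd ℂ) q.1 ≠ 0 := by simpa using hq1
    refine ⟨q.1 / p.1, ?_, ?_⟩
    · rw [norm_div, h5, div_self]
      rw [← h5]; exact norm_ne_zero_iff.2 hz
    · refine Prod.ext ?_ (Prod.ext ?_ h3.symm)
      · simp only; field_simp
      · simp only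
        have h7 : (starRingEnd ℂ) p.1 * p.2.1 = (starRingEnd ℂ) q.1 * q.2.1 := by
          have := congrArg (starRingEnd ℂ) h1
          rwa [map_mul, map_mul, Complex.conj_conj, Complex.conj_conj] at this
        have h8 : p.1 * (starRingEnd ℂ) p.1 = q.1 * (starRingEnd ℂ) q.1 := by
          rw [Complex.mul_conj, Complex.mul_conj, Complex.normSq_eq_norm_sq,
            Complex.normSq_eq_norm_sq, h5]
        have h9 : (starRingEnd ℂ) q.1 * (q.2.1 * p.1) = (starRingEnd ℂ) q.1 * (q.1 * p.2.1) := by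
          linear_combination (-p.1) * h7 + p.2.1 * h8
        have h10 := mul_left_cancel₀ hcq h9
        field_simp
        exact h10

lemma Dat.exists_ph_eq (p p' : ℝ × ℝ × ℂ × F) (h : d.pr p = d.pr p') : ∃ t, d.ph t p = p' := by
  have hm := d.ch_mem p
  have hm' := d.ch_mem p'
  obtain ⟨u, hu, hq⟩ := hopf_eq (d.ch p) (d.ch p') h (d.ne_zero_of_mem _ hm)
  have hC : d.C (d.ch p').2.1 (d.ch p').2.2 = d.C (d.ch p).2.1 (d.ch p).2.2 := by
    rw [hq, Dat.C]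
    simp only
    rw [norm_mul, hu, one_mul]
    rfl
  have h1 : ¬ ((u * (d.ch p).1).im = 0 ∧ d.C (d.ch p).2.1 (d.ch p).2.2 ≤ (u * (d.ch p).1).re) := by
    have h2 : (d.ch p').1 = u * (d.ch p).1 := by rw [hq]
    rw [← h2, ← hC]
    exact hm'
  obtain ⟨t, ht⟩ := exists_EE_eq (d.ch p).1 _ (d.C_nonneg (d.ch p).2.1 (d.ch p).2.2) hm u hu h1
  refine ⟨t, ?_⟩
  rw [Dat.ph, Dat.T, ht, ← hq, d.uch_ch]

/-- The orbit space as an open subset of `ℂ × ℝ × F`. -/
def Dat.O : Set (ℂ × ℝ × F) := {y | y.1 ≠ 0 ∨ d.c (y.2.1, y.2.2) ≠ 0}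

lemma Dat.pr_mem (p : ℝ × ℝ × ℂ × F) : d.pr p ∈ d.O := by
  have hm := d.ch_mem p
  rw [Dat.pr]
  set q := d.ch p with hq
  by_cases h : q.1 * (starRingEnd ℂ) q.2.1 = 0
  · right
    simp only [hopf]
    by_cases hz : q.1 = 0
    · have h1 : ‖q.1‖ ^ 2 - ‖q.2.1‖ ^ 2 = -‖q.2.1‖ ^ 2 := by rw [hz]; simp
      rw [h1]
      intro h2
      refine hm ⟨by rw [hz]; rfl, ?_⟩
      rw [Dat.C, h2, hz]
      rfl
    · have hw : q.2.1 = 0 := by
        rcases mul_eq_zero.1 h with h | h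
        · exact absurd h hz
        · simpa using h
      refine d.pos _ _ ?_
      rw [hw]
      have : 0 < ‖q.1‖ := norm_pos_iff.2 hz
      simp only [norm_zero]
      nlinarith
  · left
    exact h

lemma Dat.exists_pr (y : ℂ × ℝ × F) (hy : y ∈ d.O) : ∃ p, d.pr p = y := by
  -- it suffices to find a point of `U`
  have suff : ∀ q ∈ d.U, hopf F q = y → ∃ p, d.pr p = y := by
    intro q hq h
    exact ⟨d.uch q, by rw [Dat.pr, d.ch_uch q hq, h]⟩
  have hρ := abs_le_rho y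
  have hρ2 := rho_sq y
  by_cases hpos : 0 < rho y + y.2.1
  · refine suff (sec1 (-1) y) ?_ (hopf_sec1 (-1) (by simp) y hpos)
    rintro ⟨-, h2⟩
    have h3 : (sec1 (-1) y : ℂ × ℂ × F).1.re = -√((rho y + y.2.1) / 2) := by
      simp [sec1]
    rw [h3] at h2
    have h4 : 0 < √((rho y + y.2.1) / 2) := Real.sqrt_pos.2 (by linarith)
    have h5 := d.C_nonneg (sec1 (-1) y : ℂ × ℂ × F).2.1 (sec1 (-1) y : ℂ × ℂ × F).2.2
    linarith
  · have h1 : rho y = -y.2.1 := by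
      have := neg_abs_le y.2.1
      linarith
    have hq0 : y.1 = 0 := by
      rw [h1] at hρ2
      have : ‖y.1‖ ^ 2 = 0 := by linarith
      exact norm_eq_zero.1 (pow_eq_zero_iff two_ne_zero |>.1 this)
    have hs : y.2.1 ≤ 0 := by
      have : 0 ≤ rho y := Real.sqrt_nonneg _
      linarith
    have hc : d.c (y.2.1, y.2.2) ≠ 0 := by
      rcases hy with hy | hy
      · exact absurd hq0 hy
      · exact hy
    have hsq : √(-y.2.1) ^ 2 = -y.2.1 := Real.sq_sqrt (by linarith)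
    have hnorm : ‖((√(-y.2.1) : ℝ) : ℂ)‖ ^ 2 = -y.2.1 := by
      rw [Complex.norm_of_nonneg (Real.sqrt_nonneg _), hsq]
    refine suff (0, ((√(-y.2.1) : ℝ) : ℂ), y.2.2) ?_ ?_
    · rintro ⟨-, h2⟩
      simp only [Dat.C, zero_re] at h2
      rw [hnorm, neg_neg] at h2
      exact hc (le_antisymm h2 (d.nonneg _))
    · unfold hopf
      refine Prod.ext ?_ (Prod.ext ?_ rfl)
      · simp only
        rw [zero_mul, hq0]
      · simp only
        rw [hnorm]
        simp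

end

end Pool.Agent.H.MP_c8cff9_gt.H93
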