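import Mathlib

/-!
# Ordered chains, cones, barycentric subdivision (purely combinatorial part)
-/

set_option autoImplicit false

open scoped BigOperators

namespace Pool.Agent.H.MP_c8cff9_gt.H93

/-- Chains of ordered tuples of `n` vertices in `P`. -/
abbrev OC (P : Type) (n : ℕ) : Type := (Fin n → P) →₀ ℤ

/-- The boundary of ordered chains (augmented in degree `0`). -/
noncomputable def ocd (P : Type) (n : ℕ) : OC P (n + 1) →ₗ[ℤ] OC P n :=
  ∑ i : Fin (n + 1), ((-1 : ℤ) ^ (i : ℕ)) •
    Finsupp.lmapDomain ℤ ℤ (fun v : Fin (n + 1) → P => v ∘ i.succAbove)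

/-- The cone with apex `b`. -/
noncomputable def cone {P : Type} (b : P) (n : ℕ) : OC P n →ₗ[ℤ] OC P (n + 1) :=
  Finsupp.lmapDomain ℤ ℤ (fun v : Fin n → P => (Fin.cons b v : Fin (n + 1) → P))

/-- The map induced on ordered chains. -/
noncomputable def omap {P Q : Type} (φ : P → Q) (n : ℕ) : OC P n →ₗ[ℤ] OC Q n :=
  Finsupp.lmapDomain ℤ ℤ (fun v : Fin n → P => φ ∘ v)

section
variable {P Q : Type}

lemma ocd_single (n : ℕ) (v : Fin (n + 1) → P) :
    ocd P n (Finsupp.single v 1) =
      ∑ i : Fin (n + 1), ((-1 : ℤ) ^ (i : ℕ)) • Finsupp.single (v ∘ i.succAbove) (1 : ℤ) := by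
  simp [ocd, LinearMap.sum_apply, Finsupp.lmapDomain_apply, Finsupp.mapDomain_single]

lemma cone_single (b : P) (n : ℕ) (v : Fin n → P) :
    cone b n (Finsupp.single v 1) = Finsupp.single (Fin.cons b v : Fin (n + 1) → P) (1 : ℤ) := by
  simp [cone, Finsupp.lmapDomain_apply, Finsupp.mapDomain_single]

lemma omap_single (φ : P → Q) (n : ℕ) (v : Fin n → P) :
    omap φ n (Finsupp.single v 1) = Finsupp.single (φ ∘ v) (1 : ℤ) := by
  simp [omap, Finsupp.lmapDomain_apply, Finsupp.mapDomain_single]

/-- Extensionality on generators. -/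
lemma oc_ext {α M : Type} [AddCommGroup M] {f g : (α →₀ ℤ) →ₗ[ℤ] M}
    (h : ∀ v, f (Finsupp.single v 1) = g (Finsupp.single v 1)) : f = g := by
  refine Finsupp.lhom_ext' fun v => LinearMap.ext_ring ?_
  simpa using h v

lemma ocd_cone_zero (b : P) (c : OC P 0) : ocd P 0 (cone b 0 c) = c := by
  have : (ocd P 0).comp (cone b 0) = LinearMap.id := by
    refine oc_ext fun v => ?_
    rw [LinearMap.comp_apply, cone_single, ocd_single, LinearMap.id_apply]
    rw [Fin.sum_univ_succ]
    simp only [Fin.val_zero, pow_zero, one_smul, Finset.univ_eq_empty, Finset.sum_empty, add_zero]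
    congr 1
  exact LinearMap.congr_fun this c

lemma ocd_cone (b : P) (n : ℕ) (c : OC P (n + 1)) :
    ocd P (n + 1) (cone b (n + 1) c) = c - cone b n (ocd P n c) := by
  have : (ocd P (n + 1)).comp (cone b (n + 1)) = LinearMap.id - (cone b n).comp (ocd P n) := by
    refine oc_ext fun v => ?_
    rw [LinearMap.comp_apply, cone_single, ocd_single, LinearMap.sub_apply, LinearMap.id_apply,
      LinearMap.comp_apply, ocd_single, map_sum, Fin.sum_univ_succ, sub_eq_add_neg,
      ← Finset.sum_neg_distrib]
    congr 1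
    · simp only [Fin.val_zero, pow_zero, one_smul]
      congr 1
    · refine Finset.sum_congr rfl fun i _ => ?_
      rw [map_smul, cone_single, Fin.val_succ, pow_succ, mul_neg_one, neg_smul]
      congr 3
      funext j
      refine Fin.cases ?_ (fun k => ?_) j
      · simp
      · simp
  exact LinearMap.congr_fun this c

lemma eq_cone (n : ℕ) (v : Fin (n + 1) → P) :
    Finsupp.single v (1 : ℤ) = cone (v 0) n (Finsupp.single (Fin.tail v) 1) := by
  rw [cone_single, Fin.cons_self_tail]

lemma ocd_ocd (n : ℕ) (c : OC P (n + 2)) : ocd P n (ocd P (n + 1) c) = 0 := by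
  have key : ∀ n : ℕ, (ocd P n).comp (ocd P (n + 1)) = 0 := by
    intro n
    clear c
    induction n with
    | zero =>
      refine oc_ext fun v => ?_
      rw [LinearMap.comp_apply, eq_cone, ocd_cone, map_sub, ocd_cone_zero, sub_self]
      rfl
    | succ n ih =>
      refine oc_ext fun v => ?_
      have ih' := LinearMap.congr_fun ih (Finsupp.single (Fin.tail v) 1)
      rw [LinearMap.comp_apply, LinearMap.zero_apply] at ih'
      rw [LinearMap.comp_apply, eq_cone, ocd_cone, map_sub, ocd_cone, ih', map_zero, sub_zero,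
        sub_self]
      rfl
  exact LinearMap.congr_fun (key n) c

lemma omap_cone (φ : P → Q) (b : P) (n : ℕ) (c : OC P n) :
    omap φ (n + 1) (cone b n c) = cone (φ b) n (omap φ n c) := by
  have : (omap φ (n + 1)).comp (cone b n) = (cone (φ b) n).comp (omap φ n) := by
    refine oc_ext fun v => ?_
    rw [LinearMap.comp_apply, LinearMap.comp_apply, cone_single, omap_single, omap_single,
      cone_single]
    congr 1
    funext j
    refine Fin.cases ?_ (fun k => ?_) j <;> simp
  exact LinearMap.congr_fun this c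

lemma omap_ocd (φ : P → Q) (n : ℕ) (c : OC P (n + 1)) :
    omap φ n (ocd P n c) = ocd Q n (omap φ (n + 1) c) := by
  have : (omap φ n).comp (ocd P n) = (ocd Q n).comp (omap φ (n + 1)) := by
    refine oc_ext fun v => ?_
    rw [LinearMap.comp_apply, LinearMap.comp_apply, ocd_single, omap_single, ocd_single, map_sum]
    refine Finset.sum_congr rfl fun i _ => ?_
    rw [map_smul, omap_single]
    rfl
  exact LinearMap.congr_fun this c

/-- Barycentric subdivision for a choice `β` of barycenters. -/
noncomputable def sd (β : ∀ n : ℕ, (Fin (n + 1) → P) → P) : ∀ n : ℕ, OC P n →ₗ[ℤ] OC P n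
  | 0 => LinearMap.id
  | n + 1 => Finsupp.linearCombination ℤ
      (fun v : Fin (n + 1) → P => cone (β n v) n (sd β n (ocd P n (Finsupp.single v 1))))

/-- The chain homotopy between the identity and the subdivision. -/
noncomputable def sdT (β : ∀ n : ℕ, (Fin (n + 1) → P) → P) :
    ∀ n : ℕ, OC P n →ₗ[ℤ] OC P (n + 1)
  | 0 => 0
  | n + 1 => Finsupp.linearCombination ℤ
      (fun v : Fin (n + 1) → P => cone (β n v) (n + 1)
        (Finsupp.single v 1 - sdT β n (ocd P n (Finsupp.single v 1))))

variable (β : ∀ n : ℕ, (Fin (n + 1) → P) → P)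

lemma sd_zero (c : OC P 0) : sd β 0 c = c := rfl

lemma sdT_zero (c : OC P 0) : sdT β 0 c = 0 := rfl

lemma sd_single (n : ℕ) (v : Fin (n + 1) → P) :
    sd β (n + 1) (Finsupp.single v 1) =
      cone (β n v) n (sd β n (ocd P n (Finsupp.single v 1))) := by
  rw [sd, Finsupp.linearCombination_single, one_smul]

lemma sdT_single (n : ℕ) (v : Fin (n + 1) → P) :
    sdT β (n + 1) (Finsupp.single v 1) = cone (β n v) (n + 1)
        (Finsupp.single v 1 - sdT β n (ocd P n (Finsupp.single v 1))) := by
  rw [sdT, Finsupp.linearCombination_single, one_smul]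

lemma ocd_sd (n : ℕ) : ∀ (c : OC P (n + 1)), ocd P n (sd β (n + 1) c) = sd β n (ocd P n c) := by
  induction n with
  | zero =>
    intro c
    have : (ocd P 0).comp (sd β 1) = (sd β 0).comp (ocd P 0) := by
      refine oc_ext fun v => ?_
      rw [LinearMap.comp_apply, LinearMap.comp_apply, sd_single, ocd_cone_zero]
    exact LinearMap.congr_fun this c
  | succ n ih =>
    intro c
    have : (ocd P (n + 1)).comp (sd β (n + 2)) = (sd β (n + 1)).comp (ocd P (n + 1)) := by
      refine oc_ext fun v => ?_
      rw [LinearMap.comp_apply, LinearMap.comp_apply, sd_single, ocd_cone, ih, ocd_ocd, map_zero,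
        map_zero, sub_zero]
    exact LinearMap.congr_fun this c

lemma ocd_sdT (n : ℕ) : ∀ (c : OC P (n + 1)),
    ocd P (n + 1) (sdT β (n + 1) c) = c - sd β (n + 1) c - sdT β n (ocd P n c) := by
  induction n with
  | zero =>
    intro c
    have : (ocd P 1).comp (sdT β 1) =
        LinearMap.id - sd β 1 - (sdT β 0).comp (ocd P 0) := by
      refine oc_ext fun v => ?_
      rw [LinearMap.comp_apply, sdT_single, ocd_cone, LinearMap.sub_apply, LinearMap.sub_apply,
        LinearMap.comp_apply, LinearMap.id_apply, sd_single, sd_zero, map_sub, sdT_zero, map_zero,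
        sub_zero, sub_zero, sub_zero]
    exact LinearMap.congr_fun this c
  | succ n ih =>
    intro c
    have : (ocd P (n + 2)).comp (sdT β (n + 2)) =
        LinearMap.id - sd β (n + 2) - (sdT β (n + 1)).comp (ocd P (n + 1)) := by
      refine oc_ext fun v => ?_
      rw [LinearMap.comp_apply, sdT_single, ocd_cone, LinearMap.sub_apply, LinearMap.sub_apply,
        LinearMap.comp_apply, LinearMap.id_apply, sd_single]
      set w := ocd P (n + 1) (Finsupp.single v (1 : ℤ)) with hw
      have h1 : ocd P (n + 1) (Finsupp.single v 1 - sdT β (n + 1) w) = sd β (n + 1) w := by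
        rw [map_sub, ih, ← hw, hw, ocd_ocd, map_zero, sub_zero, sub_sub_cancel]
      rw [h1]
      abel
    exact LinearMap.congr_fun this c

/-- Naturality of the subdivision. -/
lemma omap_sd {Q : Type} (β' : ∀ n : ℕ, (Fin (n + 1) → Q) → Q) (φ : P → Q)
    (hφ : ∀ n v, φ (β n v) = β' n (φ ∘ v)) (n : ℕ) :
    ∀ c : OC P n, omap φ n (sd β n c) = sd β' n (omap φ n c) := by
  induction n with
  | zero => intro c; rfl
  | succ n ih =>
    intro c
    have : (omap φ (n + 1)).comp (sd β (n + 1)) = (sd β' (n + 1)).comp (omap φ (n + 1)) := by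
      refine oc_ext fun v => ?_
      rw [LinearMap.comp_apply, LinearMap.comp_apply, sd_single, omap_cone, ih, omap_ocd,
        omap_single, sd_single, hφ]
    exact LinearMap.congr_fun this c

lemma omap_sdT {Q : Type} (β' : ∀ n : ℕ, (Fin (n + 1) → Q) → Q) (φ : P → Q)
    (hφ : ∀ n v, φ (β n v) = β' n (φ ∘ v)) (n : ℕ) :
    ∀ c : OC P n, omap φ (n + 1) (sdT β n c) = sdT β' n (omap φ n c) := by
  induction n with
  | zero => intro c; rw [sdT_zero, sdT_zero, map_zero]
  | succ n ih =>
    intro c
    have : (omap φ (n + 2)).comp (sdT β (n + 1)) = (sdT β' (n + 1)).comp (omap φ (n + 1)) := by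
      refine oc_ext fun v => ?_
      rw [LinearMap.comp_apply, LinearMap.comp_apply, sdT_single, omap_cone, map_sub, ih, omap_ocd,
        omap_single, sdT_single, hφ]
    exact LinearMap.congr_fun this c

end

/-- A linear map sends chains supported on `S` into `N` if it does so on generators. -/
lemma map_supported {α M : Type} [AddCommGroup M] (f : (α →₀ ℤ) →ₗ[ℤ] M) (S : Set α)
    (N : Submodule ℤ M) (h : ∀ v ∈ S, f (Finsupp.single v 1) ∈ N) (c : α →₀ ℤ)
    (hc : c ∈ Finsupp.supported ℤ ℤ S) : f c ∈ N := by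
  rw [Finsupp.supported_eq_span_single] at hc
  have : Submodule.span ℤ ((fun i => Finsupp.single i (1 : ℤ)) '' S) ≤ N.comap f := by
    rw [Submodule.span_le]
    rintro _ ⟨v, hv, rfl⟩
    exact h v hv
  exact this hc

end Pool.Agent.H.MP_c8cff9_gt.H93
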