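import Pool.Agent.H.MP_c8cff9_gt.H93.Subdiv

/-!
# The small simplices theorem
-/

set_option autoImplicit false

open scoped BigOperators

namespace Pool.Agent.H.MP_c8cff9_gt.H93

/-- Singular simplices contained in one member of `U`. -/
def smallSet (n : ℕ) {X : Type} [TopologicalSpace X] (U : Set (Set X)) : Set (Sing n X) :=
  {σ | ∃ u ∈ U, ∀ t, σ t ∈ u}

/-- Small chains. -/
noncomputable abbrev Sm (n : ℕ) {X : Type} [TopologicalSpace X] (U : Set (Set X)) :
    Submodule ℤ (Ch n X) :=
  Finsupp.supported ℤ ℤ (smallSet n U)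

section
variable {X : Type} [TopologicalSpace X] (U : Set (Set X))

lemma push_mem_Sm {m n : ℕ} (σ : Sing m X) (hσ : σ ∈ smallSet m U) (c : Ch n (Del m)) :
    push σ n c ∈ Sm n U := by
  refine map_supported (push σ n) Set.univ _ ?_ c (by rw [Finsupp.supported_univ]; trivial)
  intro τ _
  rw [push_single]
  refine Finsupp.single_mem_supported ℤ 1 ?_
  obtain ⟨u, hu, h⟩ := hσ
  exact ⟨u, hu, fun t => h _⟩

lemma SD_mem_Sm (n : ℕ) (c : Ch n X) (hc : c ∈ Sm n U) : SD n X c ∈ Sm n U := by
  refine map_supported _ _ _ ?_ c hc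
  intro σ hσ
  rw [SD_single]
  exact push_mem_Sm U σ hσ _

lemma TT_mem_Sm (n : ℕ) (c : Ch n X) (hc : c ∈ Sm n U) : TT n X c ∈ Sm (n + 1) U := by
  refine map_supported _ _ _ ?_ c hc
  intro σ hσ
  rw [TT_single]
  exact push_mem_Sm U σ hσ _

lemma SD_iter_mem_Sm (n : ℕ) (c : Ch n X) (hc : c ∈ Sm n U) (k : ℕ) :
    (SD n X)^[k] c ∈ Sm n U := by
  induction k with
  | zero => exact hc
  | succ k ih =>
    rw [Function.iterate_succ_apply']
    exact SD_mem_Sm U n _ ih

lemma iter_push (n m k : ℕ) (σ : Sing m X) (c : Ch n (Del m)) :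
    (SD n X)^[k] (push σ n c) = push σ n ((SD n (Del m))^[k] c) := by
  induction k with
  | zero => rfl
  | succ k ih => rw [Function.iterate_succ_apply', Function.iterate_succ_apply', ih, push_SD]

lemma iter_real (n m k : ℕ) (c : OC (Del m) (n + 1)) :
    (SD n (Del m))^[k] (real (convex_del m) n c) =
      real (convex_del m) n ((sd (bar m) (n + 1))^[k] c) := by
  induction k with
  | zero => rfl
  | succ k ih =>
    rw [Function.iterate_succ_apply', Function.iterate_succ_apply', ih, SD_real]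

lemma single_eq_push_real (n : ℕ) (σ : Sing n X) :
    Finsupp.single σ (1 : ℤ) = push σ n (real (convex_del n) n (Finsupp.single (vtx n) 1)) := by
  rw [real_single, push_single, aff_vertices]
  rfl

lemma vtx_tight (n : ℕ) : vtx n ∈ tight (stdSimplex ℝ (Fin (n + 1))) (n + 1) 2 := by
  intro i j
  have h1 : ∀ i, ‖((vtx n i : Del n).1 : Fin (n + 1) → ℝ)‖ ≤ 1 := by
    intro i
    have := stdSimplex_subset_closedBall (vtx n i).2
    rwa [mem_closedBall_zero_iff] at this
  refine (norm_sub_le _ _).trans ?_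
  linarith [h1 i, h1 j]

lemma aff_near {m : ℕ} {n : ℕ} (w : Fin (n + 1) → Del m) (r : ℝ)
    (hw : w ∈ tight (stdSimplex ℝ (Fin (m + 1))) (n + 1) r) (t : Del n) :
    dist (aff (convex_del m) w t) (w 0) ≤ r := by
  rw [Subtype.dist_eq, aff_coe]
  have h1 : (∑ i, (t i) • ((w i : Del m).1 : Fin (m + 1) → ℝ)) ∈
      Metric.closedBall ((w 0).1 : Fin (m + 1) → ℝ) r := by
    refine (convex_closedBall _ _).sum_mem (fun i _ => stdSimplex.zero_le t i)
      (stdSimplex.sum_eq_one t) fun i _ => ?_
    rw [Metric.mem_closedBall, dist_eq_norm]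
    exact hw i 0
  exact Metric.mem_closedBall.1 h1

lemma exists_iter_small (hU : ∀ u ∈ U, IsOpen u) (hcov : ⋃₀ U = Set.univ) (n : ℕ)
    (σ : Sing n X) : ∃ k, (SD n X)^[k] (Finsupp.single σ (1 : ℤ)) ∈ Sm n U := by
  obtain ⟨δ, hδ, hleb⟩ := lebesgue_number_lemma_of_metric (s := (Set.univ : Set (Del n)))
    (c := fun u : U => σ ⁻¹' (u : Set X)) isCompact_univ
    (fun u => (hU u u.2).preimage σ.continuous) (by
      intro t _
      have : σ t ∈ ⋃₀ U := by rw [hcov]; trivial
      obtain ⟨u, hu, ht⟩ := this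
      exact Set.mem_iUnion.2 ⟨⟨u, hu⟩, ht⟩)
  have hq0 : (0 : ℝ) ≤ (n : ℝ) / (n + 1) := by positivity
  have hq1 : (n : ℝ) / (n + 1) < 1 := by
    rw [div_lt_one (by positivity)]
    linarith
  obtain ⟨k, hk⟩ := exists_pow_lt_of_lt_one (show (0 : ℝ) < δ / 2 by positivity) hq1
  refine ⟨k, ?_⟩
  rw [single_eq_push_real, iter_push, iter_real]
  have h1 := sd_iter_tight (convex_del n) n 2 (Finsupp.single (vtx n) 1)
    (Finsupp.single_mem_supported ℤ 1 (vtx_tight n)) k
  set c := (sd (bary (convex_del n)) (n + 1))^[k] (Finsupp.single (vtx n) 1) with hc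
  change push σ n (real (convex_del n) n c) ∈ Sm n U
  have h2 : ((push σ n).comp (real (convex_del n) n)) c ∈ Sm n U := by
    refine map_supported _ _ _ ?_ c h1
    intro w hw
    rw [LinearMap.comp_apply, real_single, push_single]
    refine Finsupp.single_mem_supported ℤ 1 ?_
    obtain ⟨u, hu⟩ := hleb (w 0) trivial
    refine ⟨u, u.2, fun t => ?_⟩
    refine hu ?_
    rw [Metric.mem_ball]
    refine (aff_near w _ hw t).trans_lt ?_
    linarith
  exact h2

theorem exists_iter_small' (hU : ∀ u ∈ U, IsOpen u) (hcov : ⋃₀ U = Set.univ) (n : ℕ)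
    (c : Ch n X) : ∃ k, (SD n X)^[k] c ∈ Sm n U := by
  have hadd : ∀ (k : ℕ) (a b : Ch n X), (SD n X)^[k] (a + b) = (SD n X)^[k] a + (SD n X)^[k] b := by
    intro k
    induction k with
    | zero => intro a b; rfl
    | succ k ih =>
      intro a b
      rw [Function.iterate_succ_apply, map_add, ih, Function.iterate_succ_apply,
        Function.iterate_succ_apply]
  have hsmul : ∀ (k : ℕ) (m : ℤ) (a : Ch n X), (SD n X)^[k] (m • a) = m • (SD n X)^[k] a := by
    intro k
    induction k with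
    | zero => intro m a; rfl
    | succ k ih =>
      intro m a
      rw [Function.iterate_succ_apply, map_smul, ih, Function.iterate_succ_apply]
  induction c using Finsupp.induction_linear with
  | zero =>
    refine ⟨0, ?_⟩
    exact Submodule.zero_mem _
  | add a b ha hb =>
    obtain ⟨k, hk⟩ := ha
    obtain ⟨l, hl⟩ := hb
    refine ⟨k + l, ?_⟩
    rw [hadd]
    refine Submodule.add_mem _ ?_ ?_
    · rw [Nat.add_comm, Function.iterate_add_apply]
      exact SD_iter_mem_Sm U n _ hk l
    · rw [Function.iterate_add_apply]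
      exact SD_iter_mem_Sm U n _ hl k
  | single σ m =>
    obtain ⟨k, hk⟩ := exists_iter_small U hU hcov n σ
    refine ⟨k, ?_⟩
    have : Finsupp.single σ m = m • Finsupp.single σ (1 : ℤ) := by
      rw [Finsupp.smul_single, smul_eq_mul, mul_one]
    rw [this, hsmul]
    exact Submodule.smul_mem _ _ hk

lemma bd_iter (n k : ℕ) (c : Ch (n + 1) X) :
    bd n X ((SD (n + 1) X)^[k] c) = (SD n X)^[k] (bd n X c) := by
  induction k with
  | zero => rfl
  | succ k ih => rw [Function.iterate_succ_apply', Function.iterate_succ_apply', bd_SD, ih]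

/-- A small cycle which is a boundary is the boundary of a small chain. -/
theorem small_of_boundary (hU : ∀ u ∈ U, IsOpen u) (hcov : ⋃₀ U = Set.univ) (n : ℕ)
    (z : Ch (n + 1) X) (hz : z ∈ Sm (n + 1) U) (hdz : bd n X z = 0)
    (y : Ch (n + 2) X) (hy : bd (n + 1) X y = z) :
    ∃ y' ∈ Sm (n + 2) U, bd (n + 1) X y' = z := by
  obtain ⟨k, hk⟩ := exists_iter_small' U hU hcov (n + 2) y
  have key : ∀ k : ℕ, ∃ h ∈ Sm (n + 2) U, bd (n + 1) X h = z - (SD (n + 1) X)^[k] z := by
    intro k
    induction k with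
    | zero =>
      refine ⟨0, Submodule.zero_mem _, ?_⟩
      rw [map_zero, Function.iterate_zero_apply, sub_self]
    | succ k ih =>
      obtain ⟨h, hh, hb⟩ := ih
      refine ⟨h + TT (n + 1) X ((SD (n + 1) X)^[k] z), Submodule.add_mem _ hh
        (TT_mem_Sm U _ _ (SD_iter_mem_Sm U _ _ hz k)), ?_⟩
      have hd0 : bd n X ((SD (n + 1) X)^[k] z) = 0 := by
        rw [bd_iter, hdz]
        clear hb hh
        induction k with
        | zero => rfl
        | succ k ihk => rw [Function.iterate_succ_apply, map_zero, ihk]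
      rw [map_add, hb, bd_TT, hd0, map_zero, sub_zero, Function.iterate_succ_apply']
      abel
  obtain ⟨h, hh, hb⟩ := key k
  refine ⟨(SD (n + 2) X)^[k] y + h, Submodule.add_mem _ hk hh, ?_⟩
  rw [map_add, bd_iter, hy, hb]
  abel

end

end Pool.Agent.H.MP_c8cff9_gt.H93
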