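import Pool.Agent.H.MP_c8cff9_gt.H93.Affine

/-!
# Barycentric subdivision of singular chains and the small simplices theorem
-/

set_option autoImplicit false

open scoped BigOperators

namespace Pool.Agent.H.MP_c8cff9_gt.H93

/-- barycenters in the standard simplex -/
noncomputable abbrev bar (m : ℕ) : ∀ n : ℕ, (Fin (n + 1) → Del m) → Del m :=
  fun n => bary (convex_del m) n

/-- Barycentric subdivision of singular chains. -/
noncomputable def SD (n : ℕ) (X : Type) [TopologicalSpace X] : Ch n X →ₗ[ℤ] Ch n X :=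
  Finsupp.linearCombination ℤ (fun σ : Sing n X =>
    push σ n (real (convex_del n) n (sd (bar n) (n + 1) (Finsupp.single (vtx n) 1))))

/-- The homotopy. -/
noncomputable def TT (n : ℕ) (X : Type) [TopologicalSpace X] : Ch n X →ₗ[ℤ] Ch (n + 1) X :=
  Finsupp.linearCombination ℤ (fun σ : Sing n X =>
    push σ (n + 1) (real (convex_del n) (n + 1) (sdT (bar n) (n + 1) (Finsupp.single (vtx n) 1))))

section
variable {X Y : Type} [TopologicalSpace X] [TopologicalSpace Y]

lemma SD_single (n : ℕ) (σ : Sing n X) : SD n X (Finsupp.single σ 1) =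
    push σ n (real (convex_del n) n (sd (bar n) (n + 1) (Finsupp.single (vtx n) 1))) := by
  rw [SD, Finsupp.linearCombination_single, one_smul]

lemma TT_single (n : ℕ) (σ : Sing n X) : TT n X (Finsupp.single σ 1) =
    push σ (n + 1)
      (real (convex_del n) (n + 1) (sdT (bar n) (n + 1) (Finsupp.single (vtx n) 1))) := by
  rw [TT, Finsupp.linearCombination_single, one_smul]

lemma push_SD (f : C(X, Y)) (n : ℕ) (c : Ch n X) : push f n (SD n X c) = SD n Y (push f n c) := by
  have : (push f n).comp (SD n X) = (SD n Y).comp (push f n) := by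
    refine oc_ext fun σ => ?_
    rw [LinearMap.comp_apply, LinearMap.comp_apply, SD_single, push_single, SD_single, push_push]
  exact LinearMap.congr_fun this c

end

section
variable {E : Type} [NormedAddCommGroup E] [NormedSpace ℝ E] {K : Set E} (hK : Convex ℝ K)

lemma aff_comp_vtx {n : ℕ} (v : Fin (n + 1) → K) : (aff hK v : Del n → K) ∘ vtx n = v := by
  funext i
  exact aff_vtx hK v i

lemma SD_real (n : ℕ) (c : OC K (n + 1)) :
    SD n K (real hK n c) = real hK n (sd (bary hK) (n + 1) c) := by
  have : (SD n K).comp (real hK n) = (real hK n).comp (sd (bary hK) (n + 1)) := by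
    refine oc_ext fun v => ?_
    rw [LinearMap.comp_apply, LinearMap.comp_apply, real_single, SD_single, push_aff_real,
      omap_sd (bar n) (bary hK) (aff hK v) (fun k u => bary_aff hK v k u), omap_single,
      aff_comp_vtx]
  exact LinearMap.congr_fun this c

end

section
variable {X Y : Type} [TopologicalSpace X] [TopologicalSpace Y]

/-- boundary of the `i`-th face in terms of pushing along `del` -/
lemma push_comp_del_real (n : ℕ) (σ : Sing (n + 1) X) (i : Fin (n + 2)) :
    push (σ.comp (del n i)) n (real (convex_del n) n (sd (bar n) (n + 1)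
      (Finsupp.single (vtx n) 1))) =
    push σ n (real (convex_del (n + 1)) n (sd (bar (n + 1)) (n + 1)
      (Finsupp.single (vtx (n + 1) ∘ i.succAbove) 1))) := by
  rw [← push_push, del_eq_aff, push_aff_real,
    omap_sd (bar n) (bar (n + 1)) _ (fun k u => bary_aff _ _ k u), omap_single, aff_comp_vtx]

lemma push_comp_del_realT (n : ℕ) (σ : Sing (n + 1) X) (i : Fin (n + 2)) :
    push (σ.comp (del n i)) (n + 1) (real (convex_del n) (n + 1) (sdT (bar n) (n + 1)
      (Finsupp.single (vtx n) 1))) =
    push σ (n + 1) (real (convex_del (n + 1)) (n + 1) (sdT (bar (n + 1)) (n + 1)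
      (Finsupp.single (vtx (n + 1) ∘ i.succAbove) 1))) := by
  rw [← push_push, del_eq_aff, push_aff_real,
    omap_sdT (bar n) (bar (n + 1)) _ (fun k u => bary_aff _ _ k u), omap_single, aff_comp_vtx]

lemma bd_SD (n : ℕ) (c : Ch (n + 1) X) : bd n X (SD (n + 1) X c) = SD n X (bd n X c) := by
  have : (bd n X).comp (SD (n + 1) X) = (SD n X).comp (bd n X) := by
    refine oc_ext fun σ => ?_
    rw [LinearMap.comp_apply, LinearMap.comp_apply, SD_single, ← push_bd, bd_real, ocd_sd,
      ocd_single, bd_single, map_sum, map_sum, map_sum, map_sum]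
    refine Finset.sum_congr rfl fun i _ => ?_
    rw [map_smul, map_smul, map_smul, map_smul, SD_single, push_comp_del_real]
  exact LinearMap.congr_fun this c

lemma bd_TT (n : ℕ) (c : Ch (n + 1) X) :
    bd (n + 1) X (TT (n + 1) X c) = c - SD (n + 1) X c - TT n X (bd n X c) := by
  have : (bd (n + 1) X).comp (TT (n + 1) X) =
      LinearMap.id - SD (n + 1) X - (TT n X).comp (bd n X) := by
    refine oc_ext fun σ => ?_
    rw [LinearMap.comp_apply, LinearMap.sub_apply, LinearMap.sub_apply, LinearMap.comp_apply,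
      LinearMap.id_apply, TT_single, SD_single, ← push_bd, bd_real, ocd_sdT, map_sub, map_sub,
      map_sub, map_sub, real_single, push_single, aff_vertices]
    have h1 : σ.comp (ContinuousMap.id (Del (n + 1))) = σ := rfl
    rw [h1]
    congr 1
    rw [ocd_single, bd_single, map_sum, map_sum, map_sum, map_sum]
    refine Finset.sum_congr rfl fun i _ => ?_
    rw [map_smul, map_smul, map_smul, map_smul, TT_single, push_comp_del_realT]
  exact LinearMap.congr_fun this c

end

/-! ### Diameter estimates -/

section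
variable {E : Type} [NormedAddCommGroup E] [NormedSpace ℝ E] {K : Set E} (hK : Convex ℝ K)

/-- tuples with all mutual distances at most `r` -/
def tight (K : Set E) (n : ℕ) (r : ℝ) : Set (Fin n → K) :=
  {v | ∀ i j, ‖((v i : K) : E) - v j‖ ≤ r}

lemma bary_coe (n : ℕ) (v : Fin (n + 1) → K) :
    ((bary hK n v : K) : E) = ∑ i, ((n : ℝ) + 1)⁻¹ • (v i : E) := by
  rw [bary, aff_coe]
  refine Finset.sum_congr rfl fun i _ => ?_
  congr 1
  change (stdSimplex.barycenter : stdSimplex ℝ (Fin (n + 1))).val i = _
  rw [stdSimplex.barycenter_apply, Fintype.card_fin]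
  push_cast
  rfl

lemma norm_bary_sub (n : ℕ) (v : Fin (n + 1) → K) (r : ℝ) (hv : v ∈ tight K (n + 1) r)
    (k : Fin (n + 1)) : ‖((bary hK n v : K) : E) - v k‖ ≤ (n : ℝ) / (n + 1) * r := by
  have hpos : (0 : ℝ) < (n : ℝ) + 1 := by positivity
  have h1 : ((bary hK n v : K) : E) - v k = ∑ i, ((n : ℝ) + 1)⁻¹ • ((v i : E) - v k) := by
    rw [bary_coe]
    simp only [smul_sub, Finset.sum_sub_distrib, Finset.sum_const, Finset.card_univ,
      Fintype.card_fin]
    congr 1
    rw [← Nat.cast_smul_eq_nsmul ℝ, smul_smul]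
    push_cast
    rw [mul_inv_cancel₀ hpos.ne', one_smul]
  rw [h1, ← Finset.add_sum_erase _ _ (Finset.mem_univ k), sub_self, smul_zero, zero_add]
  calc ‖∑ i ∈ Finset.univ.erase k, ((n : ℝ) + 1)⁻¹ • ((v i : E) - v k)‖
      ≤ ∑ i ∈ Finset.univ.erase k, ‖((n : ℝ) + 1)⁻¹ • ((v i : E) - v k)‖ := norm_sum_le _ _
    _ ≤ ∑ _i ∈ Finset.univ.erase k, ((n : ℝ) + 1)⁻¹ * r := by
        refine Finset.sum_le_sum fun i _ => ?_
        rw [norm_smul, Real.norm_of_nonneg (by positivity)]
        exact mul_le_mul_of_nonneg_left (hv i k) (by positivity)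
    _ = (n : ℝ) / (n + 1) * r := by
        rw [Finset.sum_const, Finset.card_erase_of_mem (Finset.mem_univ k), Finset.card_univ,
          Fintype.card_fin]
        simp only [Nat.add_sub_cancel, nsmul_eq_mul]
        field_simp

/-- The tuples occurring in the subdivision of `v`. -/
def subTuples (n : ℕ) (v : Fin n → K) (r : ℝ) : Set (Fin n → K) :=
  {w | w ∈ tight K n (((n : ℝ) - 1) / n * r) ∧
    ∀ j, ((w j : K) : E) ∈ convexHull ℝ (Set.range fun i => ((v i : K) : E))}

lemma sd_subTuples (n : ℕ) : ∀ (v : Fin n → K) (r : ℝ), v ∈ tight K n r →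
    sd (bary hK) n (Finsupp.single v 1) ∈ Finsupp.supported ℤ ℤ (subTuples n v r) := by
  induction n with
  | zero =>
    intro v r _
    rw [sd_zero]
    refine Finsupp.single_mem_supported ℤ 1 ?_
    exact ⟨fun i => i.elim0, fun i => i.elim0⟩
  | succ n ih =>
    intro v r hv
    rw [sd_single, ocd_single, map_sum, map_sum]
    refine Submodule.sum_mem _ fun i _ => ?_
    rw [map_smul, map_smul]
    refine Submodule.smul_mem _ _ ?_
    have hvi : v ∘ i.succAbove ∈ tight K n r := fun a b => hv _ _
    refine map_supported (cone (bary hK n v) n) _ _ ?_ _ (ih _ r hvi)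
    rintro w ⟨hw1, hw2⟩
    rw [cone_single]
    refine Finsupp.single_mem_supported ℤ 1 ?_
    have hr : 0 ≤ r := (norm_nonneg _).trans (hv 0 0)
    have hsub : (Set.range fun a => (((v ∘ i.succAbove) a : K) : E)) ⊆
        Set.range fun a => ((v a : K) : E) := by
      rintro _ ⟨a, rfl⟩
      exact ⟨_, rfl⟩
    have hw3 : ∀ j, ((w j : K) : E) ∈ convexHull ℝ (Set.range fun a => ((v a : K) : E)) :=
      fun j => convexHull_mono hsub (hw2 j)
    have hbw : ∀ j, ‖((bary hK n v : K) : E) - w j‖ ≤ (n : ℝ) / (n + 1) * r := by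
      intro j
      have hcb : convexHull ℝ (Set.range fun a => ((v a : K) : E)) ⊆
          Metric.closedBall ((bary hK n v : K) : E) ((n : ℝ) / (n + 1) * r) := by
        refine convexHull_min ?_ (convex_closedBall _ _)
        rintro _ ⟨a, rfl⟩
        rw [Metric.mem_closedBall, dist_comm, dist_eq_norm]
        exact norm_bary_sub hK n v r hv a
      have := hcb (hw3 j)
      rwa [Metric.mem_closedBall, dist_comm, dist_eq_norm] at this
    have hratio : (((n + 1 : ℕ) : ℝ) - 1) / ((n + 1 : ℕ) : ℝ) * r = (n : ℝ) / (n + 1) * r := by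
      push_cast
      ring
    have hww : ∀ a b, ‖((w a : K) : E) - w b‖ ≤ (n : ℝ) / (n + 1) * r := by
      intro a b
      refine (hw1 a b).trans ?_
      refine mul_le_mul_of_nonneg_right ?_ hr
      have hn : 0 < n := by
        rcases Nat.eq_zero_or_pos n with h | h
        · subst h; exact a.elim0
        · exact h
      have hn' : (0 : ℝ) < n := by exact_mod_cast hn
      rw [div_le_div_iff₀ hn' (by positivity)]
      nlinarith
    refine ⟨?_, ?_⟩
    · rw [hratio]
      intro a b
      refine Fin.cases ?_ (fun a' => ?_) a <;> refine Fin.cases ?_ (fun b' => ?_) b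
      · simp only [Fin.cons_zero, sub_self, norm_zero]
        positivity
      · simp only [Fin.cons_zero, Fin.cons_succ]
        exact hbw b'
      · simp only [Fin.cons_zero, Fin.cons_succ]
        rw [norm_sub_rev]
        exact hbw a'
      · simp only [Fin.cons_succ]
        exact hww a' b'
    · intro j
      refine Fin.cases ?_ (fun j' => ?_) j
      · simp only [Fin.cons_zero]
        rw [bary_coe]
        refine (convex_convexHull ℝ _).sum_mem (fun i _ => by positivity) ?_
          (fun i _ => subset_convexHull ℝ _ ⟨i, rfl⟩)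
        simp only [Finset.sum_const, Finset.card_univ, Fintype.card_fin, nsmul_eq_mul]
        push_cast
        have : (n : ℝ) + 1 ≠ 0 := by positivity
        field_simp
      · simp only [Fin.cons_succ]
        exact hw3 j'

lemma sd_tight (n : ℕ) (r : ℝ) (c : OC K (n + 1))
    (hc : c ∈ Finsupp.supported ℤ ℤ (tight K (n + 1) r)) :
    sd (bary hK) (n + 1) c ∈ Finsupp.supported ℤ ℤ (tight K (n + 1) ((n : ℝ) / (n + 1) * r)) := by
  refine map_supported _ _ _ ?_ c hc
  intro v hv
  have h := sd_subTuples hK (n + 1) v r hv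
  refine Finsupp.supported_mono ?_ h
  rintro w ⟨hw, _⟩
  have hratio : (((n + 1 : ℕ) : ℝ) - 1) / ((n + 1 : ℕ) : ℝ) * r = (n : ℝ) / (n + 1) * r := by
    push_cast
    ring
  rwa [hratio] at hw

lemma sd_iter_tight (n : ℕ) (r : ℝ) (c : OC K (n + 1))
    (hc : c ∈ Finsupp.supported ℤ ℤ (tight K (n + 1) r)) (k : ℕ) :
    (sd (bary hK) (n + 1))^[k] c ∈
      Finsupp.supported ℤ ℤ (tight K (n + 1) (((n : ℝ) / (n + 1)) ^ k * r)) := by
  induction k with
  | zero => simpa using hc
  | succ k ih =>
    rw [Function.iterate_succ_apply', pow_succ', mul_assoc]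
    exact sd_tight hK n _ _ ih

end

end Pool.Agent.H.MP_c8cff9_gt.H93
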