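import Pool.Agent.H.MP_c8cff9_gt.H93.Small

/-!
# Two-torsion classes and the suspension lemma
-/

set_option autoImplicit false

open scoped BigOperators

namespace Pool.Agent.H.MP_c8cff9_gt.H93

/-- `H_{n+1}(X; ℤ)` contains a nonzero class killed by `2`. -/
def HasTors (n : ℕ) (X : Type) [TopologicalSpace X] : Prop :=
  ∃ z : Ch (n + 1) X, bd n X z = 0 ∧ (∃ y, bd (n + 1) X y = (2 : ℤ) • z) ∧
    ¬ ∃ y, bd (n + 1) X y = z

/-- `H_{n+1}(X; ℤ) = 0`. -/
def Acyc (n : ℕ) (X : Type) [TopologicalSpace X] : Prop :=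
  ∀ z : Ch (n + 1) X, bd n X z = 0 → ∃ y, bd (n + 1) X y = z

section
variable {X Y : Type} [TopologicalSpace X] [TopologicalSpace Y]

lemma bd_bd (n : ℕ) (c : Ch (n + 2) X) : bd n X (bd (n + 1) X c) = 0 := by
  have : (bd n X).comp (bd (n + 1) X) = 0 := by
    refine oc_ext fun σ => ?_
    rw [LinearMap.comp_apply, single_eq_push_real, ← push_bd, ← push_bd, bd_real, bd_real, ocd_ocd,
      map_zero, map_zero, LinearMap.zero_apply]
  exact LinearMap.congr_fun this c

/-- Torsion passes to spaces of which `X` is a retract. -/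
lemma HasTors.of_retract {n : ℕ} (h : HasTors n X) (i : C(X, Y)) (r : C(Y, X))
    (hri : r.comp i = ContinuousMap.id X) : HasTors n Y := by
  obtain ⟨z, hz, ⟨y, hy⟩, hn⟩ := h
  refine ⟨push i (n + 1) z, ?_, ⟨push i (n + 2) y, ?_⟩, ?_⟩
  · rw [← push_bd, hz, map_zero]
  · rw [← push_bd, hy, map_smul]
  · rintro ⟨w, hw⟩
    refine hn ⟨push r (n + 2) w, ?_⟩
    rw [← push_bd, hw, push_push, hri, push_id]

lemma push_injective {f : C(X, Y)} (hf : Function.Injective f) (n : ℕ) :
    Function.Injective (push f n) := by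
  refine Finsupp.mapDomain_injective ?_
  intro σ τ h
  ext t
  exact hf (DFunLike.congr_fun h t)

end

section
variable {X : Type} [TopologicalSpace X]

/-- inclusion of a subspace -/
def incl (A : Set X) : C(A, X) := ⟨Subtype.val, continuous_subtype_val⟩

/-- inclusion between subspaces -/
def inclS {A B : Set X} (h : A ⊆ B) : C(A, B) := ⟨Set.inclusion h, continuous_inclusion h⟩

lemma incl_injective (A : Set X) : Function.Injective (incl A) := Subtype.val_injective

lemma inclS_injective {A B : Set X} (h : A ⊆ B) : Function.Injective (inclS h) :=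
  Set.inclusion_injective h

/-- simplices inside `A` -/
def inSet (n : ℕ) (A : Set X) : Set (Sing n X) := {σ | ∀ t, σ t ∈ A}

lemma exists_push_incl (n : ℕ) (A : Set X) (c : Ch n X)
    (hc : c ∈ Finsupp.supported ℤ ℤ (inSet n A)) : ∃ c' : Ch n A, push (incl A) n c' = c := by
  have h : (LinearMap.id : Ch n X →ₗ[ℤ] Ch n X) c ∈ LinearMap.range (push (incl A) n) := by
    refine map_supported LinearMap.id _ _ ?_ c hc
    intro σ hσ
    refine ⟨Finsupp.single (⟨fun t => ⟨σ t, hσ t⟩, σ.continuous.subtype_mk _⟩ : Sing n A) 1, ?_⟩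
    rw [push_single]
    rfl
  exact h

lemma push_incl_mem (n : ℕ) (A : Set X) (c : Ch n A) :
    push (incl A) n c ∈ Finsupp.supported ℤ ℤ (inSet n A) := by
  refine map_supported (push (incl A) n) Set.univ _ ?_ c (by rw [Finsupp.supported_univ]; trivial)
  intro σ _
  rw [push_single]
  exact Finsupp.single_mem_supported ℤ 1 (fun t => (σ t).2)

lemma exists_decomp (n : ℕ) (A B : Set X) (c : Ch n X) (hc : c ∈ Sm n ({A, B} : Set (Set X))) :
    ∃ (a : Ch n A) (b : Ch n B), c = push (incl A) n a + push (incl B) n b := by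
  have h : (LinearMap.id : Ch n X →ₗ[ℤ] Ch n X) c ∈
      LinearMap.range (push (incl A) n) ⊔ LinearMap.range (push (incl B) n) := by
    refine map_supported LinearMap.id _ _ ?_ c hc
    rintro σ ⟨u, hu, hσ⟩
    rcases hu with rfl | hu
    · refine Submodule.mem_sup_left ?_
      obtain ⟨c', hc'⟩ := exists_push_incl n u (Finsupp.single σ 1)
        (Finsupp.single_mem_supported ℤ 1 hσ)
      exact ⟨c', hc'⟩
    · rw [Set.mem_singleton_iff] at hu
      subst hu
      refine Submodule.mem_sup_right ?_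
      obtain ⟨c', hc'⟩ := exists_push_incl n u (Finsupp.single σ 1)
        (Finsupp.single_mem_supported ℤ 1 hσ)
      exact ⟨c', hc'⟩
  rw [Submodule.mem_sup] at h
  obtain ⟨_, ⟨a, rfl⟩, _, ⟨b, rfl⟩, hab⟩ := h
  exact ⟨a, b, hab.symm⟩

lemma push_incl_small (n : ℕ) (A : Set X) (U : Set (Set X)) (hA : A ∈ U) (c : Ch n A) :
    push (incl A) n c ∈ Sm n U := by
  refine Finsupp.supported_mono ?_ (push_incl_mem n A c)
  intro σ hσ
  exact ⟨A, hA, hσ⟩

/-- The suspension lemma. -/
theorem hasTors_of_cover (n : ℕ) (A B : Set X) (hA : IsOpen A) (hB : IsOpen B)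
    (hAB : A ∪ B = Set.univ) (hA1 : Acyc n A) (hB1 : Acyc n B) (hA2 : Acyc (n + 1) A)
    (hB2 : Acyc (n + 1) B) (h : HasTors n (A ∩ B : Set X)) : HasTors (n + 1) X := by
  obtain ⟨u, hu, ⟨v, hv⟩, hn⟩ := h
  have sA : A ∩ B ⊆ A := Set.inter_subset_left
  have sB : A ∩ B ⊆ B := Set.inter_subset_right
  have cA : (incl A).comp (inclS sA) = incl (A ∩ B) := rfl
  have cB : (incl B).comp (inclS sB) = incl (A ∩ B) := rfl
  obtain ⟨p, hp⟩ := hA1 (push (inclS sA) (n + 1) u) (by rw [← push_bd, hu, map_zero])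
  obtain ⟨q, hq⟩ := hB1 (push (inclS sB) (n + 1) u) (by rw [← push_bd, hu, map_zero])
  obtain ⟨p', hp'⟩ := hA2 ((2 : ℤ) • p - push (inclS sA) (n + 2) v) (by
    rw [map_sub, map_smul, hp, ← push_bd, hv, map_smul, sub_self])
  obtain ⟨q', hq'⟩ := hB2 ((2 : ℤ) • q - push (inclS sB) (n + 2) v) (by
    rw [map_sub, map_smul, hq, ← push_bd, hv, map_smul, sub_self])
  set z : Ch (n + 2) X := push (incl A) (n + 2) p - push (incl B) (n + 2) q with hz
  have hdz : bd (n + 1) X z = 0 := by
    rw [hz, map_sub, ← push_bd, ← push_bd, hp, hq, push_push, push_push, cA, cB, sub_self]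
  refine ⟨z, hdz, ⟨push (incl A) (n + 3) p' - push (incl B) (n + 3) q', ?_⟩, ?_⟩
  · rw [map_sub, ← push_bd, ← push_bd, hp', hq', map_sub, map_sub, map_smul, map_smul, push_push,
      push_push, cA, cB, hz, smul_sub]
    abel
  · rintro ⟨y, hy⟩
    have hU : ∀ w ∈ ({A, B} : Set (Set X)), IsOpen w := by
      rintro w (rfl | hw)
      · exact hA
      · rw [Set.mem_singleton_iff] at hw
        subst hw
        exact hB
    have hcov : ⋃₀ ({A, B} : Set (Set X)) = Set.univ := by
      rw [Set.sUnion_pair, hAB]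
    have hzs : z ∈ Sm (n + 2) ({A, B} : Set (Set X)) :=
      Submodule.sub_mem _ (push_incl_small _ A _ (Set.mem_insert _ _) p)
        (push_incl_small _ B _ (Set.mem_insert_of_mem _ (Set.mem_singleton B)) q)
    obtain ⟨y', hy's, hy'⟩ := small_of_boundary ({A, B} : Set (Set X)) hU hcov (n + 1) z hzs hdz y hy
    obtain ⟨a, b, hab⟩ := exists_decomp (n + 3) A B y' hy's
    have e1 : push (incl A) (n + 2) (p - bd (n + 2) A a) =
        push (incl B) (n + 2) (q + bd (n + 2) B b) := by
      rw [map_sub, map_add, push_bd, push_bd]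
      have : bd (n + 2) X (push (incl A) (n + 3) a) + bd (n + 2) X (push (incl B) (n + 3) b) =
          push (incl A) (n + 2) p - push (incl B) (n + 2) q := by
        rw [← map_add, ← hab, hy']
      rw [sub_eq_iff_eq_add, add_assoc, add_comm (bd (n + 2) X (push (incl B) (n + 3) b)), this]
      abel
    have e2 : push (incl A) (n + 2) (p - bd (n + 2) A a) ∈
        Finsupp.supported ℤ ℤ (inSet (n + 2) (A ∩ B)) := by
      have m1 := push_incl_mem (n + 2) A (p - bd (n + 2) A a)
      have m2 := push_incl_mem (n + 2) B (q + bd (n + 2) B b)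
      rw [← e1] at m2
      have : inSet (n + 2) (A ∩ B) = inSet (n + 2) A ∩ inSet (n + 2) B := by
        ext σ
        constructor
        · intro h; exact ⟨fun t => (h t).1, fun t => (h t).2⟩
        · intro h t; exact ⟨h.1 t, h.2 t⟩
      rw [this, Finsupp.supported_inter]
      exact ⟨m1, m2⟩
    obtain ⟨r, hr⟩ := exists_push_incl (n + 2) (A ∩ B) _ e2
    have e3 : push (inclS sA) (n + 2) r = p - bd (n + 2) A a := by
      refine push_injective (incl_injective A) (n + 2) ?_
      rw [push_push, cA, hr]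
    refine hn ⟨r, ?_⟩
    refine push_injective (inclS_injective sA) (n + 1) ?_
    rw [push_bd, e3, map_sub, hp]
    rw [bd_bd, sub_zero]

end

end Pool.Agent.H.MP_c8cff9_gt.H93
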