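import Pool.Agent.H.MP_c8cff9_gt.H93.Bridge

/-!
# Suspension of an open set inside a vector space
-/

set_option autoImplicit false

open Topology

namespace Pool.Agent.H.MP_c8cff9_gt.H93

/-- The suspension-like open set `{(t, p) : t ≠ 0 ∨ p ∈ G}`. -/
def Su {P : Type} (G : Set P) : Set (ℝ × P) := {x | x.1 ≠ 0 ∨ x.2 ∈ G}

section
variable {P : Type} [NormedAddCommGroup P] [NormedSpace ℝ P] (G : Set P)

lemma isOpen_Su (hG : IsOpen G) : IsOpen (Su G) := by
  have h : Su G = (Prod.fst ⁻¹' {0}ᶜ) ∪ (Prod.snd ⁻¹' G) := rfl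
  rw [h]
  exact (isOpen_compl_singleton.preimage continuous_fst).union (hG.preimage continuous_snd)

/-- the half `{ε t > 0 ∨ p ∈ G}` -/
def Half (ε : ℝ) : Set (Su G) := {x | 0 < ε * x.1.1 ∨ x.1.2 ∈ G}

lemma isOpen_Half (hG : IsOpen G) (ε : ℝ) : IsOpen (Half G ε) := by
  have h : Half G ε = ((fun x : Su G => ε * x.1.1) ⁻¹' Set.Ioi 0) ∪
      ((fun x : Su G => x.1.2) ⁻¹' G) := rfl
  rw [h]
  exact (isOpen_Ioi.preimage (by fun_prop)).union (hG.preimage (by fun_prop))

/-- the convex core `{ε t > 0}` -/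
def Core (P : Type) (ε : ℝ) : Set (ℝ × P) := {x | 0 < ε * x.1}

lemma convex_Core (ε : ℝ) : Convex ℝ (Core P ε) := by
  have : Core P ε = (fun x : ℝ × P => ε * x.1) ⁻¹' Set.Ioi 0 := rfl
  intro x hx y hy a b ha hb hab
  have hx' : 0 < ε * x.1 := hx
  have hy' : 0 < ε * y.1 := hy
  change 0 < ε * (a • x + b • y).1
  have h1 : ε * (a • x + b • y).1 = a * (ε * x.1) + b * (ε * y.1) := by
    simp only [Prod.fst_add, Prod.smul_fst, smul_eq_mul]; ring
  rw [h1]
  rcases ha.eq_or_lt with h | h
  · rw [← h] at hab ⊢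
    have : b = 1 := by linarith
    rw [this]; linarith
  · have h2 : 0 < a * (ε * x.1) := mul_pos h hx'
    have h3 : 0 ≤ b * (ε * y.1) := mul_nonneg hb hy'.le
    linarith

lemma contractible_Half (ε : ℝ) (hε : ε ^ 2 = 1) : ContractibleSpace (Half G ε) := by
  have hε0 : ε ≠ 0 := by rintro rfl; norm_num at hε
  -- the core
  have hcore : ContractibleSpace (Core P ε) :=
    (convex_Core (P := P) ε).contractibleSpace ⟨(ε, 0), by
      change 0 < ε * ε
      nlinarith⟩
  -- pushing into the core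
  have hpos : ∀ t : ℝ, 0 < ε * (ε * (|t| + 1)) := by
    intro t
    have : ε * (ε * (|t| + 1)) = |t| + 1 := by rw [← mul_assoc, ← pow_two, hε, one_mul]
    rw [this]
    positivity
  let r : C(Half G ε, Core P ε) :=
    ⟨fun x => ⟨(ε * (|x.1.1.1| + 1), x.1.1.2), hpos _⟩, by fun_prop⟩
  let i : C(Core P ε, Half G ε) :=
    ⟨fun x => ⟨⟨x.1, Or.inl (by
      intro h
      have := x.2
      change 0 < ε * x.1.1 at this
      rw [h, mul_zero] at this
      exact lt_irrefl _ this)⟩, Or.inl x.2⟩, by fun_prop⟩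
  have hmem : ∀ (s : unitInterval) (x : Half G ε),
      0 < ε * ((1 - s) * x.1.1.1 + s * (ε * (|x.1.1.1| + 1))) ∨ x.1.1.2 ∈ G := by
    intro s x
    rcases x.2 with h | h
    · left
      have h1 : ε * ((1 - s) * x.1.1.1 + s * (ε * (|x.1.1.1| + 1))) =
          (1 - s) * (ε * x.1.1.1) + s * (ε * (ε * (|x.1.1.1| + 1))) := by ring
      rw [h1]
      have h2 := hpos x.1.1.1
      have h3 := s.2.1
      have h4 := s.2.2
      rcases h3.eq_or_lt with h5 | h5
      · rw [← h5]; linarith
      · have h6 : 0 < (s : ℝ) * (ε * (ε * (|x.1.1.1| + 1))) := mul_pos h5 h2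
        have h7 : 0 ≤ (1 - (s : ℝ)) * (ε * x.1.1.1) := mul_nonneg (by linarith) h.le
        linarith
    · right; exact h
  have hmem' : ∀ (s : unitInterval) (x : Half G ε),
      ((1 - s) * x.1.1.1 + s * (ε * (|x.1.1.1| + 1)), x.1.1.2) ∈ Su G := by
    intro s x
    rcases hmem s x with h | h
    · left
      intro h0
      change (1 - s) * x.1.1.1 + s * (ε * (|x.1.1.1| + 1)) = 0 at h0
      rw [h0, mul_zero] at h
      exact lt_irrefl _ h
    · right; exact h
  let H : (ContinuousMap.id (Half G ε)).Homotopy (i.comp r) :=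
    { toFun := fun p => ⟨⟨((1 - p.1) * p.2.1.1.1 + p.1 * (ε * (|p.2.1.1.1| + 1)), p.2.1.1.2),
        hmem' p.1 p.2⟩, hmem p.1 p.2⟩
      continuous_toFun := by fun_prop
      map_zero_left := by
        intro x
        apply Subtype.ext
        apply Subtype.ext
        refine Prod.ext ?_ rfl
        change (1 - (0 : ℝ)) * x.1.1.1 + 0 * (ε * (|x.1.1.1| + 1)) = x.1.1.1
        ring
      map_one_left := by
        intro x
        apply Subtype.ext
        apply Subtype.ext
        refine Prod.ext ?_ rfl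
        change (1 - (1 : ℝ)) * x.1.1.1 + 1 * (ε * (|x.1.1.1| + 1)) = ε * (|x.1.1.1| + 1)
        ring }
  rw [contractible_iff_id_nullhomotopic]
  have h1 : (i.comp r).Nullhomotopic := by
    have h2 : (ContinuousMap.id (Core P ε)).Nullhomotopic := id_nullhomotopic _
    have h3 : ((i.comp (ContinuousMap.id (Core P ε))).comp r).Nullhomotopic :=
      (h2.comp_right i).comp_left r
    exact h3
  obtain ⟨y, hy⟩ := h1
  exact ⟨y, ContinuousMap.Homotopic.trans ⟨H⟩ hy⟩

/-- The suspension raises the degree of the torsion class. -/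
theorem hasTors_Su (hG : IsOpen G) (n : ℕ) (h : HasTors n G) : HasTors (n + 1) (Su G) := by
  have c1 := contractible_Half G 1 (by norm_num)
  have c2 := contractible_Half G (-1) (by norm_num)
  refine hasTors_of_cover n (Half G 1) (Half G (-1)) (isOpen_Half G hG 1) (isOpen_Half G hG (-1)) ?_
    (acyc_of_contractible n) (acyc_of_contractible n) (acyc_of_contractible (n + 1))
    (acyc_of_contractible (n + 1)) ?_
  · refine Set.eq_univ_of_forall fun x => ?_
    rcases x.2 with h1 | h1
    · rcases lt_or_gt_of_ne h1 with h2 | h2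
      · right; left
        change 0 < -1 * x.1.1
        linarith
      · left; left
        change 0 < 1 * x.1.1
        linarith
    · left; right; exact h1
  · have hmem : ∀ x : (Half G 1 ∩ Half G (-1) : Set (Su G)), x.1.1.2 ∈ G := by
      intro x
      rcases x.2.1 with h1 | h1
      · rcases x.2.2 with h2 | h2
        · exfalso
          linarith
        · exact h2
      · exact h1
    refine h.of_retract ⟨fun p => ⟨⟨(0, p.1), Or.inr p.2⟩, Or.inr p.2, Or.inr p.2⟩, by fun_prop⟩
      ⟨fun x => ⟨x.1.1.2, hmem x⟩, by fun_prop⟩ ?_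
    ext p
    rfl

end

end Pool.Agent.H.MP_c8cff9_gt.H93
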